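import Mathlib

/-!
Vector configurations: a finite set `V` of indices and a finite-dimensional space `R` of real
functions on the indices.  Faces are zero sets of nonnegative functions of `R`.
-/

namespace Pool.Agent.P.MP_af6acb_co

open Finset Module

set_option linter.unusedSectionVars false

variable {ι : Type} [DecidableEq ι]

/-- The functions of `R` vanishing on `X`. -/
def K (R : Submodule ℝ (ι → ℝ)) (X : Finset ι) : Submodule ℝ (ι → ℝ) where
  carrier := {φ | φ ∈ R ∧ ∀ v ∈ X, φ v = 0}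
  add_mem' := by
    rintro a b ⟨ha, ha'⟩ ⟨hb, hb'⟩
    exact ⟨R.add_mem ha hb, fun v hv => by simp [ha' v hv, hb' v hv]⟩
  zero_mem' := ⟨R.zero_mem, fun _ _ => rfl⟩
  smul_mem' := by
    rintro c a ⟨ha, ha'⟩
    exact ⟨R.smul_mem c ha, fun v hv => by simp [ha' v hv]⟩

/-- The rank of a set of indices. -/
noncomputable def rk (R : Submodule ℝ (ι → ℝ)) (X : Finset ι) : ℕ :=
  finrank ℝ R - finrank ℝ (K R X)

/-- `X` is a face of the configuration `(V, R)`. -/
def IsFace (V : Finset ι) (R : Submodule ℝ (ι → ℝ)) (X : Finset ι) : Prop :=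
  X ⊆ V ∧ ∃ φ ∈ R, (∀ v ∈ V, 0 ≤ φ v) ∧ ∀ v ∈ V, (φ v = 0 ↔ v ∈ X)

/-- The configuration is the vertex set of a polytope. -/
structure IsPoly (V : Finset ι) (R : Submodule ℝ (ι → ℝ)) : Prop where
  empty : IsFace V R ∅
  single : ∀ v ∈ V, IsFace V R {v}

open Classical in
/-- Faces of rank `k` (dimension `k - 1`). -/
noncomputable def faces (V : Finset ι) (R : Submodule ℝ (ι → ℝ)) (k : ℕ) : Finset (Finset ι) :=
  V.powerset.filter (fun X => IsFace V R X ∧ rk R X = k)

open Classical in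
/-- Neighbours of a vertex. -/
noncomputable def nbr (V : Finset ι) (R : Submodule ℝ (ι → ℝ)) (v : ι) : Finset ι :=
  V.filter (fun w => w ≠ v ∧ IsFace V R {v, w})

/-- `B` is independent: the evaluations at points of `B` are independent on `R`. -/
def Indep (R : Submodule ℝ (ι → ℝ)) (B : Finset ι) : Prop :=
  ∀ b ∈ B, ∃ e ∈ R, e b = 1 ∧ ∀ b' ∈ B, b' ≠ b → e b' = 0

/-- Every function of `R` vanishing on `X` vanishes on `Y`. -/
def Spans (R : Submodule ℝ (ι → ℝ)) (X Y : Finset ι) : Prop :=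
  ∀ φ ∈ R, (∀ x ∈ X, φ x = 0) → ∀ y ∈ Y, φ y = 0

variable {R : Submodule ℝ (ι → ℝ)} {V X Y Z : Finset ι}

omit [DecidableEq ι] in
lemma mem_K {φ : ι → ℝ} : φ ∈ K R X ↔ φ ∈ R ∧ ∀ v ∈ X, φ v = 0 := Iff.rfl

omit [DecidableEq ι] in
lemma K_le (R : Submodule ℝ (ι → ℝ)) (X : Finset ι) : K R X ≤ R := fun _ h => h.1

omit [DecidableEq ι] in
lemma K_anti (h : X ⊆ Y) : K R Y ≤ K R X := fun _ hφ => ⟨hφ.1, fun v hv => hφ.2 v (h hv)⟩

omit [DecidableEq ι] in
lemma K_empty (R : Submodule ℝ (ι → ℝ)) : K R ∅ = R := by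
  ext φ; simp [mem_K]

lemma K_K (R : Submodule ℝ (ι → ℝ)) (X Y : Finset ι) : K (K R X) Y = K R (X ∪ Y) := by
  ext φ
  simp only [mem_K, mem_union]
  constructor
  · rintro ⟨⟨h1, h2⟩, h3⟩
    exact ⟨h1, fun v hv => hv.elim (h2 v) (h3 v)⟩
  · rintro ⟨h1, h2⟩
    exact ⟨⟨h1, fun v hv => h2 v (Or.inl hv)⟩, fun v hv => h2 v (Or.inr hv)⟩

instance finiteDimensional_K [FiniteDimensional ℝ R] (X : Finset ι) :
    FiniteDimensional ℝ (K R X) :=
  Submodule.finiteDimensional_of_le (K_le R X)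

omit [DecidableEq ι] in
lemma mem_faces {k : ℕ} : X ∈ faces V R k ↔ IsFace V R X ∧ rk R X = k := by
  classical
  simp only [faces, mem_filter, mem_powerset]
  exact ⟨fun h => h.2, fun h => ⟨h.1.1, h⟩⟩

lemma mem_nbr {v w : ι} : w ∈ nbr V R v ↔ w ∈ V ∧ w ≠ v ∧ IsFace V R {v, w} := by
  simp [nbr]

section rank

variable [FiniteDimensional ℝ R]

omit [DecidableEq ι] in
lemma rk_add (X : Finset ι) : rk R X + finrank ℝ (K R X) = finrank ℝ R := by
  have := Submodule.finrank_mono (K_le R X)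
  unfold rk; omega

omit [DecidableEq ι] [FiniteDimensional ℝ R] in
lemma rk_empty : rk R ∅ = 0 := by
  unfold rk; rw [K_empty]; simp

omit [DecidableEq ι] in
lemma rk_le_of_spans (h : Spans R X Y) : rk R Y ≤ rk R X := by
  have h1 : K R X ≤ K R Y := fun φ hφ => ⟨hφ.1, h φ hφ.1 hφ.2⟩
  have := Submodule.finrank_mono h1
  unfold rk; omega

omit [DecidableEq ι] in
lemma rk_mono (h : X ⊆ Y) : rk R X ≤ rk R Y :=
  rk_le_of_spans (fun _ _ hφ x hx => hφ x (h hx))

omit [DecidableEq ι] in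
lemma rk_lt (h : X ⊆ Y) {φ : ι → ℝ} (hφ : φ ∈ R) (hX : ∀ x ∈ X, φ x = 0) {y : ι} (hy : y ∈ Y)
    (hne : φ y ≠ 0) : rk R X < rk R Y := by
  have h1 : K R Y < K R X := by
    refine lt_of_le_of_ne (K_anti h) ?_
    intro he
    have : φ ∈ K R Y := he ▸ (⟨hφ, hX⟩ : φ ∈ K R X)
    exact hne (this.2 y hy)
  have h2 := Submodule.finrank_lt_finrank_of_lt h1
  have h3 := rk_add (R := R) X
  have h4 := rk_add (R := R) Y
  omega

omit [DecidableEq ι] in
lemma spans_of_rk_le (h : X ⊆ Y) (hr : rk R Y ≤ rk R X) : Spans R X Y := by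
  intro φ hφ hX y hy
  by_contra hne
  have := rk_lt h hφ hX hy hne
  omega

lemma rk_insert_le (u : ι) (X : Finset ι) : rk R (insert u X) ≤ rk R X + 1 := by
  let f : K R X →ₗ[ℝ] ℝ := (LinearMap.proj u).comp (K R X).subtype
  have h1 := LinearMap.finrank_range_add_finrank_ker f
  have h2 : finrank ℝ (LinearMap.range f) ≤ 1 := by
    have := Submodule.finrank_le (LinearMap.range f)
    simpa using this
  have h3 : finrank ℝ (LinearMap.ker f) ≤ finrank ℝ (K R (insert u X)) := by
    rw [← Submodule.finrank_map_subtype_eq (K R X) (LinearMap.ker f)]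
    apply Submodule.finrank_mono
    rintro φ ⟨ψ, hψ, rfl⟩
    refine ⟨ψ.2.1, fun v hv => ?_⟩
    rcases mem_insert.1 hv with rfl | hv
    · simpa [f] using hψ
    · exact ψ.2.2 v hv
  have h4 := rk_add (R := R) X
  have h5 := rk_add (R := R) (insert u X)
  omega

lemma rk_le_card (X : Finset ι) : rk R X ≤ X.card := by
  induction X using Finset.induction_on with
  | empty => simp [rk_empty]
  | insert u X hu ih =>
    have := rk_insert_le (R := R) u X
    rw [card_insert_of_notMem hu]; omega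

lemma rk_K (X Z : Finset ι) : rk (K R X) Z + rk R X = rk R (X ∪ Z) := by
  have h1 := rk_add (R := R) X
  have h2 := rk_add (R := R) (X ∪ Z)
  have h3 := rk_add (R := K R X) Z
  rw [K_K] at h3
  omega

/-- Among `d + 1` functions vanishing on `X` there is a relation on `Y` if the rank of `Y` exceeds
that of `X` by at most `d`. -/
lemma exists_rel {d : ℕ} (hXY : X ⊆ Y) (hr : rk R Y ≤ rk R X + d) (φ : Fin (d + 1) → ι → ℝ)
    (hφ : ∀ i, φ i ∈ K R X) :
    ∃ α : Fin (d + 1) → ℝ, α ≠ 0 ∧ ∀ y ∈ Y, ∑ i, α i * φ i y = 0 := by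
  let L : (Fin (d + 1) → ℝ) →ₗ[ℝ] K R X :=
    ∑ i, (LinearMap.proj i).smulRight (⟨φ i, hφ i⟩ : K R X)
  let Q := (K R Y).comap (K R X).subtype
  let M := Q.mkQ.comp L
  have hQ : finrank ℝ Q = finrank ℝ (K R Y) :=
    (Submodule.comapSubtypeEquivOfLe (K_anti hXY)).finrank_eq
  have h1 := Q.finrank_quotient_add_finrank
  have h2 := rk_add (R := R) X
  have h3 := rk_add (R := R) Y
  have h4 : finrank ℝ ((K R X) ⧸ Q) < finrank ℝ (Fin (d + 1) → ℝ) := by
    simp only [finrank_fintype_fun_eq_card, Fintype.card_fin]; omega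
  obtain ⟨α, hα, hα0⟩ := (Submodule.ne_bot_iff _).1 (LinearMap.ker_ne_bot_of_finrank_lt (f := M) h4)
  refine ⟨α, hα0, fun y hy => ?_⟩
  have h5 : L α ∈ Q := by
    rw [LinearMap.mem_ker] at hα
    simpa [M] using hα
  have h6 := (Submodule.mem_comap.1 h5).2 y hy
  simpa [L] using h6

/-- Corank one: every function vanishing on `X` is a multiple of a fixed one on `Y`. -/
lemma exists_mul (hXY : X ⊆ Y) (hr : rk R Y ≤ rk R X + 1) {η φ : ι → ℝ} (hη : η ∈ K R X)
    (hφ : φ ∈ K R X) {y0 : ι} (hy0 : y0 ∈ Y) (hne : η y0 ≠ 0) :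
    ∃ c : ℝ, ∀ y ∈ Y, φ y = c * η y := by
  obtain ⟨α, hα, h⟩ := exists_rel hXY hr ![η, φ] (by
    intro i; fin_cases i
    · exact hη
    · exact hφ)
  replace h : ∀ y ∈ Y, α 0 * η y + α 1 * φ y = 0 := fun y hy => by
    simpa [Fin.sum_univ_succ] using h y hy
  have h1 : α 1 ≠ 0 := by
    intro h1
    have h0 := h y0 hy0
    rw [h1] at h0
    have : α 0 = 0 := by
      rcases mul_eq_zero.1 (by simpa using h0 : α 0 * η y0 = 0) with h | h
      · exact h
      · exact absurd h hne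
    apply hα
    funext i; fin_cases i
    · exact this
    · exact h1
  refine ⟨-α 0 / α 1, fun y hy => ?_⟩
  have := h y hy
  field_simp
  linarith

lemma Indep.mono {B C : Finset ι} (h : Indep R B) (hC : C ⊆ B) : Indep R C := by
  intro b hb
  obtain ⟨e, he, h1, h2⟩ := h b (hC hb)
  exact ⟨e, he, h1, fun b' hb' hne => h2 b' (hC hb') hne⟩

lemma Indep.rk_eq {B : Finset ι} (h : Indep R B) : rk R B = B.card := by
  induction B using Finset.induction_on with
  | empty => simp [rk_empty]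
  | insert u B hu ih =>
    have h1 := ih (h.mono (subset_insert u B))
    obtain ⟨e, he, he1, he2⟩ := h u (mem_insert_self u B)
    have h2 : rk R B < rk R (insert u B) :=
      rk_lt (subset_insert u B) he
        (fun x hx => he2 x (mem_insert_of_mem hx) (by rintro rfl; exact hu hx))
        (mem_insert_self u B) (by rw [he1]; exact one_ne_zero)
    have h3 := rk_insert_le (R := R) u B
    rw [card_insert_of_notMem hu]; omega

lemma indep_of_rk_eq {B : Finset ι} (h : rk R B = B.card) : Indep R B := by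
  intro b hb
  have h1 := rk_le_card (R := R) (B.erase b)
  rw [card_erase_of_mem hb] at h1
  have hpos : 0 < B.card := card_pos.2 ⟨b, hb⟩
  by_contra hcon
  have : Spans R (B.erase b) B := by
    intro φ hφ hz y hy
    by_cases hyb : y = b
    · subst hyb
      by_contra hne
      apply hcon
      refine ⟨(φ y)⁻¹ • φ, R.smul_mem _ hφ, by simp [hne], fun b' hb' hne' => ?_⟩
      simp [hz b' (mem_erase.2 ⟨hne', hb'⟩)]
    · exact hz y (mem_erase.2 ⟨hyb, hy⟩)
  have := rk_le_of_spans this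
  omega

lemma exists_basis (X : Finset ι) : ∃ B ⊆ X, Indep R B ∧ Spans R B X ∧ B.card = rk R X := by
  have key : ∃ B ⊆ X, rk R B = B.card ∧ rk R B = rk R X := by
    induction X using Finset.induction_on with
    | empty => exact ⟨∅, subset_rfl, by simp [rk_empty], rfl⟩
    | insert u X hu ih =>
      obtain ⟨B, hB, h1, h2⟩ := ih
      by_cases h : rk R (insert u X) ≤ rk R X
      · exact ⟨B, hB.trans (subset_insert u X), h1,
          le_antisymm (h2 ▸ rk_mono (subset_insert u X)) (h2 ▸ h)⟩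
      · have huB : u ∉ B := fun h' => hu (hB h')
        have hs : Spans R (insert u B) (insert u X) := by
          intro φ hφ hz y hy
          rcases mem_insert.1 hy with rfl | hy
          · exact hz _ (mem_insert_self _ _)
          · exact spans_of_rk_le hB h2.ge φ hφ (fun x hx => hz x (mem_insert_of_mem hx)) y hy
        have h3 := rk_le_of_spans hs
        have h4 := rk_insert_le (R := R) u B
        have h5 := rk_insert_le (R := R) u X
        refine ⟨insert u B, insert_subset_insert u hB, ?_, ?_⟩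
        · rw [card_insert_of_notMem huB]; omega
        · omega
  obtain ⟨B, hB, h1, h2⟩ := key
  exact ⟨B, hB, indep_of_rk_eq h1, spans_of_rk_le hB h2.ge, by omega⟩

omit [FiniteDimensional ℝ R] in
/-- Dual functions of an independent set, as a function. -/
lemma Indep.exists_dual {B : Finset ι} (h : Indep R B) :
    ∃ e : ι → ι → ℝ, (∀ b, e b ∈ R) ∧ ∀ b ∈ B, ∀ b' ∈ B, e b b' = if b' = b then 1 else 0 := by
  have : ∀ b, ∃ e ∈ R, b ∈ B → (e b = 1 ∧ ∀ b' ∈ B, b' ≠ b → e b' = 0) := by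
    intro b
    by_cases hb : b ∈ B
    · obtain ⟨e, he, h1⟩ := h b hb
      exact ⟨e, he, fun _ => h1⟩
    · exact ⟨0, R.zero_mem, fun h => absurd h hb⟩
  choose e he h1 using this
  refine ⟨e, he, fun b hb b' hb' => ?_⟩
  split_ifs with hbb
  · subst hbb; exact (h1 _ hb).1
  · exact (h1 b hb).2 b' hb' hbb

omit [FiniteDimensional ℝ R] in
/-- Expansion along a basis. -/
lemma expand {B : Finset ι} {e : ι → ι → ℝ} (he : ∀ b, e b ∈ R)
    (hd : ∀ b ∈ B, ∀ b' ∈ B, e b b' = if b' = b then 1 else 0) (hs : Spans R B X)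
    {φ : ι → ℝ} (hφ : φ ∈ R) {x : ι} (hx : x ∈ X) : φ x = ∑ b ∈ B, φ b * e b x := by
  have hmem : φ - ∑ b ∈ B, φ b • e b ∈ R :=
    R.sub_mem hφ (R.sum_mem fun b _ => R.smul_mem _ (he b))
  have := hs _ hmem (fun b' hb' => by
    simp only [Pi.sub_apply, Finset.sum_apply, Pi.smul_apply, smul_eq_mul]
    rw [Finset.sum_congr rfl (fun b hb => by rw [hd b hb b' hb'])]
    simp [hb']) x hx
  simp only [Pi.sub_apply, Finset.sum_apply, Pi.smul_apply, smul_eq_mul] at this
  linarith

end rank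

end Pool.Agent.P.MP_af6acb_co
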