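import Pool.Agent.P.MP_af6acb_co.Euler

/-!
The dual configuration.
-/

namespace Pool.Agent.P.MP_af6acb_co

open Finset Module

set_option linter.unusedSectionVars false
set_option linter.unusedVariables false

variable {ι : Type} [DecidableEq ι] {R : Submodule ℝ (ι → ℝ)} {V X Y Z : Finset ι}

/-- The facets containing `X`. -/
noncomputable def dl (V : Finset ι) (R : Submodule ℝ (ι → ℝ)) (n : ℕ) (X : Finset ι) :
    Finset (Finset ι) :=
  (faces V R n).filter (fun F => X ⊆ F)

lemma mem_dl {n : ℕ} {F : Finset ι} : F ∈ dl V R n X ↔ (IsFace V R F ∧ rk R F = n) ∧ X ⊆ F := by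
  simp [dl, mem_faces]

/-- `R'` makes the set of facets a configuration dual to `(V, R)`. -/
structure IsDual (V : Finset ι) (R : Submodule ℝ (ι → ℝ)) (n : ℕ)
    (R' : Submodule ℝ (Finset ι → ℝ)) : Prop where
  poly : IsPoly (faces V R n) R'
  face : ∀ X, IsFace V R X → IsFace (faces V R n) R' (dl V R n X)
  rank : ∀ X, IsFace V R X → rk R' (dl V R n X) + rk R X = n + 1
  surj : ∀ Z, IsFace (faces V R n) R' Z → ∃ X, IsFace V R X ∧ dl V R n X = Z

variable [FiniteDimensional ℝ R]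

lemma dl_subset {n : ℕ} (hr : rk R V = n + 1) (hX : X ⊆ V) (hY : IsFace V R Y) :
    dl V R n Y ⊆ dl V R n X ↔ X ⊆ Y := by
  constructor
  · intro h x hx
    by_contra hxY
    obtain ⟨F, h1, h2, h3, h4⟩ := hY.exists_coatom (hX hx) hxY
    exact h3 ((mem_dl.1 (h (mem_dl.2 ⟨⟨h1, by omega⟩, h2⟩))).2 hx)
  · intro h F hF
    exact mem_dl.2 ⟨(mem_dl.1 hF).1, h.trans (mem_dl.1 hF).2⟩

lemma dl_inj {n : ℕ} (hr : rk R V = n + 1) (hX : IsFace V R X) (hY : IsFace V R Y)
    (h : dl V R n X = dl V R n Y) : X = Y :=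
  Subset.antisymm ((dl_subset hr hX.1 hY).1 h.ge) ((dl_subset hr hY.1 hX).1 h.le)

lemma dl_top {n : ℕ} (hr : rk R V = n + 1) : dl V R n V = ∅ := by
  rw [eq_empty_iff_forall_notMem]
  intro F hF
  obtain ⟨⟨_, h2⟩, h3⟩ := mem_dl.1 hF
  have := rk_mono (R := R) h3
  omega

lemma dl_facet {n : ℕ} {F : Finset ι} (hF : F ∈ faces V R n) : dl V R n F = {F} := by
  ext G
  rw [mem_dl, mem_singleton]
  obtain ⟨h1, h2⟩ := mem_faces.1 hF
  constructor
  · rintro ⟨⟨h3, h4⟩, h5⟩
    exact (h1.eq_of_rk_le h5 h3.1 (by omega)).symm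
  · rintro rfl
    exact ⟨⟨h1, h2⟩, subset_rfl⟩

lemma dl_empty {n : ℕ} : dl V R n ∅ = faces V R n := by
  simp [dl]

theorem exists_dual {n : ℕ} (hr : rk R V = n + 1) :
    ∃ R' : Submodule ℝ (Finset ι → ℝ), ∃ _ : FiniteDimensional ℝ R', IsDual V R n R' := by
  classical
  have : ∀ F : Finset ι, ∃ φ ∈ R, F ∈ faces V R n →
      (∀ v ∈ F, φ v = 0) ∧ ∀ v ∈ V, v ∉ F → 0 < φ v := by
    intro F
    by_cases h : F ∈ faces V R n
    · obtain ⟨φ, hφ, h1⟩ := (mem_faces.1 h).1.exists_fun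
      exact ⟨φ, hφ, fun _ => h1⟩
    · exact ⟨0, R.zero_mem, fun h' => absurd h' h⟩
  choose a ha h1 using this
  have ann : ∀ F ∈ faces V R n, ∀ v ∈ V, 0 ≤ a F v := fun F hF v hv => by
    by_cases h : v ∈ F
    · exact ((h1 F hF).1 v h).ge
    · exact ((h1 F hF).2 v hv h).le
  let L : (V → ℝ) →ₗ[ℝ] (Finset ι → ℝ) :=
    { toFun := fun c F => ∑ v : V, c v * a F v
      map_add' := fun c d => by funext F; simp [add_mul, sum_add_distrib]
      map_smul' := fun t c => by funext F; simp [mul_sum, mul_assoc] }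
  have hface : ∀ X, IsFace V R X → IsFace (faces V R n) (LinearMap.range L) (dl V R n X) := by
    intro X hX
    refine isFace_of_fun (filter_subset _ _)
      (φ := L (fun v => if (v : ι) ∈ X then 1 else 0)) ⟨_, rfl⟩ (fun F hF => ?_)
      (fun F hF hF' => ?_)
    · refine sum_eq_zero (fun v _ => ?_)
      by_cases h : (v : ι) ∈ X
      · rw [(h1 F (mem_filter.1 hF).1).1 v ((mem_filter.1 hF).2 h), mul_zero]
      · simp [h]
    · have : ¬ X ⊆ F := fun h => hF' (mem_filter.2 ⟨hF, h⟩)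
      obtain ⟨x, hx, hxF⟩ := not_subset.1 this
      refine sum_pos' (fun v _ => mul_nonneg (by beta_reduce; split_ifs <;> norm_num) (ann F hF v v.2))
        ⟨⟨x, hX.1 hx⟩, mem_univ _, ?_⟩
      simpa [hx] using (h1 F hF).2 x (hX.1 hx) hxF
  have hsurj : ∀ Z, IsFace (faces V R n) (LinearMap.range L) Z →
      ∃ X, IsFace V R X ∧ dl V R n X = Z := by
    rintro Z ⟨hZ, ψ, ⟨c, rfl⟩, p1, p2⟩
    have key : ∀ φ ∈ R, (∀ v ∈ V, 0 ≤ φ v) → 0 ≤ ∑ v : V, c v * φ v := by
      intro φ hφ hnn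
      refine gen_induction (R := R) (X := ∅) (empty_subset V)
        (fun φ => 0 ≤ ∑ v : V, c v * φ v) (fun φ _ hz => ?_) (fun φ hφ _ hV hrk => ?_)
        (fun φ ψ s t hs ht h1 h2 => ?_) hφ (by simp) hnn
      · exact (sum_eq_zero (fun v _ => by rw [hz v v.2, mul_zero])).ge
      · set F := V.filter (fun v => φ v = 0) with hF
        have hFA : F ∈ faces V R n := mem_faces.2 ⟨isFace_zero hφ hV, by omega⟩
        have hne : F ≠ V := by intro h; rw [h] at hrk; omega
        obtain ⟨y, hy, hyF⟩ := exists_of_ssubset (lt_of_le_of_ne (filter_subset _ _) hne)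
        have hay := (h1 F hFA).2 y hy hyF
        obtain ⟨t, ht⟩ := exists_mul (R := R) (X := F) (Y := V) (filter_subset _ _) (by omega)
          (η := a F) (φ := φ) ⟨ha F, (h1 F hFA).1⟩ ⟨hφ, fun v hv => (mem_filter.1 hv).2⟩ hy hay.ne'
        have ht0 : 0 ≤ t := by
          have := hV y hy
          rw [ht y hy] at this
          exact nonneg_of_mul_nonneg_left this hay
        have : ∑ v : V, c v * φ v = t * L c F := by
          simp only [L, LinearMap.coe_mk, AddHom.coe_mk, mul_sum]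
          exact sum_congr rfl (fun v _ => by rw [ht v v.2]; ring)
        rw [this]
        exact mul_nonneg ht0 (p1 F hFA)
      · have : ∑ v : V, c v * (s • φ + t • ψ) v =
            s * ∑ v : V, c v * φ v + t * ∑ v : V, c v * ψ v := by
          simp only [Pi.add_apply, Pi.smul_apply, smul_eq_mul, mul_sum, ← sum_add_distrib]
          exact sum_congr rfl (fun v _ => by ring)
        rw [this]; positivity
    have hφ0 : ∑ F ∈ Z, a F ∈ R := R.sum_mem fun F _ => ha F
    have hnn : ∀ v ∈ V, 0 ≤ (∑ F ∈ Z, a F) v := fun v hv => by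
      rw [Finset.sum_apply]; exact sum_nonneg fun F hF => ann F (hZ hF) v hv
    refine ⟨_, isFace_zero hφ0 hnn, ?_⟩
    ext F
    rw [dl, mem_filter]
    constructor
    · rintro ⟨hF, hsub⟩
      obtain ⟨t, _, ht⟩ := exists_large (V.filter (fun v => (∑ F ∈ Z, a F) v ≠ 0)) (-a F)
        (∑ F ∈ Z, a F) (fun v hv => lt_of_le_of_ne (hnn v (mem_filter.1 hv).1)
          (mem_filter.1 hv).2.symm)
      have k1 := key (-a F + t • ∑ F ∈ Z, a F) (R.add_mem (R.neg_mem (ha F)) (R.smul_mem _ hφ0))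
        (fun v hv => by
          by_cases h : (∑ F ∈ Z, a F) v = 0
          · have := (h1 F hF).1 v (hsub (mem_filter.2 ⟨hv, h⟩))
            simp only [Pi.add_apply, Pi.neg_apply, Pi.smul_apply, smul_eq_mul, h, this]; simp
          · exact (ht v (mem_filter.2 ⟨hv, h⟩)).le)
      have k2 : ∑ v : V, c v * (-a F + t • ∑ F ∈ Z, a F) v = - L c F + t * ∑ G ∈ Z, L c G := by
        simp only [L, LinearMap.coe_mk, AddHom.coe_mk, Pi.add_apply, Pi.neg_apply, Pi.smul_apply,
          smul_eq_mul, Finset.sum_apply]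
        rw [sum_comm, mul_sum, ← sum_neg_distrib, ← sum_add_distrib]
        refine sum_congr rfl (fun v _ => ?_)
        rw [← mul_sum]; ring
      rw [k2, sum_eq_zero (fun G hG => (p2 G (hZ hG)).2 hG)] at k1
      exact (p2 F hF).1 (le_antisymm (by linarith) (p1 F hF))
    · intro hF
      refine ⟨hZ hF, fun v hv => ?_⟩
      obtain ⟨hv1, hv2⟩ := mem_filter.1 hv
      by_contra hvF
      have k1 := (h1 F (hZ hF)).2 v hv1 hvF
      have k2 : a F v ≤ ∑ G ∈ Z, a G v :=
        single_le_sum (f := fun G => a G v) (fun G hG => ann G (hZ hG) v hv1) hF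
      rw [Finset.sum_apply] at hv2
      linarith
  refine ⟨LinearMap.range L, inferInstance, ⟨?_, fun F hF => ?_⟩, hface, fun X hX => ?_, hsurj⟩
  · rw [← dl_top hr]; exact hface V (isFace_self V R)
  · rw [← dl_facet hF]; exact hface F (mem_faces.1 hF).1
  · induction' hm : n + 1 - rk R X with m ih generalizing X
    · have : X = V := hX.eq_of_rk_le hX.1 subset_rfl (by omega)
      rw [this, dl_top hr, rk_empty, hr, zero_add]
    · obtain ⟨Y, hY, hXY, _, hrY⟩ := hX.exists_between (isFace_self V R) hX.1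
        (r := rk R X + 1) (by omega) (by omega)
      have k1 := ih Y hY (by omega)
      have k2 : dl V R n Y ⊆ dl V R n X := (dl_subset hr hX.1 hY).2 hXY
      have k3 := (hface Y hY).rk_lt k2 (hface X hX).1 (fun he => by
        have := dl_inj hr hY hX he
        rw [this] at hrY; omega)
      by_contra hcon
      obtain ⟨Z, hZ, k4, k5, k6⟩ := (hface Y hY).exists_between (hface X hX) k2
        (r := rk (LinearMap.range L) (dl V R n Y) + 1) (by omega) (by omega)
      obtain ⟨W, hW, rfl⟩ := hsurj Z hZ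
      have k7 := (dl_subset hr hW.1 hY).1 k4
      have k8 := (dl_subset hr hX.1 hW).1 k5
      by_cases h : rk R W ≤ rk R X
      · rw [← hX.eq_of_rk_le k8 hW.1 h] at k6; omega
      · rw [hW.eq_of_rk_le k7 hY.1 (by omega)] at k6; omega

variable {n : ℕ} {R' : Submodule ℝ (Finset ι → ℝ)}

lemma IsDual.rk_top (hD : IsDual V R n R') (hP : IsPoly V R) : rk R' (faces V R n) = n + 1 := by
  have := hD.rank ∅ hP.empty
  rwa [dl_empty, rk_empty] at this

lemma IsDual.faces_eq (hD : IsDual V R n R') {k j : ℕ} (h : k + j = n + 1) :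
    faces (faces V R n) R' k = (faces V R j).image (dl V R n) := by
  ext Z
  simp only [mem_image, mem_faces (k := k), mem_faces (k := j)]
  constructor
  · rintro ⟨h1, h2⟩
    obtain ⟨X, hX, rfl⟩ := hD.surj Z h1
    have := hD.rank X hX
    exact ⟨X, ⟨hX, by omega⟩, rfl⟩
  · rintro ⟨X, ⟨h1, h2⟩, rfl⟩
    have := hD.rank X h1
    exact ⟨hD.face X h1, by omega⟩

lemma IsDual.card_faces (hD : IsDual V R n R') (hr : rk R V = n + 1) {k j : ℕ}
    (h : k + j = n + 1) : (faces (faces V R n) R' k).card = (faces V R j).card := by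
  rw [hD.faces_eq h, card_image_of_injOn]
  intro X hX Y hY he
  exact dl_inj hr (mem_faces.1 hX).1 (mem_faces.1 hY).1 he

lemma IsDual.card_facets (hD : IsDual V R n R') (hP : IsPoly V R) (hr : rk R V = n + 1)
    (hX : IsFace V R X) :
    ((faces (faces V R n) R' n).filter (fun Z => dl V R n X ⊆ Z)).card = X.card := by
  symm
  refine card_bij (fun v _ => dl V R n {v}) (fun v hv => ?_) (fun v hv w hw he => ?_)
    (fun Z hZ => ?_)
  · refine mem_filter.2 ⟨?_, (dl_subset hr (singleton_subset_iff.2 (hX.1 hv)) hX).2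
      (singleton_subset_iff.2 hv)⟩
    rw [hD.faces_eq rfl, hP.faces_one]
    exact mem_image_of_mem _ (mem_image_of_mem _ (hX.1 hv))
  · exact singleton_injective (dl_inj hr (hP.single v (hX.1 hv)) (hP.single w (hX.1 hw)) he)
  · obtain ⟨h1, h2⟩ := mem_filter.1 hZ
    rw [hD.faces_eq rfl, hP.faces_one] at h1
    obtain ⟨_, h3, rfl⟩ := mem_image.1 h1
    obtain ⟨v, hv, rfl⟩ := mem_image.1 h3
    exact ⟨v, singleton_subset_iff.1 ((dl_subset hr (singleton_subset_iff.2 hv) hX).1 h2), rfl⟩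

end Pool.Agent.P.MP_af6acb_co
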