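import Pool.Agent.P.MP_af6acb_co.Flags
import Pool.Agent.P.MP_af6acb_co.Dual

/-!
Classification of the f-vectors of minimal fatness.
-/

namespace Pool.Agent.P.MP_af6acb_co

open Finset Module

set_option linter.unusedSectionVars false
set_option linter.unusedVariables false

variable {ι : Type} [DecidableEq ι] {R : Submodule ℝ (ι → ℝ)} {V X Y Z : Finset ι}
variable [FiniteDimensional ℝ R]

lemma ridge_card (hr : rk R V = 5) (hs : ∀ F ∈ faces V R 4, F.card = 4) {σ : Finset ι}
    (h1 : IsFace V R σ) (h2 : rk R σ = 3) : σ.card = 3 := by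
  obtain ⟨F, k1, k2, _, k4⟩ := h1.exists_between (isFace_self V R) h1.1 (r := 4) (by omega)
    (by omega)
  have := ((indep_of_rk_eq (k4.trans (hs F (mem_faces.2 ⟨k1, k4⟩)).symm)).mono k2).rk_eq
  omega

lemma star_edges (hP : IsPoly V R) (hr : rk R V = 5) (hcb : CB V R)
    (hs : ∀ F ∈ faces V R 4, F.card = 4) {u : ι} (hu : u ∈ V) :
    4 * (nbr V R u).card ≤
      ((faces V R 2).filter (fun e => e ⊆ insert u (nbr V R u))).card + 6 := by
  have hQ := hP.fig hu
  have hrQ : rk (K R {u}) (nbr V R u) = 4 := by have := hP.fig_rk_top hu; omega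
  have h1 := hQ.euler hrQ
  have h2 := hQ.sum_card_rk_four hrQ
  have h3 := hQ.sum_card_nbr
  have h4 : ∑ τ ∈ faces (nbr V R u) (K R {u}) 3, τ.card =
      3 * (faces (nbr V R u) (K R {u}) 3).card := by
    rw [sum_congr rfl (g := fun _ => 3) (fun τ hτ => ?_)]
    · simp [mul_comm]
    · obtain ⟨k1, k2⟩ := mem_faces.1 hτ
      obtain ⟨F, l1, l2, l3⟩ := hP.fig_surj hu k1
      have l4 := hP.fig_rk l1 l2
      rw [l3, k2] at l4
      rw [← l3, inter_comm, ← nbr_face l1 l2]
      exact hcb F (mem_faces.2 ⟨l1, l4.symm⟩) u l2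
  have h5 : (faces V R 2).filter (fun e => u ∈ e) ∪ faces (nbr V R u) (K R {u}) 2 ⊆
      (faces V R 2).filter (fun e => e ⊆ insert u (nbr V R u)) := by
    intro e he
    rcases mem_union.1 he with he | he
    · obtain ⟨k1, k2⟩ := mem_filter.1 he
      obtain ⟨w, hw, rfl⟩ := hP.edge_eq (mem_faces.1 k1).1 (mem_faces.1 k1).2 k2
      exact mem_filter.2 ⟨k1, insert_subset_insert u (singleton_subset_iff.2 hw)⟩
    · obtain ⟨k1, k2⟩ := mem_faces.1 he
      obtain ⟨σ, l1, l2, l3⟩ := hP.fig_surj hu k1
      have l4 := hP.fig_rk l1 l2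
      rw [l3, k2] at l4
      have l5 := ridge_card hr hs l1 l4.symm
      have l6 : e ⊆ σ := l3 ▸ inter_subset_left
      have l7 := ((indep_of_rk_eq (l4.symm.trans l5.symm)).mono l6).rk_eq
      rw [hQ.card_of_rk_two k1.1 k2] at l7
      exact mem_filter.2 ⟨mem_faces.2 ⟨l1.of_indep (by omega) l6, l7⟩,
        k1.1.trans (subset_insert _ _)⟩
  have h6 := card_le_card h5
  rw [card_union_of_disjoint, ← hP.card_nbr_eq hu] at h6
  · omega
  · rw [disjoint_left]
    intro e h1 h2
    exact (mem_nbr.1 ((mem_faces.1 h2).1.1 (mem_filter.1 h1).2)).2.1 rfl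

theorem val_le_three (hP : IsPoly V R) (hr : rk R V = 5) (ht : Tight V R) (hcb : CB V R)
    (hne : NoEmpty V R) (hs : ∀ F ∈ faces V R 4, F.card = 4) {u v : ι} (hu : u ∈ V)
    (hv : v ∈ nbr V R u) : val V R u v ≤ 3 := by
  have hvV := nbr_subset u hv
  have huv : u ≠ v := (mem_nbr.1 hv).2.1.symm
  have hvu := nbr_symm hu hv
  set L := nbr V R u ∩ nbr V R v with hL
  set Nu := insert u (nbr V R u) with hNu
  set Nv := insert v (nbr V R v) with hNv
  have hNuV : Nu ⊆ V := insert_subset hu (nbr_subset u)
  have hNvV : Nv ⊆ V := insert_subset hvV (nbr_subset v)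
  have huL : u ∉ L := fun h => (mem_nbr.1 (mem_inter.1 h).1).2.1 rfl
  have hvL : v ∉ L := fun h => (mem_nbr.1 (mem_inter.1 h).2).2.1 rfl
  have hI : Nu ∩ Nv = insert u (insert v L) := by
    ext x
    simp only [hNu, hNv, hL, mem_inter, mem_insert]
    constructor
    · tauto
    · rintro (rfl | rfl | h)
      · exact ⟨Or.inl rfl, Or.inr hvu⟩
      · exact ⟨Or.inr hv, Or.inl rfl⟩
      · exact ⟨Or.inr h.1, Or.inr h.2⟩
  have c1 := card_union_add_card_inter Nu Nv
  rw [hI, card_insert_of_notMem (by simp [huv, huL]), card_insert_of_notMem hvL,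
    card_insert_of_notMem (fun h => (mem_nbr.1 h).2.1 rfl),
    card_insert_of_notMem (fun h => (mem_nbr.1 h).2.1 rfl)] at c1
  have hrU : rk R (Nu ∪ Nv) = 5 := by
    have k1 := rk_le_of_spans (hP.spans_nbr hu)
    have k2 := rk_mono (R := R) (subset_union_left (s₁ := Nu) (s₂ := Nv))
    have k3 := rk_mono (R := R) (union_subset hNuV hNvV)
    rw [← hNu] at k1
    omega
  have c2 := hP.sparse hr ht (union_subset hNuV hNvV) hrU
  have c3 := star_edges hP hr hcb hs hu
  have c4 := star_edges hP hr hcb hs hvV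
  rw [← hNu] at c3
  rw [← hNv] at c4
  have c5 := card_union_add_card_inter ((faces V R 2).filter (fun e => e ⊆ Nu))
    ((faces V R 2).filter (fun e => e ⊆ Nv))
  have c6 : ((faces V R 2).filter (fun e => e ⊆ Nu) ∪ (faces V R 2).filter (fun e => e ⊆ Nv)).card
      ≤ ((faces V R 2).filter (fun e => e ⊆ Nu ∪ Nv)).card := card_le_card (fun e he => by
    rcases mem_union.1 he with h | h
    · exact mem_filter.2 ⟨(mem_filter.1 h).1, (mem_filter.1 h).2.trans subset_union_left⟩
    · exact mem_filter.2 ⟨(mem_filter.1 h).1, (mem_filter.1 h).2.trans subset_union_right⟩)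
  have c7 : (faces V R 2).filter (fun e => e ⊆ Nu) ∩ (faces V R 2).filter (fun e => e ⊆ Nv) ⊆
      insert {u, v} (L.image (fun x => {u, x}) ∪ (L.image (fun x => {v, x}) ∪
        (faces V R 2).filter (fun e => e ⊆ L))) := by
    intro e he
    obtain ⟨k1, k2⟩ := mem_inter.1 he
    obtain ⟨k3, k4⟩ := mem_filter.1 k1
    have k5 : e ⊆ insert u (insert v L) := hI ▸ subset_inter k4 (mem_filter.1 k2).2
    obtain ⟨k6, k7⟩ := mem_faces.1 k3
    simp only [mem_insert, mem_union, mem_image, mem_filter]
    by_cases hue : u ∈ e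
    · obtain ⟨w, hw, rfl⟩ := hP.edge_eq k6 k7 hue
      have := k5 (by simp : w ∈ ({u, w} : Finset ι))
      simp only [mem_insert] at this
      rcases this with h | h | h
      · exact absurd h (mem_nbr.1 hw).2.1
      · left; rw [h]
      · right; left; exact ⟨w, h, rfl⟩
    by_cases hve : v ∈ e
    · obtain ⟨w, hw, rfl⟩ := hP.edge_eq k6 k7 hve
      have := k5 (by simp : w ∈ ({v, w} : Finset ι))
      simp only [mem_insert] at this
      rcases this with h | h | h
      · exact absurd (by simp [h]) hue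
      · exact absurd h (mem_nbr.1 hw).2.1
      · right; right; left; exact ⟨w, h, rfl⟩
    · right; right; right
      refine ⟨k3, fun x hx => ?_⟩
      have := k5 hx
      simp only [mem_insert] at this
      rcases this with rfl | rfl | h
      · exact absurd hx hue
      · exact absurd hx hve
      · exact h
  have c8 := (card_le_card c7).trans (card_insert_le _ _)
  have c9 := card_union_le (L.image (fun x => ({u, x} : Finset ι)))
    (L.image (fun x => {v, x}) ∪ (faces V R 2).filter (fun e => e ⊆ L))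
  have c10 := card_union_le (L.image (fun x => ({v, x} : Finset ι)))
    ((faces V R 2).filter (fun e => e ⊆ L))
  have c11 := card_image_le (s := L) (f := fun x => ({u, x} : Finset ι))
  have c12 := card_image_le (s := L) (f := fun x => ({v, x} : Finset ι))
  have c13 : ((faces V R 2).filter (fun e => e ⊆ L)).card ≤ val V R u v := by
    refine card_le_card_of_injOn (fun e => insert u (insert v e)) (fun e he => ?_)
      (fun e he e' he' hee => ?_)
    · obtain ⟨k1, k2⟩ := mem_filter.1 he
      obtain ⟨k3, k4⟩ := mem_faces.1 k1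
      obtain ⟨x, y, hxy, rfl⟩ := card_eq_two.1 (hP.card_of_rk_two k3.1 k4)
      obtain ⟨xu, xv⟩ := mem_inter.1 (k2 (by simp : x ∈ ({x, y} : Finset ι)))
      obtain ⟨yu, yv⟩ := mem_inter.1 (k2 (by simp : y ∈ ({x, y} : Finset ι)))
      have yx : y ∈ nbr V R x := mem_nbr.2 ⟨nbr_subset u yu, hxy.symm, k3⟩
      have n1 := (mem_nbr.1 xu).2.1.symm
      have n2 := (mem_nbr.1 yu).2.1.symm
      have n3 := (mem_nbr.1 xv).2.1.symm
      have n4 := (mem_nbr.1 yv).2.1.symm
      have hc4 := card4 huv n1 n2 n3 n4 hxy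
      have hsub : ({u, v, x, y} : Finset ι) ⊆ V :=
        insert_subset hu (sub3 hvV (nbr_subset u xu) (nbr_subset u yu))
      have hall := erase4 huv n1 n2 n3 n4 hxy
        (triangle_face hP hr ht hcb hvV xv yv yx)
        (triangle_face hP hr ht hcb hu xu yu yx)
        (triangle_face hP hr ht hcb hu hv yu yv)
        (triangle_face hP hr ht hcb hu hv xu xv)
      exact mem_coe.2 (mem_filter.2 ⟨mem_faces.2 ⟨hne _ hsub hc4 hall, rk_tetra hP hsub hc4 hall⟩,
        by simp, by simp⟩)
    · have k1 := (mem_filter.1 he).2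
      have k2 := (mem_filter.1 he').2
      have key : ∀ e : Finset ι, e ⊆ L → e = (insert u (insert v e)) ∩ L := by
        intro e he
        rw [insert_inter_of_notMem huL, insert_inter_of_notMem hvL, inter_eq_left.2 he]
      rw [key e k1, key e' k2]
      exact congrArg (· ∩ L) hee
  have c14 : val V R u v ≤ L.card := by
    obtain ⟨e1, e2⟩ := mem_faces.1 (hP.edge_mem hu hv)
    have k1 := atoms_eq_coatoms e1 (isFace_self V R) e1.1 (by omega)
    rw [e2] at k1
    have k2 : val V R u v = ((faces V R (2 + 2)).filter (fun Z => {u, v} ⊆ Z ∧ Z ⊆ V)).card := by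
      unfold val
      congr 1
      exact filter_congr (fun F hF => by
        simp [insert_subset_iff, (mem_faces.1 hF).1.1])
    rw [k2, ← k1]
    refine (card_le_card (fun σ hσ => ?_)).trans
      (card_image_le (s := L) (f := fun x => ({u, v, x} : Finset ι)))
    obtain ⟨l1, l2, _⟩ := mem_filter.1 hσ
    obtain ⟨l3, l4⟩ := mem_faces.1 l1
    have l5 := ridge_card hr hs l3 l4
    obtain ⟨x, hx, hx'⟩ := exists_of_ssubset (lt_of_le_of_ne l2 (by
      intro he; rw [← he, card_pair huv] at l5; omega) : ({u, v} : Finset ι) ⊂ σ)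
    simp only [mem_insert, mem_singleton, not_or] at hx'
    have l6 : ({u, v, x} : Finset ι) = σ := eq_of_subset_of_card_le
      (sub3 (l2 (by simp)) (l2 (by simp)) hx)
      (by rw [l5, card_eq_three.2 ⟨u, v, x, huv, Ne.symm hx'.1, Ne.symm hx'.2, rfl⟩])
    refine mem_image.2 ⟨x, mem_inter.2 ⟨mem_nbr.2 ⟨l3.1 hx, hx'.1, ?_⟩,
      mem_nbr.2 ⟨l3.1 hx, hx'.2, ?_⟩⟩, l6⟩
    · exact l3.of_indep (by omega) (insert_subset (l2 (by simp)) (singleton_subset_iff.2 hx))
    · exact l3.of_indep (by omega) (insert_subset (l2 (by simp)) (singleton_subset_iff.2 hx))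
  omega

lemma exists_edge (hP : IsPoly V R) (hr : rk R V = 5) : ∃ u ∈ V, ∃ v, v ∈ nbr V R u := by
  obtain ⟨u, hu⟩ : V.Nonempty := by
    rw [← card_pos]; have := rk_le_card (R := R) V; omega
  have h1 := hP.fig_rk_top hu
  have h2 := rk_le_card (R := K R {u}) (nbr V R u)
  obtain ⟨v, hv⟩ : (nbr V R u).Nonempty := card_pos.1 (by omega)
  exact ⟨u, hu, v, hv⟩

/-- The equation of the plane of minimal fatness. -/
def OnPlane (a b c d : ℕ) : Prop := 2 * (b + c) + 10 = 5 * (a + d)

/-- The f-vectors obtained from the simplex by stacking and truncating. -/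
def Concl (a b c d : ℕ) : Prop :=
  ∃ i j : ℕ, a = 5 + i + 3 * j ∧ b = 10 + 4 * i + 6 * j ∧ c = 10 + 6 * i + 4 * j ∧
    d = 5 + 3 * i + j

lemma Concl.symm {a b c d : ℕ} (h : Concl a b c d) : Concl d c b a := by
  obtain ⟨i, j, h1, h2, h3, h4⟩ := h
  exact ⟨j, i, by omega, by omega, by omega, by omega⟩

theorem simplicial_case (hP : IsPoly V R) (hr : rk R V = 5)
    (hpl : OnPlane V.card (faces V R 2).card (faces V R 3).card (faces V R 4).card)
    (hne : NoEmpty V R) (hs : ∀ F ∈ faces V R 4, F.card = 4) :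
    Concl V.card (faces V R 2).card (faces V R 3).card (faces V R 4).card := by
  unfold OnPlane at hpl
  obtain ⟨ht, hcb⟩ := (fatness hP hr).2 hpl.le
  obtain ⟨u, hu, v, hv⟩ := exists_edge hP hr
  have h1 := simple_all hP hr ht hcb hne hu hv (val_le_three hP hr ht hcb hne hs hu hv)
  have h2 := hP.sum_card_nbr
  rw [sum_congr rfl (fun u hu => (h1 u hu).1)] at h2
  have h3 := sum_card_faces V R 4
  rw [sum_congr rfl (fun u hu => (h1 u hu).2), sum_congr rfl hs] at h3
  simp only [sum_const, smul_eq_mul] at h2 h3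
  have h4 := euler4 hP hr
  exact ⟨0, 0, by omega, by omega, by omega, by omega⟩

lemma two_le_facets (hP : IsPoly V R) (hr : rk R V = 5) : 2 ≤ (faces V R 4).card := by
  obtain ⟨σ, h1, _, _, h4⟩ := hP.empty.exists_between (isFace_self V R) (empty_subset _) (r := 3)
    (by rw [rk_empty]; omega) (by omega)
  have := card_facets_of_ridge h1 (by omega)
  rw [h4] at this
  rw [← this]
  exact card_le_card (filter_subset _ _)

/-- The statement for all configurations of size less than `n`. -/
def Below (n : ℕ) : Prop :=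
  ∀ (ι : Type) [DecidableEq ι] (V : Finset ι) (R : Submodule ℝ (ι → ℝ)) [FiniteDimensional ℝ R],
    IsPoly V R → rk R V = 5 → V.card + (faces V R 4).card < n →
    OnPlane V.card (faces V R 2).card (faces V R 3).card (faces V R 4).card →
    Concl V.card (faces V R 2).card (faces V R 3).card (faces V R 4).card

theorem split_case {n : ℕ} (ih : Below n) (hP : IsPoly V R) (hr : rk R V = 5)
    (hn : V.card + (faces V R 4).card ≤ n)
    (hpl : OnPlane V.card (faces V R 2).card (faces V R 3).card (faces V R 4).card)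
    (hne : ¬ NoEmpty V R) :
    Concl V.card (faces V R 2).card (faces V R 3).card (faces V R 4).card := by
  simp only [NoEmpty, not_forall] at hne
  obtain ⟨T, h1, h2, h3, h4⟩ := hne
  obtain ⟨η, hc⟩ := exists_cut hP hr h1 h2 h3 h4
  have P1 := hP.sub (side_subset η)
  have P2 := hP.sub (side_subset (-η))
  have r1 := hc.rk_side hP hr
  have r2 := hc.symm.rk_side hP hr
  have c1 := hc.card_faces hP hr (k := 1) (by omega)
  have c2 := hc.card_faces hP hr (k := 2) (by omega)
  have c3 := hc.card_faces hP hr (k := 3) (by omega)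
  have c4 := hc.card_faces hP hr (k := 4) (by omega)
  rw [P1.card_faces_one, P2.card_faces_one, hP.card_faces_one] at c1
  norm_num [Nat.choose] at c1 c2 c3 c4
  have f1 := (fatness P1 r1).1
  have f2 := (fatness P2 r2).1
  have g1 := two_le_facets P1 r1
  have g2 := two_le_facets P2 r2
  have v1 := rk_le_card (R := R) (side V η)
  have v2 := rk_le_card (R := R) (side V (-η))
  unfold OnPlane at hpl
  obtain ⟨i, j, a1, a2, a3, a4⟩ := ih ι _ R P1 r1 (by omega) (by unfold OnPlane; omega)
  obtain ⟨i', j', b1, b2, b3, b4⟩ := ih ι _ R P2 r2 (by omega) (by unfold OnPlane; omega)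
  exact ⟨i + i' + 1, j + j', by omega, by omega, by omega, by omega⟩

theorem below_all (n : ℕ) : Below n := by
  induction n with
  | zero => intro ι _ V R _ _ _ h; omega
  | succ n ih =>
    intro ι _ V R _ hP hr hn hpl
    by_cases hne : NoEmpty V R
    swap
    · exact split_case ih hP hr (by omega) hpl hne
    obtain ⟨R', _, hD⟩ := exists_dual (n := 4) hr
    have hr' := hD.rk_top hP
    have d2 := hD.card_faces hr (k := 2) (j := 3) rfl
    have d3 := hD.card_faces hr (k := 3) (j := 2) rfl
    have d4 := hD.card_faces hr (k := 4) (j := 1) rfl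
    rw [hP.card_faces_one] at d4
    have hpl' : OnPlane (faces V R 4).card (faces (faces V R 4) R' 2).card
        (faces (faces V R 4) R' 3).card (faces (faces V R 4) R' 4).card := by
      unfold OnPlane at *; omega
    by_cases hne' : NoEmpty (faces V R 4) R'
    swap
    · have := split_case ih hD.poly hr' (by omega) hpl' hne'
      rw [d2, d3, d4] at this
      exact this.symm
    obtain ⟨ht, hcb⟩ := (fatness hP hr).2 (le_of_eq hpl)
    obtain ⟨ht', hcb'⟩ := (fatness hD.poly hr').2 (le_of_eq hpl')
    by_cases hA : ∃ e ∈ faces V R 2, ((faces V R 4).filter (fun F => e ⊆ F)).card ≤ 3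
    · obtain ⟨e, he, h3⟩ := hA
      obtain ⟨e1, e2⟩ := mem_faces.1 he
      obtain ⟨u, v, huv, rfl⟩ := card_eq_two.1 (hP.card_of_rk_two e1.1 e2)
      have h1 := simple_all hP hr ht hcb hne (v := u) (w := v) (e1.1 (by simp))
        (mem_nbr.2 ⟨e1.1 (by simp), huv.symm, e1⟩) (by
          refine le_trans (le_of_eq ?_) h3
          unfold val
          congr 1
          exact filter_congr (fun F _ => by simp [insert_subset_iff]))
      have := simplicial_case hD.poly hr' hpl' hne' (fun Z hZ => by
        rw [hD.faces_eq (j := 1) rfl, hP.faces_one] at hZ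
        obtain ⟨_, h3, rfl⟩ := mem_image.1 hZ
        obtain ⟨w, hw, rfl⟩ := mem_image.1 h3
        refine Eq.trans ?_ (h1 w hw).2
        rw [dl]
        congr 1
        exact filter_congr (fun F _ => singleton_subset_iff))
      rw [d2, d3, d4] at this
      exact this.symm
    by_cases hB : ∃ σ ∈ faces V R 3, σ.card ≤ 3
    · obtain ⟨σ, hσ, h3⟩ := hB
      obtain ⟨s1, s2⟩ := mem_faces.1 hσ
      have e1 := hD.face σ s1
      have e2 := hD.rank σ s1
      obtain ⟨F, G, hFG, he⟩ := card_eq_two.1 (hD.poly.card_of_rk_two e1.1 (by omega))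
      have k1 := hD.card_facets hP hr s1
      rw [he] at e1 k1
      have h1 := simple_all hD.poly hr' ht' hcb' hne' (v := F) (w := G) (e1.1 (by simp))
        (mem_nbr.2 ⟨e1.1 (by simp), hFG.symm, e1⟩) (by
          refine le_trans (le_of_eq ?_) (k1.le.trans h3)
          unfold val
          congr 1
          exact filter_congr (fun F _ => by simp [insert_subset_iff]))
      refine simplicial_case hP hr hpl hne (fun F hF => ?_)
      refine Eq.trans ?_ (h1 F hF).2
      rw [← hD.card_facets hP hr (mem_faces.1 hF).1, dl_facet hF]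
      congr 1
      exact filter_congr (fun F _ => singleton_subset_iff)
    exfalso
    push Not at hA hB
    have k1 : 4 * (faces V R 3).card ≤ ∑ σ ∈ faces V R 3, σ.card := by
      have := card_nsmul_le_sum (faces V R 3) (fun σ => σ.card) 4 (fun σ hσ => hB σ hσ)
      simpa [mul_comm] using this
    have k2 : 4 * (faces V R 2).card ≤
        ∑ e ∈ faces V R 2, ((faces V R 4).filter (fun F => e ⊆ F)).card := by
      have := card_nsmul_le_sum (faces V R 2)
        (fun e => ((faces V R 4).filter (fun F => e ⊆ F)).card) 4 (fun e he => hA e he)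
      simpa [mul_comm] using this
    have k3 : 2 * ∑ e ∈ faces V R 2, ((faces V R 4).filter (fun F => e ⊆ F)).card =
        ∑ F ∈ faces V R 4, ∑ v ∈ F, (nbr F R v).card := by
      have := sum_card_bipartiteAbove_eq_sum_card_bipartiteBelow (s := faces V R 2)
        (t := faces V R 4) (fun e F => e ⊆ F)
      simp only [bipartiteAbove, bipartiteBelow] at this
      rw [this, mul_sum]
      refine sum_congr rfl (fun F hF => ?_)
      rw [(hP.sub (mem_faces.1 hF).1.1).sum_card_nbr, faces_sub (mem_faces.1 hF).1]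
    have k4 := flag_deg hP hr
    have k5 := euler4 hP hr
    unfold Tight at ht
    unfold OnPlane at hpl
    omega

theorem classify (hP : IsPoly V R) (hr : rk R V = 5)
    (hpl : OnPlane V.card (faces V R 2).card (faces V R 3).card (faces V R 4).card) :
    Concl V.card (faces V R 2).card (faces V R 3).card (faces V R 4).card :=
  below_all _ ι V R hP hr (Nat.lt_succ_self _) hpl

end Pool.Agent.P.MP_af6acb_co
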