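import Pool.Agent.P.MP_af6acb_co.Rigid

/-!
Dimension counts for frameworks in rank five: the lower bound inequality, independence in the
equality case, and its local consequences.
-/

namespace Pool.Agent.P.MP_af6acb_co

open Finset Module

set_option linter.unusedSectionVars false
set_option linter.unusedVariables false

variable {ι : Type} [DecidableEq ι] {R : Submodule ℝ (ι → ℝ)} {V X Y Z : Finset ι}

/-- The strain of a field on a set of at most two vertices. -/
def str (b : ι → ι → ℝ) (r : Finset ι) : ℝ := ∑ u ∈ r, ∑ w ∈ r, b u w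

lemma str_single (b : ι → ι → ℝ) (u : ι) : str b {u} = b u u := by simp [str]

lemma str_pair (b : ι → ι → ℝ) {u w : ι} (h : u ≠ w) :
    str b {u, w} = b u u + b w w + (b u w + b w u) := by
  simp only [str, sum_pair h]; ring

lemma Anti.str_eq {b : ι → ι → ℝ} {r : Finset ι} (h : Anti b r) : str b r = 0 := by
  have h1 : str b r + str b r = 0 := by
    nth_rewrite 2 [str]
    rw [sum_comm, str, ← sum_add_distrib]
    refine sum_eq_zero (fun u hu => ?_)
    rw [← sum_add_distrib]
    exact sum_eq_zero (fun w hw => h u hu w hw)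
  linarith

lemma str_congr {b b' : ι → ι → ℝ} {r : Finset ι} (h : ∀ u ∈ r, ∀ w ∈ r, b u w = b' u w) :
    str b r = str b' r :=
  sum_congr rfl (fun u hu => sum_congr rfl (fun w hw => h u hu w hw))

/-- The field with coordinates `m`. -/
noncomputable def fld (U : Finset ι) (e : Fin 5 → ι → ℝ) :
    (U × Fin 5 → ℝ) →ₗ[ℝ] (ι → ι → ℝ) where
  toFun m u := if h : u ∈ U then ∑ j, m (⟨u, h⟩, j) • e j else 0
  map_add' m m' := by
    funext u
    by_cases h : u ∈ U <;> simp [h, add_smul, sum_add_distrib]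
  map_smul' c m := by
    funext u
    by_cases h : u ∈ U <;> simp [h, smul_sum, mul_smul]

/-- The strain map. -/
def strMap (Rows : Finset (Finset ι)) : (ι → ι → ℝ) →ₗ[ℝ] (Rows → ℝ) where
  toFun b r := str b r
  map_add' b b' := by funext r; simp [str, sum_add_distrib]
  map_smul' c b := by funext r; simp [str, mul_sum]

/-- The trivial fields. -/
def triv (U : Finset ι) (e : Fin 5 → ι → ℝ) : Submodule ℝ (U × Fin 5 → ℝ) where
  carrier := {m | Anti (fld U e m) U}
  add_mem' := by
    intro a b ha hb u hu w hw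
    have := ha u hu w hw; have := hb u hu w hw
    simp only [map_add, Pi.add_apply]; linarith
  zero_mem' := by intro u hu w hw; simp
  smul_mem' := by
    intro c a ha u hu w hw
    have := ha u hu w hw
    simp only [map_smul, Pi.smul_apply, smul_eq_mul]
    rw [← mul_add, this, mul_zero]

variable [FiniteDimensional ℝ R]

lemma exists_frame {U : Finset ι} (hU : U ⊆ V) (hr : rk R V = 5) (hrU : rk R U = 5) :
    ∃ (β : Fin 5 → ι) (e : Fin 5 → ι → ℝ), (∀ j, β j ∈ U) ∧ (∀ j, e j ∈ R) ∧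
      (∀ i j, e i (β j) = if j = i then 1 else 0) ∧
      ∀ φ ∈ R, ∀ w ∈ V, φ w = ∑ j, φ (β j) * e j w := by
  obtain ⟨B, hBU, hB, hs, hc⟩ := exists_basis (R := R) U
  obtain ⟨e, he, hd⟩ := hB.exists_dual
  let q : Fin 5 ≃ B := (B.equivFinOfCardEq (hc.trans hrU)).symm
  have hs' : Spans R B V := fun φ hφ h => spans_of_rk_le hU (by omega) φ hφ (hs φ hφ h)
  refine ⟨fun j => q j, fun j => e (q j), fun j => hBU (q j).2, fun j => he _, fun i j => ?_,
    fun φ hφ w hw => ?_⟩
  · beta_reduce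
    rw [hd _ (q i).2 _ (q j).2]
    simp
  · rw [expand he hd hs' hφ hw, ← sum_coe_sort B, ← q.sum_comp]

lemma finrank_triv {U : Finset ι} (hU : U ⊆ V) {β : Fin 5 → ι} {e : Fin 5 → ι → ℝ}
    (hβ : ∀ j, β j ∈ U) (he : ∀ j, e j ∈ R) (hd : ∀ i j, e i (β j) = if j = i then 1 else 0)
    (hx : ∀ φ ∈ R, ∀ w ∈ V, φ w = ∑ j, φ (β j) * e j w) : finrank ℝ (triv U e) = 10 := by
  let P := {p : Fin 5 × Fin 5 // p.1 < p.2}
  have hfm : ∀ m u, fld U e m u ∈ R := fun m u => by
    by_cases h : u ∈ U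
    · simp only [fld, LinearMap.coe_mk, AddHom.coe_mk, h, dif_pos]
      exact R.sum_mem fun j _ => R.smul_mem _ (he j)
    · simp [fld, h]
  have hfv : ∀ m (u : U) j, fld U e m u (β j) = m (u, j) := fun m u j => by
    simp [fld, u.2, hd]
  let L : triv U e →ₗ[ℝ] (P → ℝ) :=
    { toFun := fun m p => fld U e m.1 (β p.1.1) (β p.1.2)
      map_add' := fun a b => by funext p; simp
      map_smul' := fun c a => by funext p; simp }
  have hinj : Function.Injective L := by
    rw [injective_iff_map_eq_zero]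
    intro m hm
    have h1 : ∀ i j, fld U e m.1 (β i) (β j) = 0 := by
      intro i j
      have ha := m.2 (β i) (hβ i) (β j) (hβ j)
      rcases lt_trichotomy i j with h | h | h
      · exact congrFun hm ⟨(i, j), h⟩
      · subst h; linarith
      · have : fld U e m.1 (β j) (β i) = 0 := congrFun hm ⟨(j, i), h⟩
        linarith
    apply Subtype.ext
    funext ⟨u, j⟩
    have h2 := hx _ (hfm m.1 (β j)) u (hU u.2)
    simp only [h1, zero_mul, sum_const_zero] at h2
    have h3 := m.2 u u.2 (β j) (hβ j)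
    rw [hfv, h2] at h3
    simpa using h3
  have hsurj : Function.Surjective L := by
    intro α
    let S : ι → ι → ℝ := fun u w => ∑ p : P, α p * (e p.1.1 u * e p.1.2 w - e p.1.2 u * e p.1.1 w)
    have hS : ∀ u, S u ∈ R := fun u => by
      have : S u = ∑ p : P, α p • (e p.1.1 u • e p.1.2 - e p.1.2 u • e p.1.1) := by
        funext w; simp [S]
      rw [this]
      exact R.sum_mem fun p _ => R.smul_mem _ (R.sub_mem (R.smul_mem _ (he _)) (R.smul_mem _ (he _)))
    have hf : ∀ u ∈ U, ∀ w ∈ V, fld U e (fun q => S q.1 (β q.2)) u w = S u w := by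
      intro u hu w hw
      rw [hx _ (hS u) w hw]
      simp [fld, hu]
    refine ⟨⟨fun q => S q.1 (β q.2), fun u hu w hw => ?_⟩, ?_⟩
    · rw [hf u hu w (hU hw), hf w hw u (hU hu)]
      simp only [S, ← sum_add_distrib]
      exact sum_eq_zero (fun p _ => by ring)
    · funext p
      change fld U e (fun q => S q.1 (β q.2)) (β p.1.1) (β p.1.2) = α p
      rw [hf _ (hβ _) _ (hU (hβ _))]
      simp only [S, hd]
      rw [sum_eq_single p]
      · have := p.2
        simp [this.ne, this.ne']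
      · intro q _ hq
        have h1 := p.2
        have h2 := q.2
        have h3 : ¬ (p.1.1 = q.1.1 ∧ p.1.2 = q.1.2) := fun h => hq (Subtype.ext (Prod.ext h.1 h.2)).symm
        have h4 : ¬ (p.1.1 = q.1.2 ∧ p.1.2 = q.1.1) := fun h => by
          rw [h.1, h.2] at h1; exact absurd h1 h2.not_gt
        have h5 : (if p.1.1 = q.1.1 then (1 : ℝ) else 0) * (if p.1.2 = q.1.2 then 1 else 0) = 0 := by
          split_ifs with a1 a2
          · exact absurd ⟨a1, a2⟩ h3
          all_goals simp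
        have h6 : (if p.1.1 = q.1.2 then (1 : ℝ) else 0) * (if p.1.2 = q.1.1 then 1 else 0) = 0 := by
          split_ifs with a1 a2
          · exact absurd ⟨a1, a2⟩ h4
          all_goals simp
        rw [h5, h6]; simp
      · simp
  rw [(LinearEquiv.ofBijective L ⟨hinj, hsurj⟩).finrank_eq]
  simp only [finrank_fintype_fun_eq_card]
  decide

lemma fld_mem {U : Finset ι} {e : Fin 5 → ι → ℝ} (he : ∀ j, e j ∈ R) (m : U × Fin 5 → ℝ) (u : ι) :
    fld U e m u ∈ R := by
  by_cases h : u ∈ U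
  · simp only [fld, LinearMap.coe_mk, AddHom.coe_mk, h, dif_pos]
    exact R.sum_mem fun j _ => R.smul_mem _ (he j)
  · simp [fld, h]

/-- A rigid family of rows has at least `5 |V| - 10` members, and is independent when equality
holds. -/
lemma count_rigid (hr : rk R V = 5) (Rows : Finset (Finset ι))
    (hrig : ∀ b : ι → ι → ℝ, (∀ u, b u ∈ R) → (∀ r ∈ Rows, str b r = 0) → Anti b V) :
    5 * V.card ≤ Rows.card + 10 ∧ (Rows.card + 10 ≤ 5 * V.card → ∀ τ : Finset ι → ℝ,
      ∃ b : ι → ι → ℝ, (∀ u, b u ∈ R) ∧ ∀ r ∈ Rows, str b r = τ r) := by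
  obtain ⟨β, e, hβ, he, hd, hx⟩ := exists_frame subset_rfl hr hr
  let L := (strMap Rows).comp (fld V e)
  have h1 := LinearMap.finrank_range_add_finrank_ker L
  have h2 : LinearMap.ker L ≤ triv V e := fun m hm =>
    hrig _ (fld_mem he m) (fun r hr => congrFun (LinearMap.mem_ker.1 hm) ⟨r, hr⟩)
  have h3 := Submodule.finrank_mono h2
  rw [finrank_triv subset_rfl hβ he hd hx] at h3
  have h4 := Submodule.finrank_le (LinearMap.range L)
  simp only [finrank_fintype_fun_eq_card, Fintype.card_prod, Fintype.card_coe,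
    Fintype.card_fin] at h1 h4
  refine ⟨by omega, fun h τ => ?_⟩
  have h5 : LinearMap.range L = ⊤ := by
    apply Submodule.eq_top_of_finrank_eq
    simp only [finrank_fintype_fun_eq_card, Fintype.card_coe]
    omega
  obtain ⟨m, hm⟩ := LinearMap.range_eq_top.1 h5 (fun r => τ r)
  exact ⟨fld V e m, fld_mem he m, fun r hr => congrFun hm ⟨r, hr⟩⟩

/-- An independent family of rows inside a spanning set `U` has at most `5 |U| - 10` members. -/
lemma count_sparse {U : Finset ι} (hrU : rk R U = 5)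
    (Rows : Finset (Finset ι)) (hsub : ∀ r ∈ Rows, r ⊆ U)
    (hind : ∀ τ : Finset ι → ℝ, ∃ b : ι → ι → ℝ, (∀ u, b u ∈ R) ∧ ∀ r ∈ Rows, str b r = τ r) :
    Rows.card + 10 ≤ 5 * U.card := by
  obtain ⟨β, e, hβ, he, hd, hx⟩ := exists_frame subset_rfl hrU hrU
  let L := (strMap Rows).comp (fld U e)
  have h1 := LinearMap.finrank_range_add_finrank_ker L
  have h2 : triv U e ≤ LinearMap.ker L := fun m hm => by
    rw [LinearMap.mem_ker]
    funext r
    exact (Anti.mono hm (hsub r r.2)).str_eq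
  have h3 := Submodule.finrank_mono h2
  rw [finrank_triv subset_rfl hβ he hd hx] at h3
  have h5 : LinearMap.range L = ⊤ := by
    rw [LinearMap.range_eq_top]
    intro τ
    obtain ⟨b, hb, hbτ⟩ := hind (fun r => if h : r ∈ Rows then τ ⟨r, h⟩ else 0)
    refine ⟨fun q => b q.1 (β q.2), ?_⟩
    funext r
    have := hbτ r r.2
    rw [dif_pos r.2] at this
    rw [← this]
    refine str_congr (fun u hu w hw => ?_)
    rw [hx _ (hb u) w (hsub r r.2 hw)]
    simp [fld, hsub r r.2 hu]
  rw [h5] at h1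
  simp only [finrank_top, finrank_fintype_fun_eq_card, Fintype.card_prod, Fintype.card_coe,
    Fintype.card_fin] at h1
  omega

/-- The rows: vertices, edges, and the diagonals of each 2-face from its apex `c σ`. -/
noncomputable def rows (V : Finset ι) (R : Submodule ℝ (ι → ℝ)) (c : Finset ι → ι) :
    Finset (Finset ι) :=
  faces V R 1 ∪ faces V R 2 ∪ (faces V R 3).biUnion
    (fun σ => (σ \ insert (c σ) (nbr V R (c σ))).image (fun x => {c σ, x}))

lemma card_rows (hP : IsPoly V R) {c : Finset ι → ι} (hc : ∀ σ ∈ faces V R 3, c σ ∈ σ) :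
    (rows V R c).card + 3 * (faces V R 3).card ≤
      V.card + (faces V R 2).card + ∑ σ ∈ faces V R 3, σ.card := by
  have h1 : ((faces V R 3).biUnion (fun σ => (σ \ insert (c σ) (nbr V R (c σ))).image
      (fun x => ({c σ, x} : Finset ι)))).card + 3 * (faces V R 3).card ≤
      ∑ σ ∈ faces V R 3, σ.card := by
    have h2 : ∀ σ ∈ faces V R 3, ((σ \ insert (c σ) (nbr V R (c σ))).image
        (fun x => ({c σ, x} : Finset ι))).card + 3 ≤ σ.card := by
      intro σ hσ
      obtain ⟨k1, k2⟩ := mem_faces.1 hσ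
      have k3 := (hP.sub k1.1).card_nbr_polygon k2 (hc σ hσ)
      have k4 : insert (c σ) (nbr σ R (c σ)) ⊆ σ := insert_subset (hc σ hσ) (nbr_subset _)
      have k5 := card_sdiff_add_card_eq_card k4
      rw [card_insert_of_notMem (fun h => (mem_nbr.1 h).2.1 rfl), k3] at k5
      have k6 : σ \ insert (c σ) (nbr V R (c σ)) ⊆ σ \ insert (c σ) (nbr σ R (c σ)) := by
        rw [nbr_face k1 (hc σ hσ)]
        exact sdiff_subset_sdiff subset_rfl (insert_subset_insert _ inter_subset_left)
      have k7 := card_le_card k6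
      have k8 := card_image_le (s := σ \ insert (c σ) (nbr V R (c σ)))
        (f := fun x => ({c σ, x} : Finset ι))
      omega
    have h3 := sum_le_sum h2
    rw [sum_add_distrib] at h3
    have h4 := card_biUnion_le (s := faces V R 3) (t := fun σ =>
      (σ \ insert (c σ) (nbr V R (c σ))).image (fun x => ({c σ, x} : Finset ι)))
    simp only [sum_const, smul_eq_mul] at h3
    omega
  have h5 := card_union_le (faces V R 1) (faces V R 2)
  have h6 := card_union_le (faces V R 1 ∪ faces V R 2) ((faces V R 3).biUnion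
    (fun σ => (σ \ insert (c σ) (nbr V R (c σ))).image (fun x => ({c σ, x} : Finset ι))))
  rw [hP.card_faces_one] at h5
  unfold rows
  omega

/-- A 2-face whose rows have no strain is rigid. -/
lemma anti_of_rows (hP : IsPoly V R) {c : Finset ι → ι} {σ : Finset ι} (hσ : σ ∈ faces V R 3)
    (hc : c σ ∈ σ) {b : ι → ι → ℝ} (hb : ∀ u, b u ∈ R)
    (hz : ∀ r ∈ rows V R c, r ⊆ σ → str b r = 0) : Anti b σ := by
  obtain ⟨k1, k2⟩ := mem_faces.1 hσ
  have h0 : ∀ u ∈ σ, b u u = 0 := fun u hu => by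
    rw [← str_single b u]
    refine hz _ (mem_union_left _ (mem_union_left _ ?_)) (singleton_subset_iff.2 hu)
    exact mem_faces.2 ⟨hP.single u (k1.1 hu), hP.rk_single (k1.1 hu)⟩
  have h2 : ∀ u ∈ σ, ∀ w ∈ nbr V R u, w ∈ σ → b u w + b w u = 0 := fun u hu w hw hw' => by
    have := hz _ (mem_union_left _ (mem_union_right _ (hP.edge_mem (k1.1 hu) hw)))
      (insert_subset hu (singleton_subset_iff.2 hw'))
    rw [str_pair b (mem_nbr.1 hw).2.1.symm, h0 u hu, h0 w hw'] at this
    linarith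
  refine (hP.sub k1.1).rigid_fan k2 (fun u _ => hb u) hc h0 (fun u hu => ?_) (fun u hu w hw => ?_)
  · by_cases h : u ∈ insert (c σ) (nbr V R (c σ))
    · rcases mem_insert.1 h with rfl | h
      · rw [h0 _ hu]; simp
      · exact h2 _ hc u h hu
    · have := hz {c σ, u} (mem_union_right _ (mem_biUnion.2 ⟨σ, hσ, mem_image.2
        ⟨u, mem_sdiff.2 ⟨hu, h⟩, rfl⟩⟩)) (insert_subset hc (singleton_subset_iff.2 hu))
      have hne : c σ ≠ u := fun he => h (by rw [← he]; exact mem_insert_self _ _)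
      rw [str_pair b hne, h0 u hu, h0 _ hc] at this
      linarith
  · rw [nbr_face k1 hu] at hw
    exact h2 u hu w (mem_inter.1 hw).1 (mem_inter.1 hw).2

lemma exists_apex (hP : IsPoly V R) (hr : rk R V = 5) :
    ∃ c : Finset ι → ι, ∀ σ ∈ faces V R 3, c σ ∈ σ := by
  have hV : V.Nonempty := by
    rw [← card_pos]; have := rk_le_card (R := R) V; omega
  have : ∀ σ : Finset ι, ∃ x, σ ∈ faces V R 3 → x ∈ σ := by
    intro σ
    by_cases h : σ ∈ faces V R 3
    · have : σ.Nonempty := by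
        rw [← card_pos]; have := rk_le_card (R := R) σ; have := (mem_faces.1 h).2; omega
      exact ⟨this.choose, fun _ => this.choose_spec⟩
    · exact ⟨hV.choose, fun h' => absurd h' h⟩
  choose c hc using this
  exact ⟨c, hc⟩

lemma rows_rigid (hP : IsPoly V R) (hr : rk R V = 5) {c : Finset ι → ι}
    (hc : ∀ σ ∈ faces V R 3, c σ ∈ σ) (b : ι → ι → ℝ) (hb : ∀ u, b u ∈ R)
    (hz : ∀ r ∈ rows V R c, str b r = 0) : Anti b V :=
  hP.rigid4 hr (fun u _ => hb u)
    (fun σ hσ => anti_of_rows hP hσ (hc σ hσ) hb (fun r hr _ => hz r hr))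

/-- The lower bound inequality `g_2 ≥ 0`. -/
theorem IsPoly.lower_bound (hP : IsPoly V R) (hr : rk R V = 5) :
    4 * V.card + 3 * (faces V R 3).card ≤
      (faces V R 2).card + ∑ σ ∈ faces V R 3, σ.card + 10 := by
  obtain ⟨c, hc⟩ := exists_apex hP hr
  have h1 := (count_rigid hr _ (rows_rigid hP hr hc)).1
  have h2 := card_rows hP hc
  omega

/-- The equality case `g_2 = 0`. -/
def Tight (V : Finset ι) (R : Submodule ℝ (ι → ℝ)) : Prop :=
  (faces V R 2).card + ∑ σ ∈ faces V R 3, σ.card + 10 ≤ 4 * V.card + 3 * (faces V R 3).card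

lemma rows_indep (hP : IsPoly V R) (hr : rk R V = 5) (ht : Tight V R) {c : Finset ι → ι}
    (hc : ∀ σ ∈ faces V R 3, c σ ∈ σ) (τ : Finset ι → ℝ) :
    ∃ b : ι → ι → ℝ, (∀ u, b u ∈ R) ∧ ∀ r ∈ rows V R c, str b r = τ r := by
  have h2 := card_rows hP hc
  unfold Tight at ht
  exact (count_rigid hr _ (rows_rigid hP hr hc)).2 (by omega) τ

/-- A row joining two vertices near `v` lies in a 2-face of a facet through `v`. -/
lemma row_local (hP : IsPoly V R) (hr : rk R V = 5) (ht : Tight V R) {c : Finset ι → ι}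
    (hc : ∀ σ ∈ faces V R 3, c σ ∈ σ) {v u w : ι} (hv : v ∈ V) (hu : u ∈ cof V R v)
    (hw : w ∈ cof V R v) (hrow : {u, w} ∈ rows V R c) :
    ∃ F ∈ faces V R 4, v ∈ F ∧ ∃ σ ∈ faces V R 3, σ ⊆ F ∧ u ∈ σ ∧ w ∈ σ := by
  by_contra hcon
  push Not at hcon
  obtain ⟨b, hb, hbτ⟩ := rows_indep hP hr ht hc (fun r => if r = {u, w} then 1 else 0)
  have h1 := hP.rigid_local hr (fun u _ => hb u) hv (fun F hF hvF σ hσ hσF =>
    anti_of_rows hP hσ (hc σ hσ) hb (fun r hr hrσ => by
      rw [hbτ r hr, if_neg]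
      rintro rfl
      exact hcon F hF hvF σ hσ hσF (hrσ (by simp)) (hrσ (by simp))))
  have h2 := (h1.mono (insert_subset hu (singleton_subset_iff.2 hw))).str_eq
  rw [hbτ _ hrow, if_pos rfl] at h2
  exact one_ne_zero h2

theorem IsPoly.edge_local (hP : IsPoly V R) (hr : rk R V = 5) (ht : Tight V R) {v u w : ι}
    (hv : v ∈ V) (hu : u ∈ cof V R v) (hw : w ∈ cof V R v) (he : w ∈ nbr V R u) :
    ∃ F ∈ faces V R 4, v ∈ F ∧ u ∈ F ∧ w ∈ F := by
  obtain ⟨c, hc⟩ := exists_apex hP hr
  obtain ⟨F, hF, hvF, σ, _, h1, h2, h3⟩ := row_local hP hr ht hc hv hu hw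
    (mem_union_left _ (mem_union_right _ (hP.edge_mem (cof_subset v hu) he)))
  exact ⟨F, hF, hvF, h1 h2, h1 h3⟩

theorem IsPoly.diag_local (hP : IsPoly V R) (hr : rk R V = 5) (ht : Tight V R) {v u w : ι}
    (hv : v ∈ V) (hu : u ∈ cof V R v) (hw : w ∈ cof V R v) (hne : w ≠ u) (he : w ∉ nbr V R u)
    {τ : Finset ι} (hτ : τ ∈ faces V R 3) (huτ : u ∈ τ) (hwτ : w ∈ τ) :
    ∃ F ∈ faces V R 4, v ∈ F ∧ τ ⊆ F := by
  obtain ⟨c, hc⟩ := exists_apex hP hr
  obtain ⟨F, hF, hvF, σ, hσ, h1, h2, h3⟩ := row_local hP hr ht (c := Function.update c τ u)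
    (fun σ hσ => by
      by_cases h : σ = τ
      · subst h; simpa using huτ
      · rw [Function.update_of_ne h]; exact hc σ hσ) hv hu hw
    (mem_union_right _ (mem_biUnion.2 ⟨τ, hτ, mem_image.2 ⟨w, by
      simp only [Function.update_self]
      exact mem_sdiff.2 ⟨hwτ, by simp [hne, he]⟩, by simp⟩⟩))
  refine ⟨F, hF, hvF, ?_⟩
  by_cases h : σ = τ
  · exact h ▸ h1
  · exfalso
    obtain ⟨k1, k2⟩ := mem_faces.1 hσ
    obtain ⟨k3, k4⟩ := mem_faces.1 hτ
    have k5 := k1.rk_inter_lt k3 (by omega) h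
    have k6 := hP.eq_pair (inter_subset_left.trans k1.1) (by omega) (mem_inter.2 ⟨h2, huτ⟩)
      (mem_inter.2 ⟨h3, hwτ⟩) hne
    exact he (mem_nbr.2 ⟨k3.1 hwτ, hne, k6 ▸ k1.inter k3⟩)

theorem IsPoly.sparse (hP : IsPoly V R) (hr : rk R V = 5) (ht : Tight V R) {U : Finset ι}
    (hU : U ⊆ V) (hrU : rk R U = 5) :
    ((faces V R 2).filter (fun e => e ⊆ U)).card + 10 ≤ 4 * U.card := by
  obtain ⟨c, hc⟩ := exists_apex hP hr
  have h1 := count_sparse hrU (U.image (fun v => {v}) ∪ (faces V R 2).filter (fun e => e ⊆ U))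
    (fun r hr => by
      rcases mem_union.1 hr with h | h
      · obtain ⟨v, hv, rfl⟩ := mem_image.1 h
        exact singleton_subset_iff.2 hv
      · exact (mem_filter.1 h).2)
    (fun τ => by
      obtain ⟨b, hb, hbτ⟩ := rows_indep hP hr ht hc τ
      refine ⟨b, hb, fun r hr => hbτ r (mem_union_left _ ?_)⟩
      rcases mem_union.1 hr with h | h
      · obtain ⟨v, hv, rfl⟩ := mem_image.1 h
        exact mem_union_left _ (mem_faces.2 ⟨hP.single v (hU hv), hP.rk_single (hU hv)⟩)
      · exact mem_union_right _ (mem_filter.1 h).1)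
  rw [card_union_of_disjoint, card_image_of_injective _ singleton_injective] at h1
  · omega
  · rw [disjoint_left]
    intro r h1 h2
    obtain ⟨v, hv, rfl⟩ := mem_image.1 h1
    have := (mem_faces.1 (mem_filter.1 h2).1).2
    rw [hP.rk_single (hU hv)] at this
    omega

end Pool.Agent.P.MP_af6acb_co
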