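import Mathlib

/-!
Definitions used in the statements about f-vectors of 4-polytopes.
-/

namespace Pool.Agent.P.MP_af6acb_co

/-- A 4-polytope: the convex hull of finitely many points of Euclidean 4-space, with nonempty
interior. -/
def IsPolytope4 (P : Set (EuclideanSpace ℝ (Fin 4))) : Prop :=
  ∃ s : Finset (EuclideanSpace ℝ (Fin 4)),
    P = convexHull ℝ (s : Set (EuclideanSpace ℝ (Fin 4))) ∧ (interior P).Nonempty

/-- The number of `k`-dimensional faces of `P`: nonempty exposed subsets of `P` (sets of
maximisers in `P` of a linear functional) whose affine span has dimension `k`. -/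
noncomputable def numFaces (P : Set (EuclideanSpace ℝ (Fin 4))) (k : ℕ) : ℕ :=
  Set.ncard {F : Set (EuclideanSpace ℝ (Fin 4)) |
    F.Nonempty ∧ IsExposed ℝ P F ∧ Module.finrank ℝ (vectorSpan ℝ F) = k}

/-- The set of f-vectors `(f_0, f_1, f_2, f_3)` of 4-polytopes, inside the integer lattice. -/
def fVectors : Set (Fin 4 → ℤ) :=
  {f | ∃ P, IsPolytope4 P ∧ ∀ k : Fin 4, f k = (numFaces P k : ℤ)}

/-- A semialgebraic subset of real 4-space: a finite union of sets, each given by finitely many
polynomial equations `p = 0` and strict polynomial inequalities `q > 0` with real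
coefficients. -/
def IsSemialgebraic (S : Set (Fin 4 → ℝ)) : Prop :=
  ∃ T : Finset (Finset (MvPolynomial (Fin 4) ℝ) × Finset (MvPolynomial (Fin 4) ℝ)),
    S = {x | ∃ t ∈ T, (∀ p ∈ t.1, MvPolynomial.eval x p = 0) ∧
      ∀ q ∈ t.2, 0 < MvPolynomial.eval x q}

end Pool.Agent.P.MP_af6acb_co
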