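import Pool.Agent.P.MP_af6acb_co.Poly

/-!
Counting lemmas and Euler's formula in rank four, with the sign count behind rigidity.
-/

namespace Pool.Agent.P.MP_af6acb_co

open Finset Module

set_option linter.unusedSectionVars false
set_option linter.unusedVariables false

variable {ι : Type} [DecidableEq ι] {R : Submodule ℝ (ι → ℝ)} {V X Y Z : Finset ι}
variable [FiniteDimensional ℝ R]

/-- In an interval of length three there are as many atoms as coatoms. -/
lemma atoms_eq_coatoms (hX : IsFace V R X) (hY : IsFace V R Y) (hXY : X ⊆ Y)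
    (hr : rk R Y = rk R X + 3) :
    ((faces V R (rk R X + 1)).filter (fun Z => X ⊆ Z ∧ Z ⊆ Y)).card =
      ((faces V R (rk R X + 2)).filter (fun Z => X ⊆ Z ∧ Z ⊆ Y)).card := by
  have := card_mul_eq_card_mul (s := (faces V R (rk R X + 1)).filter (fun Z => X ⊆ Z ∧ Z ⊆ Y))
    (t := (faces V R (rk R X + 2)).filter (fun Z => X ⊆ Z ∧ Z ⊆ Y)) (m := 2) (n := 2)
    (fun A B => A ⊆ B) (fun A hA => by
      obtain ⟨h1, h2, h3⟩ := mem_filter.1 hA
      obtain ⟨h4, h5⟩ := mem_faces.1 h1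
      have hd := diamond h4 hY h3 (by omega)
      rw [h5] at hd
      refine Eq.trans ?_ hd
      congr 1
      ext B
      simp only [bipartiteAbove, mem_filter]
      exact ⟨fun h => ⟨h.1.1, h.2, h.1.2.2⟩, fun h => ⟨⟨h.1, h2.trans h.2.1, h.2.2⟩, h.2.1⟩⟩)
    (fun B hB => by
      obtain ⟨h1, h2, h3⟩ := mem_filter.1 hB
      obtain ⟨h4, h5⟩ := mem_faces.1 h1
      refine Eq.trans ?_ (diamond hX h4 h2 h5)
      congr 1
      ext A
      simp only [bipartiteBelow, mem_filter]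
      exact ⟨fun h => ⟨h.1.1, h.1.2.1, h.2⟩, fun h => ⟨⟨h.1, h.2.1, h.2.2.trans h3⟩, h.2.2⟩⟩)
  omega

lemma IsPoly.card_edges_polygon (hP : IsPoly V R) (hr : rk R V = 3) :
    (faces V R 2).card = V.card := by
  have := atoms_eq_coatoms hP.empty (isFace_self V R) (empty_subset _) (by rw [rk_empty, hr])
  rw [rk_empty, filter_true_of_mem (fun Z hZ => ⟨empty_subset _, (mem_faces.1 hZ).1.1⟩),
    filter_true_of_mem (fun Z hZ => ⟨empty_subset _, (mem_faces.1 hZ).1.1⟩)] at this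
  rw [← hP.card_faces_one]; exact this.symm

lemma IsPoly.card_nbr_polygon (hP : IsPoly V R) (hr : rk R V = 3) {v : ι} (hv : v ∈ V) :
    (nbr V R v).card = 2 := by
  have := hP.fig_rk_top hv
  exact (hP.fig hv).card_of_rk_two subset_rfl (by omega)

lemma IsPoly.card_nbr_eq (hP : IsPoly V R) {v : ι} (hv : v ∈ V) :
    (nbr V R v).card = ((faces V R 2).filter (fun X => v ∈ X)).card := by
  rw [← hP.fig_card hv 1, (hP.fig hv).card_faces_one]

lemma IsPoly.card_nbr_rk_four (hP : IsPoly V R) (hr : rk R V = 4) {v : ι} (hv : v ∈ V) :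
    (nbr V R v).card = ((faces V R 3).filter (fun X => v ∈ X)).card := by
  have := hP.fig_rk_top hv
  rw [← hP.fig_card hv 2, (hP.fig hv).card_edges_polygon (by omega)]

/-- Double counting of vertex-face incidences. -/
lemma sum_card_faces (V : Finset ι) (R : Submodule ℝ (ι → ℝ)) (k : ℕ) :
    ∑ X ∈ faces V R k, X.card = ∑ v ∈ V, ((faces V R k).filter (fun X => v ∈ X)).card := by
  have := sum_card_bipartiteAbove_eq_sum_card_bipartiteBelow (s := V) (t := faces V R k)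
    (fun v X => v ∈ X)
  simp only [bipartiteAbove, bipartiteBelow] at this
  rw [this]
  refine sum_congr rfl (fun X hX => ?_)
  rw [filter_mem_eq_inter, inter_eq_right.2 (mem_faces.1 hX).1.1]

lemma IsPoly.sum_card_nbr (hP : IsPoly V R) :
    ∑ v ∈ V, (nbr V R v).card = 2 * (faces V R 2).card := by
  rw [sum_congr rfl (fun v hv => hP.card_nbr_eq hv), ← sum_card_faces,
    sum_congr rfl (fun X hX => hP.card_of_rk_two (mem_faces.1 hX).1.1 (mem_faces.1 hX).2)]
  simp [mul_comm]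

lemma IsPoly.sum_card_rk_four (hP : IsPoly V R) (hr : rk R V = 4) :
    ∑ X ∈ faces V R 3, X.card = ∑ v ∈ V, (nbr V R v).card := by
  rw [sum_card_faces, sum_congr rfl (fun v hv => hP.card_nbr_rk_four hr hv)]

lemma card_facets_of_ridge (hX : IsFace V R X) (hr : rk R V = rk R X + 2) :
    ((faces V R (rk R X + 1)).filter (fun Z => X ⊆ Z)).card = 2 := by
  rw [← diamond hX (isFace_self V R) hX.1 hr]
  congr 1
  exact filter_congr (fun Z hZ => ⟨fun h => ⟨h, (mem_faces.1 hZ).1.1⟩, fun h => h.1⟩)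

/-- `v` is a middle vertex of `σ` for the field `b`. -/
def Mid (b : ι → ι → ℝ) (v : ι) (σ : Finset ι) : Prop :=
  v ∈ σ ∧ (∃ u ∈ σ, 0 < b v u) ∧ ∃ w ∈ σ, b v w < 0

open Classical in
lemma mid_vertex_le (hP : IsPoly V R) (hr : rk R V = 4) {b : ι → ι → ℝ} {v : ι} (hv : v ∈ V)
    (hb : b v ∈ R) (h0 : b v v = 0) : ((faces V R 3).filter (fun σ => Mid b v σ)).card ≤ 2 := by
  by_contra hcon
  push Not at hcon
  obtain ⟨s1, s2, s3, h1, h2, h3, n12, n13, n23⟩ := two_lt_card_iff.1 hcon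
  simp only [mem_filter, mem_faces] at h1 h2 h3
  obtain ⟨⟨f1, r1⟩, v1, ⟨u1, hu1, p1⟩, w1, hw1, q1⟩ := h1
  obtain ⟨⟨f2, r2⟩, v2, ⟨u2, hu2, p2⟩, w2, hw2, q2⟩ := h2
  obtain ⟨⟨f3, r3⟩, v3, ⟨u3, hu3, p3⟩, w3, hw3, q3⟩ := h3
  obtain ⟨a1, ha1, b1, c1⟩ := f1.exists_fun
  obtain ⟨a2, ha2, b2, c2⟩ := f2.exists_fun
  obtain ⟨a3, ha3, b3, c3⟩ := f3.exists_fun
  have pos : ∀ {A B : Finset ι} {a : ι → ℝ} {u w : ι}, IsFace V R A → IsFace V R B →
      rk R A = 3 → rk R B = 3 → A ≠ B → v ∈ A → v ∈ B → u ∈ A → w ∈ A → 0 < b v u →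
      b v w < 0 → (∀ x ∈ B, a x = 0) → (∀ x ∈ V, x ∉ B → 0 < a x) →
      0 < b v u * a w + (-b v w) * a u := by
    intro A B a u w hA hB rA rB hne hvA hvB hu hw p q z1 z2
    have nn : ∀ x ∈ V, 0 ≤ a x := fun x hx => by
      by_cases h : x ∈ B
      · exact (z1 x h).ge
      · exact (z2 x hx h).le
    have hq : 0 < -b v w := by linarith
    by_cases huB : u ∈ B
    · by_cases hwB : w ∈ B
      · exfalso
        have e1 := hA.rk_inter_lt hB (by omega) hne
        have huv : v ≠ u := by rintro rfl; linarith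
        have hwv : v ≠ w := by rintro rfl; linarith
        have huw : u ≠ w := by rintro rfl; linarith
        have e2 := hP.rk_triple hv (hA.1 hu) (hA.1 hw) huv hwv huw
        have e3 : rk R {v, u, w} ≤ rk R (A ∩ B) := rk_mono (by
          intro x hx; simp only [mem_insert, mem_singleton] at hx
          rcases hx with rfl | rfl | rfl <;> exact mem_inter.2 ⟨‹_›, ‹_›⟩)
        omega
      · have := z2 w (hA.1 hw) hwB
        have := nn u (hA.1 hu)
        positivity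
    · have := z2 u (hA.1 hu) huB
      have := nn w (hA.1 hw)
      positivity
  obtain ⟨α, hα, hrel⟩ := exists_rel (R := R) (d := 3) (X := {v}) (Y := V)
    (singleton_subset_iff.2 hv) (by rw [hP.rk_single hv]; omega) ![a1, a2, a3, b v] (by
      intro i; fin_cases i
      · exact ⟨ha1, by simpa using b1 v v1⟩
      · exact ⟨ha2, by simpa using b2 v v2⟩
      · exact ⟨ha3, by simpa using b3 v v3⟩
      · exact ⟨hb, by simpa using h0⟩)
  replace hrel : ∀ y ∈ V, α 0 * a1 y + α 1 * a2 y + α 2 * a3 y + α 3 * b v y = 0 :=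
    fun y hy => by
      have := hrel y hy
      simp only [Fin.sum_univ_succ] at this
      simp at this
      linarith
  have eu1 := hrel u1 (f1.1 hu1)
  have ew1 := hrel w1 (f1.1 hw1)
  have eu2 := hrel u2 (f2.1 hu2)
  have ew2 := hrel w2 (f2.1 hw2)
  have eu3 := hrel u3 (f3.1 hu3)
  have ew3 := hrel w3 (f3.1 hw3)
  rw [b1 _ hu1] at eu1
  rw [b1 _ hw1] at ew1
  rw [b2 _ hu2] at eu2
  rw [b2 _ hw2] at ew2
  rw [b3 _ hu3] at eu3
  rw [b3 _ hw3] at ew3
  obtain ⟨d0, d1, d2⟩ := no_rel3 (a := α 0) (b := α 1) (c := α 2)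
    (pos f2 f1 r2 r1 n12.symm v2 v1 hu2 hw2 p2 q2 b1 c1)
    (pos f3 f1 r3 r1 n13.symm v3 v1 hu3 hw3 p3 q3 b1 c1)
    (pos f1 f2 r1 r2 n12 v1 v2 hu1 hw1 p1 q1 b2 c2)
    (pos f3 f2 r3 r2 n23.symm v3 v2 hu3 hw3 p3 q3 b2 c2)
    (pos f1 f3 r1 r3 n13 v1 v3 hu1 hw1 p1 q1 b3 c3)
    (pos f2 f3 r2 r3 n23 v2 v3 hu2 hw2 p2 q2 b3 c3)
    (by linear_combination (b v u1) * ew1 - (b v w1) * eu1)
    (by linear_combination (b v u2) * ew2 - (b v w2) * eu2)
    (by linear_combination (b v u3) * ew3 - (b v w3) * eu3)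
  have d3 : α 3 = 0 := by
    rw [d1, d2] at eu1
    rcases mul_eq_zero.1 (by linarith : α 3 * b v u1 = 0) with h | h
    · exact h
    · exact absurd h p1.ne'
  apply hα
  funext i; fin_cases i
  · exact d0
  · exact d1
  · exact d2
  · exact d3

open Classical in
lemma mid_face_ge {b : ι → ι → ℝ} {σ : Finset ι} (ha : ∀ u ∈ σ, ∀ w ∈ σ, b u w + b w u = 0)
    (hne : ∀ u ∈ σ, ∀ w ∈ σ, u ≠ w → b u w ≠ 0) :
    σ.card ≤ (σ.filter (fun v => Mid b v σ)).card + 2 := by
  have h1 : (σ.filter (fun v => ∀ w ∈ σ, 0 ≤ b v w)).card ≤ 1 := by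
    refine card_le_one.2 (fun u hu w hw => ?_)
    obtain ⟨hu1, hu2⟩ := mem_filter.1 hu
    obtain ⟨hw1, hw2⟩ := mem_filter.1 hw
    by_contra h
    have := hu2 w hw1; have := hw2 u hu1; have := ha u hu1 w hw1
    exact hne u hu1 w hw1 h (by linarith)
  have h2 : (σ.filter (fun v => ∀ w ∈ σ, b v w ≤ 0)).card ≤ 1 := by
    refine card_le_one.2 (fun u hu w hw => ?_)
    obtain ⟨hu1, hu2⟩ := mem_filter.1 hu
    obtain ⟨hw1, hw2⟩ := mem_filter.1 hw
    by_contra h
    have := hu2 w hw1; have := hw2 u hu1; have := ha u hu1 w hw1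
    exact hne u hu1 w hw1 h (by linarith)
  have h3 : σ ⊆ σ.filter (fun v => Mid b v σ) ∪ (σ.filter (fun v => ∀ w ∈ σ, 0 ≤ b v w) ∪
      σ.filter (fun v => ∀ w ∈ σ, b v w ≤ 0)) := by
    intro v hv
    simp only [mem_union, mem_filter]
    by_contra hcon
    push Not at hcon
    obtain ⟨c1, c2, c3⟩ := hcon
    obtain ⟨w, hw, hw'⟩ := c2 hv
    obtain ⟨u, hu, hu'⟩ := c3 hv
    exact c1 hv ⟨hv, ⟨u, hu, hu'⟩, w, hw, hw'⟩
  have h4 := (card_le_card h3).trans (card_union_le _ _)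
  have h5 := card_union_le (σ.filter (fun v => ∀ w ∈ σ, 0 ≤ b v w))
    (σ.filter (fun v => ∀ w ∈ σ, b v w ≤ 0))
  omega

/-- A function with both signs and no zero on a polygon has at least two crossing edges. -/
lemma IsPoly.two_le_cross (hP : IsPoly V R) (hr : rk R V = 3) {φ : ι → ℝ} (hφ : φ ∈ R)
    (hne : ∀ v ∈ V, φ v ≠ 0) {u w : ι} (hu : u ∈ V) (hw : w ∈ V) (hu' : 0 < φ u)
    (hw' : φ w < 0) :
    2 ≤ ((faces V R 2).filter (fun e => (∃ x ∈ e, 0 < φ x) ∧ ∃ y ∈ e, φ y < 0)).card := by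
  classical
  set C := (faces V R 2).filter (fun e => (∃ x ∈ e, 0 < φ x) ∧ ∃ y ∈ e, φ y < 0) with hC
  have hne' : C.Nonempty := by
    by_contra hcon
    have := hP.conn (T := V.filter (fun v => φ v < 0)) (filter_subset _ _)
      ⟨w, mem_filter.2 ⟨hw, hw'⟩⟩ (fun x hx y hy => by
        obtain ⟨hx1, hx2⟩ := mem_filter.1 hx
        refine mem_filter.2 ⟨nbr_subset x hy, ?_⟩
        by_contra hy'
        apply hcon
        refine ⟨{x, y}, mem_filter.2 ⟨hP.edge_mem hx1 hy, ⟨y, by simp, ?_⟩, x, by simp, hx2⟩⟩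
        exact lt_of_le_of_ne (not_lt.1 hy') (hne y (nbr_subset x hy)).symm) u hu
    linarith [(mem_filter.1 this).2]
  have hpar : ∑ e ∈ faces V R 2, (e.filter (fun x => 0 < φ x)).card =
      2 * (V.filter (fun x => 0 < φ x)).card := by
    have := sum_card_bipartiteAbove_eq_sum_card_bipartiteBelow
      (s := V.filter (fun x => 0 < φ x)) (t := faces V R 2) (fun v X => v ∈ X)
    simp only [bipartiteAbove, bipartiteBelow] at this
    rw [sum_congr rfl (fun v hv => by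
      rw [← hP.card_nbr_eq (mem_filter.1 hv).1, hP.card_nbr_polygon hr (mem_filter.1 hv).1])]
      at this
    simp only [sum_const, smul_eq_mul] at this
    rw [mul_comm, this]
    refine sum_congr rfl (fun e he => ?_)
    congr 1
    ext x
    simp only [mem_filter]
    exact ⟨fun h => ⟨⟨(mem_faces.1 he).1.1 h.1, h.2⟩, h.1⟩, fun h => ⟨h.2, h.1.2⟩⟩
  have hmod : ∀ e ∈ faces V R 2, (e.filter (fun x => 0 < φ x)).card % 2 =
      if (∃ x ∈ e, 0 < φ x) ∧ ∃ y ∈ e, φ y < 0 then 1 else 0 := by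
    intro e he
    obtain ⟨he1, he2⟩ := mem_faces.1 he
    obtain ⟨x, y, hxy, rfl⟩ := card_eq_two.1 (hP.card_of_rk_two he1.1 he2)
    have hx := hne x (he1.1 (by simp))
    have hy := hne y (he1.1 (by simp))
    rw [filter_insert, filter_singleton]
    rcases lt_or_gt_of_ne hx with hx | hx <;> rcases lt_or_gt_of_ne hy with hy | hy
    · simp [hx.not_gt, hy.not_gt]
    · simp [hx.not_gt, hy, hx]
    · simp [hy.not_gt, hy, hx]
    · simp [hx.not_gt, hy.not_gt, hy, hx, card_pair hxy]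
  have h1 : (∑ e ∈ faces V R 2, (e.filter (fun x => 0 < φ x)).card) % 2 = C.card % 2 := by
    rw [Finset.sum_nat_mod, sum_congr rfl hmod, hC, card_filter]
  have h2 := card_pos.2 hne'
  omega

open Classical in
lemma mid_vertex_ge (hP : IsPoly V R) (hr : rk R V = 4) {b : ι → ι → ℝ} {v : ι} (hv : v ∈ V)
    (hb : b v ∈ R) (h0 : b v v = 0) (hne : ∀ w ∈ V, w ≠ v → b v w ≠ 0) {u w : ι} (hu : u ∈ V)
    (hw : w ∈ V) (hu' : 0 < b v u) (hw' : b v w < 0) :
    2 ≤ ((faces V R 3).filter (fun σ => Mid b v σ)).card := by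
  have hrk := hP.fig_rk_top hv
  obtain ⟨u1, hu1, hu1'⟩ : ∃ u1 ∈ nbr V R v, 0 < b v u1 := by
    by_contra hcon
    push Not at hcon
    have := hP.nonneg_of_nbr hv (R.neg_mem hb) (by simp [h0])
      (fun x hx => by simpa using hcon x hx) u hu
    simp only [Pi.neg_apply] at this; linarith
  obtain ⟨w1, hw1, hw1'⟩ : ∃ w1 ∈ nbr V R v, b v w1 < 0 := by
    by_contra hcon
    push Not at hcon
    have := hP.nonneg_of_nbr hv hb h0 hcon w hw
    linarith
  have h1 := (hP.fig hv).two_le_cross (by omega) (φ := b v) ⟨hb, by simpa using h0⟩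
    (fun x hx => hne x (mem_nbr.1 hx).1 (mem_nbr.1 hx).2.1) hu1 hw1 hu1' hw1'
  rw [card_filter, hP.fig_sum hv 2, ← card_filter, filter_filter] at h1
  refine h1.trans (card_le_card (fun σ hσ => ?_))
  obtain ⟨h2, h3, ⟨x, hx, hx'⟩, y, hy, hy'⟩ := mem_filter.1 hσ
  exact mem_filter.2 ⟨h2, h3, ⟨x, (mem_inter.1 hx).1, hx'⟩, y, (mem_inter.1 hy).1, hy'⟩

open Classical in
lemma sum_mid (b : ι → ι → ℝ) :
    ∑ v ∈ V, ((faces V R 3).filter (fun σ => Mid b v σ)).card =
      ∑ σ ∈ faces V R 3, (σ.filter (fun v => Mid b v σ)).card := by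
  have := sum_card_bipartiteAbove_eq_sum_card_bipartiteBelow (s := V) (t := faces V R 3)
    (fun v σ => Mid b v σ)
  simp only [bipartiteAbove, bipartiteBelow] at this
  rw [this]
  refine sum_congr rfl (fun σ hσ => ?_)
  congr 1
  ext x
  simp only [mem_filter]
  exact ⟨fun h => ⟨h.2.1, h.2⟩, fun h => ⟨(mem_faces.1 hσ).1.1 h.1, h.2⟩⟩

/-- A set with at least two points has distinct top and bottom for a generic height. -/
lemma exists_top_bot {h l : ι → ℝ} {S : Finset ι} (hS : 2 ≤ S.card) (hpos : ∀ v ∈ S, 0 < l v)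
    (hgen : ∀ u ∈ S, ∀ w ∈ S, u ≠ w → h u * l w ≠ h w * l u) :
    ∃ t ∈ S, ∃ s ∈ S, t ≠ s ∧ (∀ y ∈ S, 0 ≤ h t * l y - h y * l t) ∧
      ∀ y ∈ S, h s * l y - h y * l s ≤ 0 := by
  have hne : S.Nonempty := card_pos.1 (by omega)
  obtain ⟨t, ht, hmax⟩ := exists_max_image S (fun v => h v / l v) hne
  obtain ⟨s, hs, hmin⟩ := exists_min_image S (fun v => h v / l v) hne
  have h1 : ∀ y ∈ S, 0 ≤ h t * l y - h y * l t := fun y hy => by
    have := hmax y hy
    rw [div_le_div_iff₀ (hpos y hy) (hpos t ht)] at this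
    linarith
  have h2 : ∀ y ∈ S, h s * l y - h y * l s ≤ 0 := fun y hy => by
    have := hmin y hy
    rw [div_le_div_iff₀ (hpos s hs) (hpos y hy)] at this
    linarith
  refine ⟨t, ht, s, hs, ?_, h1, h2⟩
  rintro rfl
  obtain ⟨y, hy, hyt⟩ := exists_mem_ne (by omega : 1 < S.card) t
  exact hgen t ht y hy hyt.symm (by linarith [h1 y hy, h2 y hy])

open Classical in
/-- Euler's formula for 3-polytopes. -/
theorem IsPoly.euler (hP : IsPoly V R) (hr : rk R V = 4) :
    ∑ σ ∈ faces V R 3, σ.card + 4 = 2 * V.card + 2 * (faces V R 3).card := by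
  obtain ⟨l, hl, hpos⟩ := hP.exists_ell
  obtain ⟨h, hh, hgen⟩ := hP.exists_generic hpos
  let b : ι → ι → ℝ := fun u w => h u * l w - h w * l u
  have hbR : ∀ u, b u ∈ R := fun u => by
    have : b u = h u • l - l u • h := by funext w; simp [b, mul_comm]
    rw [this]; exact R.sub_mem (R.smul_mem _ hl) (R.smul_mem _ hh)
  have hb0 : ∀ u, b u u = 0 := fun u => by simp [b]
  have hbne : ∀ u ∈ V, ∀ w ∈ V, u ≠ w → b u w ≠ 0 := fun u hu w hw hne =>
    sub_ne_zero.2 (hgen u hu w hw hne)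
  have hface : ∀ σ ∈ faces V R 3, (σ.filter (fun v => Mid b v σ)).card + 2 = σ.card := by
    intro σ hσ
    obtain ⟨h1, h2⟩ := mem_faces.1 hσ
    apply le_antisymm
    · have h3 := rk_le_card (R := R) σ
      obtain ⟨t, ht, s, hs, hts, a1, a2⟩ := exists_top_bot (S := σ) (by omega)
        (fun v hv => hpos v (h1.1 hv)) (fun u hu w hw => hgen u (h1.1 hu) w (h1.1 hw))
      have h4 : σ.filter (fun v => Mid b v σ) ⊆ (σ.erase t).erase s := by
        intro v hv
        obtain ⟨hv1, _, ⟨u, hu, hu'⟩, w, hw, hw'⟩ := mem_filter.1 hv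
        refine mem_erase.2 ⟨?_, mem_erase.2 ⟨?_, hv1⟩⟩
        · rintro rfl; exact absurd (a2 u hu) (not_le.2 hu')
        · rintro rfl; exact absurd (a1 w hw) (not_le.2 hw')
      have h5 := card_le_card h4
      rw [card_erase_of_mem (mem_erase.2 ⟨hts.symm, hs⟩), card_erase_of_mem ht] at h5
      omega
    · exact mid_face_ge (fun u _ w _ => by simp [b])
        (fun u hu w hw => hbne u (h1.1 hu) w (h1.1 hw))
  have hV := rk_le_card (R := R) V
  obtain ⟨t, ht, s, hs, hts, a1, a2⟩ := exists_top_bot (S := V) (by omega) hpos hgen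
  have hvert : ∀ v ∈ V, ((faces V R 3).filter (fun σ => Mid b v σ)).card =
      if v = t ∨ v = s then 0 else 2 := by
    intro v hv
    split_ifs with hc
    · rw [card_eq_zero, filter_eq_empty_iff]
      rintro σ hσ ⟨_, ⟨u, hu, hu'⟩, w, hw, hw'⟩
      rcases hc with rfl | rfl
      · exact absurd (a1 w ((mem_faces.1 hσ).1.1 hw)) (not_le.2 hw')
      · exact absurd (a2 u ((mem_faces.1 hσ).1.1 hu)) (not_le.2 hu')
    · push Not at hc
      refine le_antisymm (mid_vertex_le hP hr hv (hbR v) (hb0 v))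
        (mid_vertex_ge hP hr hv (hbR v) (hb0 v) (fun w hw hne => hbne v hv w hw hne.symm) hs ht
          ?_ ?_)
      · have h1 := a2 v hv
        have h2 := hbne v hv s hs hc.2
        exact lt_of_le_of_ne (by simp only [b]; linarith) h2.symm
      · have h1 := a1 v hv
        have h2 := hbne v hv t ht hc.1
        exact lt_of_le_of_ne (by simp only [b]; linarith) h2
  have h1 := sum_mid (V := V) (R := R) b
  rw [sum_congr rfl hvert] at h1
  have h2 : ∑ v ∈ V, (if v = t ∨ v = s then 0 else 2) + 4 = 2 * V.card := by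
    rw [← add_sum_erase V _ ht, ← add_sum_erase (V.erase t) _ (mem_erase.2 ⟨hts.symm, hs⟩),
      sum_congr rfl (g := fun _ => 2) (fun v hv => by
        rw [if_neg]
        push Not
        exact ⟨(mem_erase.1 (mem_erase.1 hv).2).1, (mem_erase.1 hv).1⟩)]
    simp only [true_or, or_true, if_true, sum_const, smul_eq_mul]
    rw [card_erase_of_mem (mem_erase.2 ⟨hts.symm, hs⟩), card_erase_of_mem ht]
    omega
  have h3 : ∑ σ ∈ faces V R 3, σ.card =
      ∑ σ ∈ faces V R 3, (σ.filter (fun v => Mid b v σ)).card + 2 * (faces V R 3).card := by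
    rw [← sum_congr rfl hface, sum_add_distrib]
    simp [mul_comm]
  omega

open Classical in
/-- A generic field that is antisymmetric on the 2-faces of a 3-polytope has at most two
definite vertices. -/
theorem IsPoly.no_three_definite (hP : IsPoly V R) (hr : rk R V = 4) {b : ι → ι → ℝ}
    (hb : ∀ u ∈ V, b u ∈ R) (h0 : ∀ u ∈ V, b u u = 0)
    (ha : ∀ σ ∈ faces V R 3, ∀ u ∈ σ, ∀ w ∈ σ, b u w + b w u = 0)
    (hne : ∀ u ∈ V, ∀ w ∈ V, u ≠ w → b u w ≠ 0) {D : Finset ι} (hD : D ⊆ V)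
    (hdef : ∀ x ∈ D, (∀ w ∈ V, 0 ≤ b x w) ∨ ∀ w ∈ V, b x w ≤ 0) : D.card ≤ 2 := by
  have h1 := sum_mid (V := V) (R := R) b
  have h2 : ∑ σ ∈ faces V R 3, σ.card ≤
      ∑ σ ∈ faces V R 3, (σ.filter (fun v => Mid b v σ)).card + 2 * (faces V R 3).card := by
    have := sum_le_sum (fun σ (hσ : σ ∈ faces V R 3) => mid_face_ge (ha σ hσ)
      (fun u hu w hw => hne u ((mem_faces.1 hσ).1.1 hu) w ((mem_faces.1 hσ).1.1 hw)))
    rw [sum_add_distrib] at this
    simpa [mul_comm] using this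
  have h3 : ∑ v ∈ V, ((faces V R 3).filter (fun σ => Mid b v σ)).card ≤ 2 * (V \ D).card := by
    rw [← sum_sdiff hD, sum_eq_zero (s := D) (fun x hx => ?_), add_zero, mul_comm]
    · exact sum_le_card_nsmul _ _ 2 (fun v hv => mid_vertex_le hP hr (mem_sdiff.1 hv).1
        (hb v (mem_sdiff.1 hv).1) (h0 v (mem_sdiff.1 hv).1))
    · rw [card_eq_zero, filter_eq_empty_iff]
      rintro σ hσ ⟨_, ⟨u, hu, hu'⟩, w, hw, hw'⟩
      rcases hdef x hx with h | h
      · exact absurd (h w ((mem_faces.1 hσ).1.1 hw)) (not_le.2 hw')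
      · exact absurd (h u ((mem_faces.1 hσ).1.1 hu)) (not_le.2 hu')
  have h4 := hP.euler hr
  have h5 := card_sdiff_add_card_eq_card hD
  omega

end Pool.Agent.P.MP_af6acb_co
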