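import Pool.Agent.P.MP_af6acb_co.Basic

/-!
The face lattice of a configuration: intersections, coatoms, atoms, diamonds, vertex figures.
-/

namespace Pool.Agent.P.MP_af6acb_co

open Finset Module

set_option linter.unusedSectionVars false

variable {ι : Type} [DecidableEq ι] {R : Submodule ℝ (ι → ℝ)} {V X Y Z : Finset ι}

lemma IsFace.subset (h : IsFace V R X) : X ⊆ V := h.1

lemma isFace_self (V : Finset ι) (R : Submodule ℝ (ι → ℝ)) : IsFace V R V :=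
  ⟨subset_rfl, 0, R.zero_mem, fun _ _ => le_rfl, fun _ hv => by simp [hv]⟩

/-- A defining function, in convenient form. -/
lemma IsFace.exists_fun (h : IsFace V R X) :
    ∃ φ ∈ R, (∀ v ∈ X, φ v = 0) ∧ ∀ v ∈ V, v ∉ X → 0 < φ v := by
  obtain ⟨hX, φ, hφ, h1, h2⟩ := h
  exact ⟨φ, hφ, fun v hv => (h2 v (hX hv)).2 hv,
    fun v hv hvX => lt_of_le_of_ne (h1 v hv) (fun h => hvX ((h2 v hv).1 h.symm))⟩

lemma isFace_of_fun (hX : X ⊆ V) {φ : ι → ℝ} (hφ : φ ∈ R) (h1 : ∀ v ∈ X, φ v = 0)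
    (h2 : ∀ v ∈ V, v ∉ X → 0 < φ v) : IsFace V R X := by
  refine ⟨hX, φ, hφ, fun v hv => ?_, fun v hv => ⟨fun h => ?_, h1 v⟩⟩
  · by_cases hvX : v ∈ X
    · exact (h1 v hvX).ge
    · exact (h2 v hv hvX).le
  · by_contra hvX
    exact (h2 v hv hvX).ne' h

open Classical in
lemma isFace_zero {φ : ι → ℝ} (hφ : φ ∈ R) (h : ∀ v ∈ V, 0 ≤ φ v) :
    IsFace V R (V.filter (fun v => φ v = 0)) :=
  ⟨filter_subset _ _, φ, hφ, h, fun v hv => by simp [hv]⟩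

lemma IsFace.inter (h1 : IsFace V R X) (h2 : IsFace V R Y) : IsFace V R (X ∩ Y) := by
  obtain ⟨φ, hφ, a1, a2⟩ := h1.exists_fun
  obtain ⟨ψ, hψ, b1, b2⟩ := h2.exists_fun
  have hφ0 : ∀ v ∈ V, 0 ≤ φ v := fun v hv => by
    by_cases h : v ∈ X
    · exact (a1 v h).ge
    · exact (a2 v hv h).le
  have hψ0 : ∀ v ∈ V, 0 ≤ ψ v := fun v hv => by
    by_cases h : v ∈ Y
    · exact (b1 v h).ge
    · exact (b2 v hv h).le
  refine isFace_of_fun (inter_subset_left.trans h1.1) (R.add_mem hφ hψ) (fun v hv => ?_)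
    (fun v hv hv' => ?_)
  · simp [a1 v (mem_inter.1 hv).1, b1 v (mem_inter.1 hv).2]
  · rw [mem_inter, not_and_or] at hv'
    rcases hv' with h | h
    · have := a2 v hv h; have := hψ0 v hv; simp only [Pi.add_apply]; linarith
    · have := b2 v hv h; have := hφ0 v hv; simp only [Pi.add_apply]; linarith

/-- Restriction of a face to a subconfiguration. -/
lemma IsFace.restrict (h : IsFace V R X) (hY : Y ⊆ V) : IsFace Y R (X ∩ Y) := by
  obtain ⟨φ, hφ, a1, a2⟩ := h.exists_fun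
  exact isFace_of_fun inter_subset_right hφ (fun v hv => a1 v (mem_inter.1 hv).1)
    (fun v hv hv' => a2 v (hY hv) (fun h => hv' (mem_inter.2 ⟨h, hv⟩)))

lemma IsFace.sub (h : IsFace V R X) (hY : Y ⊆ V) (hXY : X ⊆ Y) : IsFace Y R X := by
  have := h.restrict hY
  rwa [inter_eq_left.2 hXY] at this

lemma IsPoly.sub (h : IsPoly V R) (hY : Y ⊆ V) : IsPoly Y R :=
  ⟨h.empty.sub hY (empty_subset _),
    fun v hv => (h.single v (hY hv)).sub hY (singleton_subset_iff.2 hv)⟩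

/-- Large multiples: `φ + t ψ` is positive on a finite set on which `ψ` is positive. -/
lemma exists_large (S : Finset ι) (φ ψ : ι → ℝ) (h : ∀ v ∈ S, 0 < ψ v) :
    ∃ t : ℝ, 0 ≤ t ∧ ∀ v ∈ S, 0 < φ v + t * ψ v := by
  refine ⟨∑ v ∈ S, (|φ v| / ψ v + 1), sum_nonneg fun v hv => ?_, fun v hv => ?_⟩
  · have := h v hv; positivity
  · have h1 : |φ v| / ψ v + 1 ≤ ∑ v ∈ S, (|φ v| / ψ v + 1) :=
      single_le_sum (f := fun v => |φ v| / ψ v + 1)
        (fun w hw => by have := h w hw; positivity) hv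
    have h2 := h v hv
    have h3 : (|φ v| / ψ v + 1) * ψ v = |φ v| + ψ v := by field_simp
    have h4 := mul_le_mul_of_nonneg_right h1 h2.le
    have h5 := neg_abs_le (φ v)
    linarith

lemma IsFace.trans (h1 : IsFace Y R X) (h2 : IsFace V R Y) : IsFace V R X := by
  obtain ⟨φ, hφ, a1, a2⟩ := h1.exists_fun
  obtain ⟨ψ, hψ, b1, b2⟩ := h2.exists_fun
  obtain ⟨t, _, ht⟩ := exists_large (V \ Y) φ ψ (fun v hv => b2 v (mem_sdiff.1 hv).1
    (mem_sdiff.1 hv).2)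
  refine isFace_of_fun (h1.1.trans h2.1) (R.add_mem hφ (R.smul_mem t hψ)) (fun v hv => ?_)
    (fun v hv hv' => ?_)
  · simp [a1 v hv, b1 v (h1.1 hv)]
  · by_cases hvY : v ∈ Y
    · simpa [b1 v hvY] using a2 v hvY hv'
    · simpa using ht v (mem_sdiff.2 ⟨hv, hvY⟩)

/-- Moving along a direction until a new zero appears. -/
lemma exists_step (S : Finset ι) (φ ψ : ι → ℝ) (hφ : ∀ v ∈ S, 0 < φ v) {w : ι} (hw : w ∈ S)
    (hψ : ψ w < 0) :
    ∃ t : ℝ, 0 < t ∧ (∀ v ∈ S, 0 ≤ φ v + t * ψ v) ∧ ∃ v ∈ S, ψ v < 0 ∧ φ v + t * ψ v = 0 := by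
  classical
  obtain ⟨v0, hv0, hmin⟩ := exists_min_image (S.filter (fun v => ψ v < 0))
    (fun v => φ v / (-ψ v)) ⟨w, mem_filter.2 ⟨hw, hψ⟩⟩
  obtain ⟨hv0S, hv0ψ⟩ := mem_filter.1 hv0
  have hpos : 0 < φ v0 / (-ψ v0) := div_pos (hφ v0 hv0S) (by linarith)
  refine ⟨φ v0 / (-ψ v0), hpos, fun v hv => ?_, v0, hv0S, hv0ψ, ?_⟩
  · by_cases h : ψ v < 0
    · have h1 := hmin v (mem_filter.2 ⟨hv, h⟩)
      have h2 : 0 < -ψ v := by linarith
      have h3 : φ v0 / (-ψ v0) * (-ψ v) ≤ φ v := by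
        rw [← le_div_iff₀ h2]; exact h1
      linarith
    · push Not at h
      have := hφ v hv
      have := mul_nonneg hpos.le h
      linarith
  · have : ψ v0 ≠ 0 := hv0ψ.ne
    field_simp
    ring

variable [FiniteDimensional ℝ R]

lemma IsFace.rk_lt (h : IsFace V R X) (hXY : X ⊆ Y) (hY : Y ⊆ V) (hne : X ≠ Y) :
    rk R X < rk R Y := by
  obtain ⟨φ, hφ, a1, a2⟩ := h.exists_fun
  obtain ⟨y, hy, hyX⟩ := exists_of_ssubset (lt_of_le_of_ne hXY hne)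
  exact Pool.Agent.P.MP_af6acb_co.rk_lt hXY hφ a1 hy (a2 y (hY hy) hyX).ne'

lemma IsFace.eq_of_rk_le (h : IsFace V R X) (hXY : X ⊆ Y) (hY : Y ⊆ V) (hr : rk R Y ≤ rk R X) :
    X = Y := by
  by_contra hne
  have := h.rk_lt hXY hY hne
  omega

lemma IsFace.rk_insert (h : IsFace V R X) {u : ι} (hu : u ∈ V) (huX : u ∉ X) :
    rk R (insert u X) = rk R X + 1 := by
  have h1 := rk_insert_le (R := R) u X
  have h2 := h.rk_lt (subset_insert u X) (insert_subset hu h.1)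
    (fun he => huX (he ▸ mem_insert_self u X))
  omega

/-- Two faces of the same rank are equal or meet in smaller rank. -/
lemma IsFace.rk_inter_lt (h1 : IsFace V R X) (h2 : IsFace V R Y) (hr : rk R Y ≤ rk R X)
    (hne : X ≠ Y) : rk R (X ∩ Y) < rk R X := by
  refine (h1.inter h2).rk_lt inter_subset_left h1.1 (fun he => hne ?_)
  exact h1.eq_of_rk_le (inter_eq_left.1 he) h2.1 hr

open Classical in
/-- Generation of the nonnegative functions by the facet functions. -/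
lemma gen_induction (hXV : X ⊆ V) (P : (ι → ℝ) → Prop)
    (h0 : ∀ φ ∈ R, (∀ v ∈ V, φ v = 0) → P φ)
    (hfac : ∀ φ ∈ R, (∀ v ∈ X, φ v = 0) → (∀ v ∈ V, 0 ≤ φ v) →
      rk R (V.filter (fun v => φ v = 0)) + 1 = rk R V → P φ)
    (hadd : ∀ φ ψ : ι → ℝ, ∀ a b : ℝ, 0 ≤ a → 0 ≤ b → P φ → P ψ → P (a • φ + b • ψ))
    {φ : ι → ℝ} (hφ : φ ∈ R) (hX : ∀ v ∈ X, φ v = 0) (hV : ∀ v ∈ V, 0 ≤ φ v) : P φ := by
  induction' hn : rk R V - rk R (V.filter (fun v => φ v = 0)) using Nat.strong_induction_on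
    with n ih generalizing φ
  set Zf := V.filter (fun v => φ v = 0) with hZf
  have hZV : Zf ⊆ V := filter_subset _ _
  have hle := rk_mono (R := R) hZV
  by_cases hall : ∀ v ∈ V, φ v = 0
  · exact h0 φ hφ hall
  push Not at hall
  obtain ⟨y0, hy0, hy0ne⟩ := hall
  have hφZ : ∀ v ∈ Zf, φ v = 0 := fun v hv => (mem_filter.1 hv).2
  have hlt : rk R Zf < rk R V := rk_lt hZV hφ hφZ hy0 hy0ne
  by_cases h1 : rk R Zf + 1 = rk R V
  · exact hfac φ hφ hX hV h1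
  have hpos : ∀ v ∈ V \ Zf, 0 < φ v := fun v hv => by
    obtain ⟨h1, h2⟩ := mem_sdiff.1 hv
    exact lt_of_le_of_ne (hV v h1) (fun h => h2 (mem_filter.2 ⟨h1, h.symm⟩))
  have hns : ¬ Spans R (insert y0 Zf) V := by
    intro hs
    have h2 := rk_le_of_spans hs
    have h3 := rk_insert_le (R := R) y0 Zf
    omega
  simp only [Spans, not_forall] at hns
  obtain ⟨ψ0, hψ0, hz, y1, hy1, hy1ne⟩ := hns
  have hy0' : y0 ∈ V \ Zf := mem_sdiff.2 ⟨hy0, fun h => hy0ne (hφZ _ h)⟩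
  have hy1' : y1 ∈ V \ Zf := mem_sdiff.2 ⟨hy1, fun h => hy1ne (hz _ (mem_insert_of_mem h))⟩
  have hp0 := hpos y0 hy0'
  have hp1 := hpos y1 hy1'
  have hψ00 : ψ0 y0 = 0 := hz _ (mem_insert_self _ _)
  obtain ⟨ψ, hψR, hψZ, w1, hw1, w2, hw2, hs1, hs2⟩ : ∃ ψ ∈ R, (∀ v ∈ Zf, ψ v = 0) ∧
      ∃ w1 ∈ V \ Zf, ∃ w2 ∈ V \ Zf, ψ w1 < 0 ∧ 0 < ψ w2 := by
    refine ⟨ψ0 - (ψ0 y1 / (2 * φ y1)) • φ, R.sub_mem hψ0 (R.smul_mem _ hφ), fun v hv => ?_, ?_⟩
    · simp [hz v (mem_insert_of_mem hv), hφZ v hv]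
    · have e1 : (ψ0 - (ψ0 y1 / (2 * φ y1)) • φ) y1 = ψ0 y1 / 2 := by
        simp only [Pi.sub_apply, Pi.smul_apply, smul_eq_mul]; field_simp; ring
      have e0 : (ψ0 - (ψ0 y1 / (2 * φ y1)) • φ) y0 = - ψ0 y1 * (φ y0 / (2 * φ y1)) := by
        simp only [Pi.sub_apply, Pi.smul_apply, smul_eq_mul, hψ00]; field_simp; ring
      have hq : 0 < φ y0 / (2 * φ y1) := by positivity
      rcases lt_or_gt_of_ne hy1ne with h | h
      · exact ⟨y1, hy1', y0, hy0', by rw [e1]; linarith, by rw [e0]; nlinarith⟩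
      · exact ⟨y0, hy0', y1, hy1', by rw [e0]; nlinarith, by rw [e1]; linarith⟩
  have key : ∀ χ ∈ R, (∀ v ∈ Zf, χ v = 0) → ∀ w ∈ V \ Zf, χ w < 0 →
      ∃ t : ℝ, 0 < t ∧ P (φ + t • χ) := by
    intro χ hχ hχZ w hw hneg
    obtain ⟨t, ht, hnn, v0, hv0, _, hv0z⟩ := exists_step (V \ Zf) φ χ hpos hw hneg
    have hnn' : ∀ v ∈ V, 0 ≤ (φ + t • χ) v := fun v hv => by
      by_cases h : v ∈ Zf
      · simp [hφZ v h, hχZ v h]
      · simpa using hnn v (mem_sdiff.2 ⟨hv, h⟩)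
    have hsub : Zf ⊆ V.filter (fun v => (φ + t • χ) v = 0) := fun v hv =>
      mem_filter.2 ⟨hZV hv, by simp [hφZ v hv, hχZ v hv]⟩
    have hlt' : rk R Zf < rk R (V.filter (fun v => (φ + t • χ) v = 0)) := by
      refine (isFace_zero hφ hV).rk_lt hsub (filter_subset _ _) (fun he => ?_)
      apply (mem_sdiff.1 hv0).2
      rw [hZf, he]
      exact mem_filter.2 ⟨(mem_sdiff.1 hv0).1, by simpa using hv0z⟩
    refine ⟨t, ht, ih _ ?_ (R.add_mem hφ (R.smul_mem t hχ)) (fun v hv => ?_) hnn' rfl⟩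
    · omega
    · have : v ∈ Zf := mem_filter.2 ⟨hXV hv, hX v hv⟩
      simp [hφZ v this, hχZ v this]
  obtain ⟨t1, ht1, hP1⟩ := key ψ hψR hψZ w1 hw1 hs1
  obtain ⟨t2, ht2, hP2⟩ := key (-ψ) (R.neg_mem hψR) (fun v hv => by simp [hψZ v hv]) w2 hw2
    (by simpa using hs2)
  have := hadd _ _ (t2 / (t1 + t2)) (t1 / (t1 + t2)) (by positivity) (by positivity) hP1 hP2
  have he : (t2 / (t1 + t2)) • (φ + t1 • ψ) + (t1 / (t1 + t2)) • (φ + t2 • -ψ) = φ := by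
    funext v
    simp only [Pi.add_apply, Pi.smul_apply, Pi.neg_apply, smul_eq_mul]
    field_simp
    ring
  rwa [he] at this

/-- A face avoiding `u` lies in a facet avoiding `u`. -/
lemma IsFace.exists_coatom (h : IsFace V R X) {u : ι} (hu : u ∈ V) (huX : u ∉ X) :
    ∃ F, IsFace V R F ∧ X ⊆ F ∧ u ∉ F ∧ rk R F + 1 = rk R V := by
  classical
  obtain ⟨φ, hφ, a1, a2⟩ := h.exists_fun
  have hnn : ∀ v ∈ V, 0 ≤ φ v := fun v hv => by
    by_cases h : v ∈ X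
    · exact (a1 v h).ge
    · exact (a2 v hv h).le
  refine gen_induction (R := R) h.1
    (fun φ => 0 < φ u → ∃ F, IsFace V R F ∧ X ⊆ F ∧ u ∉ F ∧ rk R F + 1 = rk R V)
    (fun φ _ hz hp => absurd (hz u hu) hp.ne') (fun φ hφ hX hV hr hp => ?_)
    (fun φ ψ a b ha hb h1 h2 hp => ?_) hφ a1 hnn (a2 u hu huX)
  · exact ⟨_, isFace_zero hφ hV, fun v hv => mem_filter.2 ⟨h.1 hv, hX v hv⟩,
      fun hm => hp.ne' (mem_filter.1 hm).2, hr⟩
  · by_cases hφu : 0 < φ u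
    · exact h1 hφu
    · apply h2
      by_contra hψu
      simp only [Pi.add_apply, Pi.smul_apply, smul_eq_mul] at hp
      push Not at hφu hψu
      nlinarith [mul_nonneg ha (neg_nonneg.2 hφu), mul_nonneg hb (neg_nonneg.2 hψu)]

/-- Faces of every intermediate rank. -/
lemma IsFace.exists_between (hX : IsFace V R X) (hY : IsFace V R Y) (hXY : X ⊆ Y) {r : ℕ}
    (h1 : rk R X ≤ r) (h2 : r ≤ rk R Y) : ∃ Z, IsFace V R Z ∧ X ⊆ Z ∧ Z ⊆ Y ∧ rk R Z = r := by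
  induction' hn : rk R Y - r with n ih generalizing Y
  · exact ⟨Y, hY, hXY, subset_rfl, by omega⟩
  · have hne : X ≠ Y := by rintro rfl; omega
    obtain ⟨u, hu, huX⟩ := exists_of_ssubset (lt_of_le_of_ne hXY hne)
    obtain ⟨F, hF, hXF, _, hr⟩ := (hX.sub hY.1 hXY).exists_coatom hu huX
    obtain ⟨Z, hZ, h3, h4, h5⟩ := ih (hF.trans hY) hXF (by omega) (by omega)
    exact ⟨Z, hZ, h3, h4.trans hF.1, h5⟩

/-- Local to global: a function vanishing on the face `X` and positive on the atoms above `X` is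
positive outside `X`. -/
lemma IsFace.pos_of_atoms (hX : IsFace V R X) {φ : ι → ℝ} (hφ : φ ∈ R) (hz : ∀ v ∈ X, φ v = 0)
    (hat : ∀ Z, IsFace V R Z → X ⊆ Z → rk R Z = rk R X + 1 → ∃ z ∈ Z, 0 < φ z) :
    ∀ v ∈ V, v ∉ X → 0 < φ v := by
  classical
  obtain ⟨χ, hχ, a1, a2⟩ := hX.exists_fun
  by_contra hcon
  push Not at hcon
  obtain ⟨y, hy, hyX, hyφ⟩ := hcon
  obtain ⟨v0, hv0, hmin⟩ := exists_min_image (V \ X) (fun v => φ v / χ v)
    ⟨y, mem_sdiff.2 ⟨hy, hyX⟩⟩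
  obtain ⟨hv0V, hv0X⟩ := mem_sdiff.1 hv0
  set m := φ v0 / χ v0 with hm
  have hm0 : m ≤ 0 := (hmin y (mem_sdiff.2 ⟨hy, hyX⟩)).trans
    (div_nonpos_of_nonpos_of_nonneg hyφ (a2 y hy hyX).le)
  have hψR : φ - m • χ ∈ R := R.sub_mem hφ (R.smul_mem _ hχ)
  have hψ : ∀ v ∈ V, 0 ≤ (φ - m • χ) v := fun v hv => by
    by_cases h : v ∈ X
    · simp [hz v h, a1 v h]
    · have h1 := hmin v (mem_sdiff.2 ⟨hv, h⟩)
      have h2 := a2 v hv h
      rw [le_div_iff₀ h2] at h1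
      simp only [Pi.sub_apply, Pi.smul_apply, smul_eq_mul]; linarith
  have hW := isFace_zero hψR hψ
  have hXW : X ⊆ V.filter (fun v => (φ - m • χ) v = 0) := fun v hv =>
    mem_filter.2 ⟨hX.1 hv, by simp [hz v hv, a1 v hv]⟩
  have hv0W : v0 ∈ V.filter (fun v => (φ - m • χ) v = 0) := by
    refine mem_filter.2 ⟨hv0V, ?_⟩
    have := a2 v0 hv0V hv0X
    simp only [Pi.sub_apply, Pi.smul_apply, smul_eq_mul, hm]; field_simp; ring
  have hlt := hX.rk_lt hXW hW.1 (fun he => hv0X (he ▸ hv0W))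
  obtain ⟨Z, hZ, h1, h2, h3⟩ := hX.exists_between hW hXW (r := rk R X + 1) (by omega) (by omega)
  obtain ⟨z, hz1, hz2⟩ := hat Z hZ h1 h3
  have h4 := (mem_filter.1 (h2 hz1)).2
  have h5 : 0 ≤ χ z := by
    by_cases h : z ∈ X
    · exact (a1 z h).ge
    · exact (a2 z (hZ.1 hz1) h).le
  simp only [Pi.sub_apply, Pi.smul_apply, smul_eq_mul] at h4
  nlinarith [mul_nonneg (neg_nonneg.2 hm0) h5]

/-- Three functions and three points with zero diagonal and positive off-diagonal values admit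
no relation. -/
lemma no_rel3 {a b c x12 x13 x21 x23 x31 x32 : ℝ} (h12 : 0 < x12) (h13 : 0 < x13) (h21 : 0 < x21)
    (h23 : 0 < x23) (h31 : 0 < x31) (h32 : 0 < x32) (e1 : b * x21 + c * x31 = 0)
    (e2 : a * x12 + c * x32 = 0) (e3 : a * x13 + b * x23 = 0) : a = 0 ∧ b = 0 ∧ c = 0 := by
  have hdet : 0 < x12 * x23 * x31 + x13 * x21 * x32 := by positivity
  have ha : a * (x12 * x23 * x31 + x13 * x21 * x32) = 0 := by
    linear_combination (x23 * x31) * e2 - (x23 * x32) * e1 + (x21 * x32) * e3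
  have ha0 : a = 0 := by
    rcases mul_eq_zero.1 ha with h | h
    · exact h
    · exact absurd h hdet.ne'
  subst ha0
  have hb : b = 0 := by
    rcases mul_eq_zero.1 (by linarith : b * x23 = 0) with h | h
    · exact h
    · exact absurd h h23.ne'
  have hc : c = 0 := by
    rcases mul_eq_zero.1 (by linarith : c * x32 = 0) with h | h
    · exact h
    · exact absurd h h32.ne'
  exact ⟨rfl, hb, hc⟩

open Classical in
/-- The diamond property. -/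
lemma diamond (hX : IsFace V R X) (hY : IsFace V R Y) (hXY : X ⊆ Y)
    (hr : rk R Y = rk R X + 2) :
    ((faces V R (rk R X + 1)).filter (fun Z => X ⊆ Z ∧ Z ⊆ Y)).card = 2 := by
  apply le_antisymm
  · by_contra hcon
    push Not at hcon
    obtain ⟨Z1, Z2, Z3, h1, h2, h3, n12, n13, n23⟩ := two_lt_card_iff.1 hcon
    simp only [mem_filter, mem_faces] at h1 h2 h3
    have pt : ∀ {A : Finset ι}, rk R A = rk R X + 1 → X ⊆ A → ∃ z ∈ A, z ∉ X := by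
      intro A hA hXA
      exact exists_of_ssubset (lt_of_le_of_ne hXA (by rintro rfl; omega))
    have out : ∀ {A B : Finset ι} {z : ι}, IsFace V R A → IsFace V R B → rk R A = rk R X + 1 →
        rk R B = rk R X + 1 → X ⊆ A → X ⊆ B → A ≠ B → z ∈ A → z ∉ X → z ∉ B := by
      intro A B z hA hB rA rB xA xB hne hzA hzX hzB
      have h1 := hA.rk_inter_lt hB (by omega) hne
      have h2 := hX.rk_lt (subset_inter xA xB) (inter_subset_left.trans hA.1)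
        (fun he => hzX (he ▸ mem_inter.2 ⟨hzA, hzB⟩))
      omega
    obtain ⟨z1, hz1, hz1X⟩ := pt h1.1.2 h1.2.1
    obtain ⟨z2, hz2, hz2X⟩ := pt h2.1.2 h2.2.1
    obtain ⟨z3, hz3, hz3X⟩ := pt h3.1.2 h3.2.1
    obtain ⟨φ1, hφ1, a1, b1⟩ := h1.1.1.exists_fun
    obtain ⟨φ2, hφ2, a2, b2⟩ := h2.1.1.exists_fun
    obtain ⟨φ3, hφ3, a3, b3⟩ := h3.1.1.exists_fun
    obtain ⟨α, hα, hrel⟩ := exists_rel (d := 2) hXY hr.le ![φ1, φ2, φ3] (by
      intro i; fin_cases i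
      · exact ⟨hφ1, fun v hv => a1 v (h1.2.1 hv)⟩
      · exact ⟨hφ2, fun v hv => a2 v (h2.2.1 hv)⟩
      · exact ⟨hφ3, fun v hv => a3 v (h3.2.1 hv)⟩)
    replace hrel : ∀ y ∈ Y, α 0 * φ1 y + α 1 * φ2 y + α 2 * φ3 y = 0 := fun y hy => by
      have := hrel y hy
      simp only [Fin.sum_univ_succ] at this
      simp at this
      linarith
    have e1 := hrel z1 (h1.2.2 hz1)
    have e2 := hrel z2 (h2.2.2 hz2)
    have e3 := hrel z3 (h3.2.2 hz3)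
    rw [a1 z1 hz1] at e1
    rw [a2 z2 hz2] at e2
    rw [a3 z3 hz3] at e3
    obtain ⟨c0, c1, c2⟩ := no_rel3 (a := α 0) (b := α 1) (c := α 2)
      (b1 z2 (h2.1.1.1 hz2) (out h2.1.1 h1.1.1 h2.1.2 h1.1.2 h2.2.1 h1.2.1 n12.symm hz2 hz2X))
      (b1 z3 (h3.1.1.1 hz3) (out h3.1.1 h1.1.1 h3.1.2 h1.1.2 h3.2.1 h1.2.1 n13.symm hz3 hz3X))
      (b2 z1 (h1.1.1.1 hz1) (out h1.1.1 h2.1.1 h1.1.2 h2.1.2 h1.2.1 h2.2.1 n12 hz1 hz1X))
      (b2 z3 (h3.1.1.1 hz3) (out h3.1.1 h2.1.1 h3.1.2 h2.1.2 h3.2.1 h2.2.1 n23.symm hz3 hz3X))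
      (b3 z1 (h1.1.1.1 hz1) (out h1.1.1 h3.1.1 h1.1.2 h3.1.2 h1.2.1 h3.2.1 n13 hz1 hz1X))
      (b3 z2 (h2.1.1.1 hz2) (out h2.1.1 h3.1.1 h2.1.2 h3.1.2 h2.2.1 h3.2.1 n23 hz2 hz2X))
      (by linarith) (by linarith) (by linarith)
    apply hα
    funext i; fin_cases i
    · exact c0
    · exact c1
    · exact c2
  · have hne : X ≠ Y := by rintro rfl; omega
    obtain ⟨u, hu, huX⟩ := exists_of_ssubset (lt_of_le_of_ne hXY hne)
    have hX' := hX.sub hY.1 hXY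
    obtain ⟨F, hF, hXF, _, hrF⟩ := hX'.exists_coatom hu huX
    obtain ⟨z, hz, hzX⟩ := exists_of_ssubset (lt_of_le_of_ne hXF (by rintro rfl; omega) : X ⊂ F)
    obtain ⟨G, hG, hXG, hzG, hrG⟩ := hX'.exists_coatom (hF.1 hz) hzX
    refine one_lt_card_iff.2 ⟨F, G, ?_, ?_, fun he => hzG (he ▸ hz)⟩
    · exact mem_filter.2 ⟨mem_faces.2 ⟨hF.trans hY, by omega⟩, hXF, hF.1⟩
    · exact mem_filter.2 ⟨mem_faces.2 ⟨hG.trans hY, by omega⟩, hXG, hG.1⟩

end Pool.Agent.P.MP_af6acb_co
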