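import Pool.Agent.P.MP_af6acb_co.Euler

/-!
Splitting a 4-polytope along an empty tetrahedron.
-/

namespace Pool.Agent.P.MP_af6acb_co

open Finset Module

set_option linter.unusedSectionVars false
set_option linter.unusedVariables false

variable {ι : Type} [DecidableEq ι] {R : Submodule ℝ (ι → ℝ)} {V X Y Z : Finset ι}

/-- `T` is a tetrahedron whose triangles are faces and `η` vanishes on it, with both signs. -/
structure Cut (V : Finset ι) (R : Submodule ℝ (ι → ℝ)) (T : Finset ι) (η : ι → ℝ) : Prop where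
  sub : T ⊆ V
  card : T.card = 4
  tri : ∀ t ∈ T, IsFace V R (T.erase t)
  mem : η ∈ R
  zero : ∀ t ∈ T, η t = 0
  pos : ∃ x ∈ V, 0 < η x
  neg : ∃ y ∈ V, η y < 0

open Classical in
/-- The nonnegative side. -/
noncomputable def side (V : Finset ι) (η : ι → ℝ) : Finset ι := V.filter (fun v => 0 ≤ η v)

lemma mem_side {η : ι → ℝ} {v : ι} : v ∈ side V η ↔ v ∈ V ∧ 0 ≤ η v := by simp [side]

lemma side_subset (η : ι → ℝ) : side V η ⊆ V := fun _ h => (mem_side.1 h).1

variable {T : Finset ι} {η : ι → ℝ}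

lemma Cut.symm (h : Cut V R T η) : Cut V R T (-η) :=
  ⟨h.sub, h.card, h.tri, R.neg_mem h.mem, fun t ht => by simp [h.zero t ht],
    by simpa using h.neg, by simpa using h.pos⟩

lemma Cut.sub_side (h : Cut V R T η) : T ⊆ side V η :=
  fun t ht => mem_side.2 ⟨h.sub ht, (h.zero t ht).ge⟩

variable [FiniteDimensional ℝ R]

lemma rk_tetra (hP : IsPoly V R) (hT : T ⊆ V) (hc : T.card = 4)
    (tri : ∀ t ∈ T, IsFace V R (T.erase t)) : rk R T = 4 := by
  obtain ⟨t, ht⟩ : T.Nonempty := card_pos.1 (by omega)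
  have h1 := (tri t ht).rk_insert (hT ht) (notMem_erase t T)
  rw [insert_erase ht] at h1
  obtain ⟨a, b, c, hab, hac, hbc, he⟩ := card_eq_three.1
    (by rw [card_erase_of_mem ht, hc] : (T.erase t).card = 3)
  have hs : ({a, b, c} : Finset ι) ⊆ V := he ▸ (erase_subset t T).trans hT
  rw [h1, he, hP.rk_triple (hs (by simp)) (hs (by simp)) (hs (by simp)) hab hac hbc]

lemma Cut.key (h : Cut V R T η) (hP : IsPoly V R) (hr : rk R V = 5) {x y : ι} (hx : x ∈ V)
    (hxT : x ∉ T) (hy : y ∈ V) (hyT : y ∉ T) {p q : ℝ} (hp : 0 < p) (hq : 0 ≤ q)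
    (hz : p * η x + q * η y = 0) :
    ∃ c : ι → ℝ, (∀ t ∈ T, 0 < c t) ∧ ∀ φ ∈ R, p * φ x + q * φ y = ∑ t ∈ T, φ t * c t := by
  have hrT := rk_tetra hP h.sub h.card h.tri
  obtain ⟨e, he, hd⟩ := (indep_of_rk_eq (hrT.trans h.card.symm)).exists_dual
  obtain ⟨x0, hx0, hx0'⟩ := h.pos
  have hexp : ∀ φ ∈ R, p * φ x + q * φ y = ∑ c ∈ T, φ c * (p * e c x + q * e c y) := by
    intro φ hφ
    obtain ⟨c, hc⟩ := exists_mul (R := R) h.sub (by omega) (η := η)
      (φ := φ - ∑ b ∈ T, φ b • e b) ⟨h.mem, h.zero⟩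
      ⟨R.sub_mem hφ (R.sum_mem fun b _ => R.smul_mem _ (he b)), fun t ht => by
        have := expand he hd (X := T) (fun _ _ h => h) hφ ht
        simp only [Pi.sub_apply, Finset.sum_apply, Pi.smul_apply, smul_eq_mul]
        linarith⟩ hx0 hx0'.ne'
    have h1 := hc x hx
    have h2 := hc y hy
    simp only [Pi.sub_apply, Finset.sum_apply, Pi.smul_apply, smul_eq_mul] at h1 h2
    have h3 : ∑ c ∈ T, φ c * (p * e c x + q * e c y) =
        p * ∑ c ∈ T, φ c * e c x + q * ∑ c ∈ T, φ c * e c y := by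
      rw [mul_sum, mul_sum, ← sum_add_distrib]
      exact sum_congr rfl (fun _ _ => by ring)
    rw [h3]
    linear_combination p * h1 + q * h2 + c * hz
  exact ⟨fun t => p * e t x + q * e t y, fun t ht =>
    coord_pos he hd h.sub ht (h.tri t ht) hx hxT hy hyT hp hq hexp, hexp⟩

lemma Cut.mem_of_zero (h : Cut V R T η) (hP : IsPoly V R) (hr : rk R V = 5) {u : ι} (hu : u ∈ V)
    (h0 : η u = 0) : u ∈ T := by
  by_contra huT
  obtain ⟨c, hc, hexp⟩ := h.key hP hr hu huT hu huT one_pos le_rfl (by simp [h0])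
  obtain ⟨a, ha, a0, a1⟩ := hP.exists_vfun hu
  have h1 := hexp a ha
  have h2 : 0 < ∑ t ∈ T, a t * c t := sum_pos (fun t ht =>
    mul_pos (a1 t (h.sub ht) (by rintro rfl; exact huT ht)) (hc t ht))
    (card_pos.1 (by rw [h.card]; omega))
  rw [a0] at h1
  linarith

/-- A function nonnegative on `T`, zero at a positive point and nonpositive at a negative point
vanishes identically. -/
lemma Cut.vanish (h : Cut V R T η) (hP : IsPoly V R) (hr : rk R V = 5) {φ : ι → ℝ} (hφ : φ ∈ R)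
    (hT : ∀ t ∈ T, 0 ≤ φ t) {x y : ι} (hx : x ∈ V) (hy : y ∈ V) (hx' : 0 < η x) (hy' : η y < 0)
    (h1 : φ x = 0) (h2 : φ y ≤ 0) : ∀ v ∈ V, φ v = 0 := by
  have hrT := rk_tetra hP h.sub h.card h.tri
  obtain ⟨c, hc, hexp⟩ := h.key hP hr hx (fun hm => hx'.ne' (h.zero x hm)) hy
    (fun hm => hy'.ne (h.zero y hm)) (p := -η y) (q := η x) (by linarith) hx'.le (by ring)
  have h3 := hexp φ hφ
  have h4 : ∑ t ∈ T, φ t * c t = 0 := by
    apply le_antisymm
    · rw [← h3, h1]; nlinarith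
    · exact sum_nonneg fun t ht => mul_nonneg (hT t ht) (hc t ht).le
  rw [sum_eq_zero_iff_of_nonneg (fun t ht => mul_nonneg (hT t ht) (hc t ht).le)] at h4
  obtain ⟨d, hd⟩ := exists_mul (R := R) h.sub (by omega) (η := η) (φ := φ) ⟨h.mem, h.zero⟩
    ⟨hφ, fun t ht => by
      rcases mul_eq_zero.1 (h4 t ht) with h | h
      · exact h
      · exact absurd h (hc t ht).ne'⟩ hx hx'.ne'
  have h5 := hd x hx
  have h6 : d = 0 := by
    rw [h1] at h5
    rcases mul_eq_zero.1 h5.symm with h | h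
    · exact h
    · exact absurd h hx'.ne'
  intro v hv
  rw [hd v hv, h6, zero_mul]

lemma Cut.face_T (h : Cut V R T η) (hP : IsPoly V R) (hr : rk R V = 5) :
    IsFace (side V η) R T :=
  isFace_of_fun h.sub_side h.mem h.zero (fun v hv hvT => lt_of_le_of_ne (mem_side.1 hv).2
    (fun h0 => hvT (h.mem_of_zero hP hr (mem_side.1 hv).1 h0.symm)))

lemma Cut.rk_side (h : Cut V R T η) (hP : IsPoly V R) (hr : rk R V = 5) :
    rk R (side V η) = 5 := by
  obtain ⟨x, hx, hx'⟩ := h.pos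
  have h1 := rk_lt h.sub_side h.mem h.zero (mem_side.2 ⟨hx, hx'.le⟩) hx'.ne'
  have h2 := rk_mono (R := R) (side_subset (V := V) η)
  rw [rk_tetra hP h.sub h.card h.tri] at h1
  omega

lemma Cut.face_sub (h : Cut V R T η) (hP : IsPoly V R) (hX : X ⊆ T) (hne : X ≠ T) :
    IsFace V R X := by
  obtain ⟨t, ht, htX⟩ := exists_of_ssubset (lt_of_le_of_ne hX hne)
  have hi : Indep R T := indep_of_rk_eq ((rk_tetra hP h.sub h.card h.tri).trans h.card.symm)
  exact (h.tri t ht).of_indep (hi.mono (erase_subset t T)).rk_eq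
    (fun x hx => mem_erase.2 ⟨by rintro rfl; exact htX hx, hX hx⟩)

lemma Cut.face_of_side (h : Cut V R T η) (hP : IsPoly V R) (hr : rk R V = 5)
    (hX : IsFace (side V η) R X) (h1 : X ≠ T) (h2 : X ≠ side V η) : IsFace V R X := by
  by_cases hXT : X ⊆ T
  · exact h.face_sub hP hXT h1
  obtain ⟨x, hx, hxT⟩ := not_subset.1 hXT
  obtain ⟨φ, hφ, a1, a2⟩ := hX.exists_fun
  obtain ⟨hxV, hx0⟩ := mem_side.1 (hX.1 hx)
  have hx' : 0 < η x := lt_of_le_of_ne hx0 (fun h0 => hxT (h.mem_of_zero hP hr hxV h0.symm))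
  refine isFace_of_fun (hX.1.trans (side_subset η)) hφ a1 (fun v hv hvX => ?_)
  by_cases hs : 0 ≤ η v
  · exact a2 v (mem_side.2 ⟨hv, hs⟩) hvX
  by_contra hcon
  have := h.vanish hP hr hφ (fun t ht => by
    by_cases htX : t ∈ X
    · exact (a1 t htX).ge
    · exact (a2 t (h.sub_side ht) htX).le) hxV hv hx' (not_le.1 hs) (a1 x hx) (not_lt.1 hcon)
  obtain ⟨w, hw, hwX⟩ := exists_of_ssubset (lt_of_le_of_ne hX.1 h2)
  exact (a2 w hw hwX).ne' (this w (side_subset η hw))

lemma Cut.sub_or (h : Cut V R T η) (hP : IsPoly V R) (hr : rk R V = 5) (hX : IsFace V R X)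
    (hne : X ≠ V) : X ⊆ side V η ∨ X ⊆ side V (-η) := by
  by_contra hcon
  push Not at hcon
  obtain ⟨y, hy, hy'⟩ := not_subset.1 hcon.1
  obtain ⟨x, hx, hx'⟩ := not_subset.1 hcon.2
  simp only [mem_side, hX.1 hx, hX.1 hy, true_and, not_le, Pi.neg_apply] at hx' hy'
  obtain ⟨φ, hφ, a1, a2⟩ := hX.exists_fun
  have := h.vanish hP hr hφ (fun t ht => by
    by_cases htX : t ∈ X
    · exact (a1 t htX).ge
    · exact (a2 t (h.sub ht) htX).le) (hX.1 hx) (hX.1 hy) (by linarith) hy' (a1 x hx) (a1 y hy).le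
  obtain ⟨w, hw, hwX⟩ := exists_of_ssubset (lt_of_le_of_ne hX.1 hne)
  exact (a2 w hw hwX).ne' (this w hw)

lemma Cut.not_face (h : Cut V R T η) (hP : IsPoly V R) (hr : rk R V = 5) : ¬ IsFace V R T := by
  intro hT
  obtain ⟨φ, hφ, a1, a2⟩ := hT.exists_fun
  obtain ⟨x, hx, hx'⟩ := h.pos
  obtain ⟨y, hy, hy'⟩ := h.neg
  have hrT := rk_tetra hP h.sub h.card h.tri
  obtain ⟨d, hd⟩ := exists_mul (R := R) h.sub (by omega) (η := η) (φ := φ) ⟨h.mem, h.zero⟩
    ⟨hφ, a1⟩ hx hx'.ne'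
  have h1 := a2 x hx (fun hm => hx'.ne' (h.zero x hm))
  have h2 := a2 y hy (fun hm => hy'.ne (h.zero y hm))
  rw [hd x hx] at h1
  rw [hd y hy] at h2
  nlinarith [(mul_pos_iff_of_pos_right hx').1 h1]

lemma Cut.inter_faces (h : Cut V R T η) (hP : IsPoly V R) (hr : rk R V = 5) (k : ℕ) :
    faces (side V η) R k ∩ faces (side V (-η)) R k = powersetCard k T := by
  have hi : Indep R T := indep_of_rk_eq ((rk_tetra hP h.sub h.card h.tri).trans h.card.symm)
  ext X
  simp only [mem_inter, mem_faces, mem_powersetCard]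
  constructor
  · rintro ⟨⟨h1, h2⟩, h3, _⟩
    have hX : X ⊆ T := fun x hx => by
      have k1 := mem_side.1 (h1.1 hx)
      have k2 := (mem_side.1 (h3.1 hx)).2
      simp only [Pi.neg_apply] at k2
      exact h.mem_of_zero hP hr k1.1 (by linarith [k1.2])
    exact ⟨hX, by rw [← (hi.mono hX).rk_eq, h2]⟩
  · rintro ⟨h1, h2⟩
    have := (hi.mono h1).rk_eq
    exact ⟨⟨(hi.isFace h1).trans (h.face_T hP hr), by omega⟩,
      (hi.isFace h1).trans (h.symm.face_T hP hr), by omega⟩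

lemma Cut.union_faces (h : Cut V R T η) (hP : IsPoly V R) (hr : rk R V = 5) {k : ℕ}
    (hk : k ≤ 4) : faces (side V η) R k ∪ faces (side V (-η)) R k =
      faces V R k ∪ (if k = 4 then {T} else ∅) := by
  have hrT := rk_tetra hP h.sub h.card h.tri
  ext X
  simp only [mem_union, mem_faces]
  constructor
  · intro hX
    by_cases hXT : X = T
    · right
      have : k = 4 := by rcases hX with hX | hX <;> rw [← hX.2, hXT, hrT]
      simp [this, hXT]
    · left
      rcases hX with ⟨h1, h2⟩ | ⟨h1, h2⟩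
      · exact ⟨h.face_of_side hP hr h1 hXT (fun he => by
          rw [he, h.rk_side hP hr] at h2; omega), h2⟩
      · exact ⟨h.symm.face_of_side hP hr h1 hXT (fun he => by
          rw [he, h.symm.rk_side hP hr] at h2; omega), h2⟩
  · rintro (⟨h1, h2⟩ | hX)
    · rcases h.sub_or hP hr h1 (fun he => by rw [he, hr] at h2; omega) with h3 | h3
      · exact Or.inl ⟨h1.sub (side_subset _) h3, h2⟩
      · exact Or.inr ⟨h1.sub (side_subset _) h3, h2⟩
    · split_ifs at hX with hk4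
      · rw [mem_singleton.1 hX]
        exact Or.inl ⟨h.face_T hP hr, by omega⟩
      · simp at hX

lemma Cut.card_faces (h : Cut V R T η) (hP : IsPoly V R) (hr : rk R V = 5) {k : ℕ} (hk : k ≤ 4) :
    (faces (side V η) R k).card + (faces (side V (-η)) R k).card =
      (faces V R k).card + Nat.choose 4 k + (if k = 4 then 1 else 0) := by
  rw [← card_union_add_card_inter, h.inter_faces hP hr, h.union_faces hP hr hk,
    card_powersetCard, h.card]
  split_ifs with hk4
  · rw [card_union_of_disjoint, card_singleton]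
    · omega
    · rw [disjoint_singleton_right]
      exact fun hm => h.not_face hP hr (mem_faces.1 hm).1
  · simp

lemma exists_cut (hP : IsPoly V R) (hr : rk R V = 5) (hT : T ⊆ V) (hc : T.card = 4)
    (tri : ∀ t ∈ T, IsFace V R (T.erase t)) (hn : ¬ IsFace V R T) : ∃ η, Cut V R T η := by
  have hrT := rk_tetra hP hT hc tri
  have hns : ¬ Spans R T V := fun hs => by have := rk_le_of_spans hs; omega
  simp only [Spans, not_forall] at hns
  obtain ⟨η, hη, hz, y, hy, hy'⟩ := hns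
  have key : ∀ η ∈ R, (∀ t ∈ T, η t = 0) → ∀ y ∈ V, 0 < η y → ∃ x ∈ V, η x < 0 := by
    intro η hη hz y hy hy'
    by_contra hcon
    push Not at hcon
    have hF := isFace_zero hη hcon
    have hTF : T ⊆ V.filter (fun v => η v = 0) := fun t ht => mem_filter.2 ⟨hT ht, hz t ht⟩
    have h1 := rk_lt (filter_subset _ V) hη (fun v hv => (mem_filter.1 hv).2) hy hy'.ne'
    have h2 := (hP.sub hF.1).eq_of_simplex hTF (card_pos.1 (by omega)) (by omega) (by omega)
      (fun t ht => (tri t ht).sub hF.1 ((erase_subset t T).trans hTF))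
    exact hn (h2 ▸ hF)
  rcases lt_or_gt_of_ne hy' with h | h
  · obtain ⟨x, hx, hx'⟩ := key (-η) (R.neg_mem hη) (fun t ht => by simp [hz t ht]) y hy
      (by simpa using h)
    exact ⟨η, hT, hc, tri, hη, hz, ⟨x, hx, by simpa using hx'⟩, ⟨y, hy, h⟩⟩
  · exact ⟨η, hT, hc, tri, hη, hz, ⟨y, hy, h⟩, key η hη hz y hy h⟩

end Pool.Agent.P.MP_af6acb_co
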