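import Pool.Agent.P.MP_af6acb_co.Count
import Pool.Agent.P.MP_af6acb_co.Split

/-!
The fatness inequality, its equality case, and local structure in the equality case.
-/

namespace Pool.Agent.P.MP_af6acb_co

open Finset Module

set_option linter.unusedSectionVars false
set_option linter.unusedVariables false

variable {ι : Type} [DecidableEq ι] {R : Submodule ℝ (ι → ℝ)} {V X Y Z : Finset ι}

/-- All facets are simple. -/
def CB (V : Finset ι) (R : Submodule ℝ (ι → ℝ)) : Prop :=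
  ∀ F ∈ faces V R 4, ∀ v ∈ F, (nbr F R v).card = 3

/-- There is no empty tetrahedron. -/
def NoEmpty (V : Finset ι) (R : Submodule ℝ (ι → ℝ)) : Prop :=
  ∀ T ⊆ V, T.card = 4 → (∀ t ∈ T, IsFace V R (T.erase t)) → IsFace V R T

variable [FiniteDimensional ℝ R]

lemma sum_facets_ridges (hr : rk R V = 5) (g : Finset ι → ℕ) :
    ∑ F ∈ faces V R 4, ∑ σ ∈ faces F R 3, g σ = 2 * ∑ σ ∈ faces V R 3, g σ := by
  rw [sum_congr rfl (fun F hF => by rw [faces_sub (mem_faces.1 hF).1, sum_filter]), sum_comm,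
    mul_sum]
  refine sum_congr rfl (fun σ hσ => ?_)
  obtain ⟨h1, h2⟩ := mem_faces.1 hσ
  have := card_facets_of_ridge h1 (by omega)
  rw [h2] at this
  rw [← sum_filter, sum_const, this, smul_eq_mul]

lemma flag_facets (hP : IsPoly V R) (hr : rk R V = 5) :
    2 * ∑ σ ∈ faces V R 3, σ.card + 4 * (faces V R 4).card =
      2 * ∑ F ∈ faces V R 4, F.card + 4 * (faces V R 3).card := by
  have h1 := sum_congr rfl (fun F (hF : F ∈ faces V R 4) =>
    (hP.sub (mem_faces.1 hF).1.1).euler (mem_faces.1 hF).2)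
  rw [sum_add_distrib, sum_add_distrib, sum_facets_ridges hr, ← mul_sum, ← mul_sum,
    sum_congr rfl (fun F _ => card_eq_sum_ones (faces F R 3)), sum_facets_ridges hr] at h1
  simp only [sum_const, smul_eq_mul] at h1
  omega

lemma flag_deg (hP : IsPoly V R) (hr : rk R V = 5) :
    ∑ F ∈ faces V R 4, ∑ v ∈ F, (nbr F R v).card = 2 * ∑ σ ∈ faces V R 3, σ.card := by
  rw [← sum_facets_ridges hr]
  exact sum_congr rfl (fun F hF =>
    ((hP.sub (mem_faces.1 hF).1.1).sum_card_rk_four (mem_faces.1 hF).2).symm)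

lemma flag_vertices (hP : IsPoly V R) (hr : rk R V = 5) :
    ∑ F ∈ faces V R 4, ∑ v ∈ F, (nbr F R v).card + 4 * V.card =
      4 * (faces V R 2).card + 2 * ∑ F ∈ faces V R 4, F.card := by
  have h1 : ∀ v ∈ V, ∑ F ∈ (faces V R 4).filter (fun F => v ∈ F), (nbr F R v).card + 4 =
      2 * (nbr V R v).card + 2 * ((faces V R 4).filter (fun F => v ∈ F)).card := by
    intro v hv
    have h2 := hP.fig_rk_top hv
    have h3 := (hP.fig hv).euler (by omega)
    rw [hP.fig_sum hv 3, hP.fig_card hv 3] at h3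
    rw [← h3]
    congr 1
    refine sum_congr rfl (fun F hF => ?_)
    rw [nbr_face (mem_faces.1 (mem_filter.1 hF).1).1 (mem_filter.1 hF).2, inter_comm]
  have h4 := sum_congr rfl h1
  rw [sum_add_distrib, sum_add_distrib, ← mul_sum, ← mul_sum, hP.sum_card_nbr,
    ← sum_card_faces] at h4
  have h5 : ∑ v ∈ V, ∑ F ∈ (faces V R 4).filter (fun F => v ∈ F), (nbr F R v).card =
      ∑ F ∈ faces V R 4, ∑ v ∈ F, (nbr F R v).card := by
    rw [sum_congr rfl (fun v _ => sum_filter _ _), sum_comm]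
    refine sum_congr rfl (fun F hF => ?_)
    rw [← sum_filter, filter_mem_eq_inter, inter_eq_right.2 (mem_faces.1 hF).1.1]
  simp only [sum_const, smul_eq_mul] at h4
  omega

lemma three_le_nbr (hP : IsPoly V R) (hr : rk R V = 4) {v : ι} (hv : v ∈ V) :
    3 ≤ (nbr V R v).card := by
  have h1 := hP.fig_rk_top hv
  have h2 := rk_le_card (R := K R {v}) (nbr V R v)
  omega

lemma euler4 (hP : IsPoly V R) (hr : rk R V = 5) :
    V.card + (faces V R 3).card = (faces V R 2).card + (faces V R 4).card := by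
  have h1 := flag_facets hP hr
  have h2 := flag_deg hP hr
  have h3 := flag_vertices hP hr
  omega

/-- The fatness inequality and its equality case. -/
theorem fatness (hP : IsPoly V R) (hr : rk R V = 5) :
    5 * (V.card + (faces V R 4).card) ≤ 2 * ((faces V R 2).card + (faces V R 3).card) + 10 ∧
    (2 * ((faces V R 2).card + (faces V R 3).card) + 10 ≤ 5 * (V.card + (faces V R 4).card) →
      Tight V R ∧ CB V R) := by
  have h1 := flag_facets hP hr
  have h2 := flag_deg hP hr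
  have h3 := flag_vertices hP hr
  have h4 := hP.lower_bound hr
  have h5 : ∀ F ∈ faces V R 4, ∑ v ∈ F, 3 ≤ ∑ v ∈ F, (nbr F R v).card := fun F hF =>
    sum_le_sum (fun v hv => three_le_nbr (hP.sub (mem_faces.1 hF).1.1) (mem_faces.1 hF).2 hv)
  have h6 := sum_le_sum h5
  have h7 : ∑ F ∈ faces V R 4, ∑ v ∈ F, 3 = 3 * ∑ F ∈ faces V R 4, F.card := by
    simp [mul_sum, mul_comm]
  refine ⟨by omega, fun h => ⟨by unfold Tight; omega, fun F hF v hv => ?_⟩⟩
  have h8 := (sum_eq_sum_iff_of_le h5).1 (by omega) F hF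
  exact ((sum_eq_sum_iff_of_le (fun v hv => three_le_nbr (hP.sub (mem_faces.1 hF).1.1)
    (mem_faces.1 hF).2 hv)).1 h8 v hv).symm

lemma erase3 {a b c : ι} (hab : a ≠ b) (hac : a ≠ c) (hbc : b ≠ c) {P : Finset ι → Prop}
    (h1 : P {b, c}) (h2 : P {a, c}) (h3 : P {a, b}) :
    ∀ t ∈ ({a, b, c} : Finset ι), P (({a, b, c} : Finset ι).erase t) := by
  intro t ht
  simp only [mem_insert, mem_singleton] at ht
  rcases ht with rfl | rfl | rfl
  · rwa [show ({t, b, c} : Finset ι).erase t = {b, c} by ext; simp; grind]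
  · rwa [show ({a, t, c} : Finset ι).erase t = {a, c} by ext; simp; grind]
  · rwa [show ({a, b, t} : Finset ι).erase t = {a, b} by ext; simp; grind]

lemma erase4 {a b c d : ι} (hab : a ≠ b) (hac : a ≠ c) (had : a ≠ d) (hbc : b ≠ c) (hbd : b ≠ d)
    (hcd : c ≠ d) {P : Finset ι → Prop}
    (h1 : P {b, c, d}) (h2 : P {a, c, d}) (h3 : P {a, b, d}) (h4 : P {a, b, c}) :
    ∀ t ∈ ({a, b, c, d} : Finset ι), P (({a, b, c, d} : Finset ι).erase t) := by
  intro t ht
  simp only [mem_insert, mem_singleton] at ht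
  rcases ht with rfl | rfl | rfl | rfl
  · rwa [show ({t, b, c, d} : Finset ι).erase t = {b, c, d} by ext; simp; grind]
  · rwa [show ({a, t, c, d} : Finset ι).erase t = {a, c, d} by ext; simp; grind]
  · rwa [show ({a, b, t, d} : Finset ι).erase t = {a, b, d} by ext; simp; grind]
  · rwa [show ({a, b, c, t} : Finset ι).erase t = {a, b, c} by ext; simp; grind]

lemma card4 {a b c d : ι} (hab : a ≠ b) (hac : a ≠ c) (had : a ≠ d) (hbc : b ≠ c) (hbd : b ≠ d)
    (hcd : c ≠ d) : ({a, b, c, d} : Finset ι).card = 4 := by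
  rw [card_insert_of_notMem (by simp [hab, hac, had]),
    card_eq_three.2 ⟨b, c, d, hbc, hbd, hcd, rfl⟩]

lemma sub3 {a b c : ι} (ha : a ∈ X) (hb : b ∈ X) (hc : c ∈ X) : ({a, b, c} : Finset ι) ⊆ X :=
  insert_subset ha (insert_subset hb (singleton_subset_iff.2 hc))

/-- A 2-face with three mutually adjacent vertices is a triangle. -/
lemma tri_of (hP : IsPoly V R) {σ : Finset ι} (h1 : IsFace V R σ) (h2 : rk R σ = 3) {a b c : ι}
    (ha : a ∈ σ) (hb : b ∈ σ) (hc : c ∈ σ) (hab : b ∈ nbr V R a) (hac : c ∈ nbr V R a)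
    (hbc : c ∈ nbr V R b) : σ = {a, b, c} := by
  obtain ⟨_, n1, f1⟩ := mem_nbr.1 hab
  obtain ⟨_, n2, f2⟩ := mem_nbr.1 hac
  obtain ⟨_, n3, f3⟩ := mem_nbr.1 hbc
  have h3 := hP.rk_triple (h1.1 ha) (h1.1 hb) (h1.1 hc) n1.symm n2.symm n3.symm
  exact (hP.sub h1.1).eq_of_simplex (sub3 ha hb hc) (by simp)
    (by rw [h3, card_eq_three.2 ⟨a, b, c, n1.symm, n2.symm, n3.symm, rfl⟩]) (by omega)
    (erase3 n1.symm n2.symm n3.symm
      (f3.sub h1.1 (insert_subset hb (singleton_subset_iff.2 hc)))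
      (f2.sub h1.1 (insert_subset ha (singleton_subset_iff.2 hc)))
      (f1.sub h1.1 (insert_subset ha (singleton_subset_iff.2 hb))))

/-- At a vertex of degree three of a 3-polytope any two edges span a 2-face. -/
lemma ridge_of_deg_three (hP : IsPoly V R) (hr : rk R V = 4) {v a b : ι} (hv : v ∈ V)
    (h3 : (nbr V R v).card ≤ 3) (ha : a ∈ nbr V R v) (hb : b ∈ nbr V R v) (hab : a ≠ b) :
    ∃ σ, IsFace V R σ ∧ rk R σ = 3 ∧ v ∈ σ ∧ a ∈ σ ∧ b ∈ σ := by
  have h1 := hP.fig_rk_top hv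
  have h2 := three_le_nbr hP hr hv
  have hi : Indep (K R {v}) (nbr V R v) := indep_of_rk_eq (by omega)
  obtain ⟨σ, k1, k2, k3⟩ := hP.fig_surj hv
    (hi.isFace (insert_subset ha (singleton_subset_iff.2 hb)))
  have k4 := hP.fig_rk k1 k2
  rw [k3, (hP.fig hv).rk_pair ha hb hab.symm] at k4
  have ka : a ∈ σ ∩ nbr V R v := by rw [k3]; simp
  have kb : b ∈ σ ∩ nbr V R v := by rw [k3]; simp
  exact ⟨σ, k1, k4.symm, k2, (mem_inter.1 ka).1, (mem_inter.1 kb).1⟩

lemma triangle_face (hP : IsPoly V R) (hr : rk R V = 5) (ht : Tight V R) (hcb : CB V R)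
    {a b c : ι} (ha : a ∈ V) (hab : b ∈ nbr V R a) (hac : c ∈ nbr V R a)
    (hbc : c ∈ nbr V R b) : IsFace V R {a, b, c} := by
  obtain ⟨F, hF, h1, h2, h3⟩ := hP.edge_local hr ht ha
    (hP.insert_nbr_subset_cof (by omega) ha (mem_insert_of_mem hab))
    (hP.insert_nbr_subset_cof (by omega) ha (mem_insert_of_mem hac)) hbc
  obtain ⟨k1, k2⟩ := mem_faces.1 hF
  obtain ⟨σ, l1, l2, l3, l4, l5⟩ := ridge_of_deg_three (hP.sub k1.1) k2 h1 (hcb F hF a h1).le
    (a := b) (b := c) (by rw [nbr_face k1 h1]; exact mem_inter.2 ⟨hab, h2⟩)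
    (by rw [nbr_face k1 h1]; exact mem_inter.2 ⟨hac, h3⟩) (mem_nbr.1 hbc).2.1.symm
  have := tri_of hP (l1.trans k1) l2 l3 l4 l5 hab hac hbc
  exact this ▸ l1.trans k1

/-- The number of facets containing two given vertices. -/
noncomputable def val (V : Finset ι) (R : Submodule ℝ (ι → ℝ)) (v w : ι) : ℕ :=
  ((faces V R 4).filter (fun F => v ∈ F ∧ w ∈ F)).card

lemma val_comm (v w : ι) : val V R v w = val V R w v := by
  unfold val; congr 1; exact filter_congr (fun _ _ => and_comm)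

lemma val_eq (hP : IsPoly V R) (hr : rk R V = 5) {v w : ι} (hv : v ∈ V) (hw : w ∈ nbr V R v) :
    val V R v w = (nbr (nbr V R v) (K R {v}) w).card := by
  have h1 := hP.fig_rk_top hv
  rw [(hP.fig hv).card_nbr_rk_four (by omega) hw, card_filter, hP.fig_sum hv 3, ← card_filter,
    filter_filter, val]
  congr 1
  exact filter_congr (fun F _ => by simp [hw])

lemma simple_of_val (hP : IsPoly V R) (hr : rk R V = 5) (ht : Tight V R) (hcb : CB V R)
    (hne : NoEmpty V R) {v w : ι} (hv : v ∈ V) (hw : w ∈ nbr V R v) (h3 : val V R v w ≤ 3) :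
    (nbr V R v).card = 4 := by
  have hQ := hP.fig hv
  have hrQ : rk (K R {v}) (nbr V R v) = 4 := by have := hP.fig_rk_top hv; omega
  rw [val_eq hP hr hv hw] at h3
  have hc3 : ∀ τ, IsFace (nbr V R v) (K R {v}) τ → rk (K R {v}) τ = 3 → τ.card = 3 := by
    intro τ k1 k2
    obtain ⟨F, l1, l2, l3⟩ := hP.fig_surj hv k1
    have l4 := hP.fig_rk l1 l2
    rw [l3, k2] at l4
    rw [← l3, inter_comm, ← nbr_face l1 l2]
    exact hcb F (mem_faces.2 ⟨l1, l4.symm⟩) v l2
  obtain ⟨a, b, c, hab, hac, hbc, he⟩ := card_eq_three.1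
    (le_antisymm h3 (three_le_nbr hQ hrQ hw))
  have ma : a ∈ nbr (nbr V R v) (K R {v}) w := by rw [he]; simp
  have mb : b ∈ nbr (nbr V R v) (K R {v}) w := by rw [he]; simp
  have mc : c ∈ nbr (nbr V R v) (K R {v}) w := by rw [he]; simp
  have tri : ∀ {x y : ι}, x ∈ nbr (nbr V R v) (K R {v}) w → y ∈ nbr (nbr V R v) (K R {v}) w →
      x ≠ y → IsFace (nbr V R v) (K R {v}) {w, x, y} ∧
        ∃ σ, IsFace V R σ ∧ rk R σ = 3 ∧ v ∈ σ ∧ x ∈ σ ∧ y ∈ σ := by
    intro x y hx hy hxy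
    obtain ⟨τ, k1, k2, k3, k4, k5⟩ := ridge_of_deg_three hQ hrQ hw h3 hx hy hxy
    have k6 : τ = {w, x, y} := by
      symm
      apply eq_of_subset_of_card_le (sub3 k3 k4 k5)
      rw [hc3 τ k1 k2, card_eq_three.2 ⟨w, x, y, (mem_nbr.1 hx).2.1.symm,
        (mem_nbr.1 hy).2.1.symm, hxy, rfl⟩]
    refine ⟨k6 ▸ k1, ?_⟩
    obtain ⟨σ, l1, l2, l3⟩ := hP.fig_surj hv (k1.of_indep (by rw [k2, hc3 τ k1 k2])
      (insert_subset k4 (singleton_subset_iff.2 k5)))
    have l4 := hP.fig_rk l1 l2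
    rw [l3, hQ.rk_pair (k1.1 k4) (k1.1 k5) hxy.symm] at l4
    have ka : x ∈ σ ∩ nbr V R v := by rw [l3]; simp
    have kb : y ∈ σ ∩ nbr V R v := by rw [l3]; simp
    exact ⟨σ, l1, l4.symm, l2, (mem_inter.1 ka).1, (mem_inter.1 kb).1⟩
  obtain ⟨t1, s1, a1, a2, a3, a4, a5⟩ := tri ma mb hab
  obtain ⟨t2, s2, b1, b2, b3, b4, b5⟩ := tri ma mc hac
  obtain ⟨t3, s3, c1, c2, c3, c4, c5⟩ := tri mb mc hbc
  obtain ⟨na, wa, _⟩ := mem_nbr.1 ma
  obtain ⟨nb, wb, _⟩ := mem_nbr.1 mb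
  obtain ⟨nc, wc, _⟩ := mem_nbr.1 mc
  by_cases hA : IsFace (nbr V R v) (K R {v}) {a, b, c}
  · have hc4 := card4 wa.symm wb.symm wc.symm hab hac hbc
    have hsub : ({w, a, b, c} : Finset ι) ⊆ nbr V R v := insert_subset hw (sub3 na nb nc)
    have hall := erase4 wa.symm wb.symm wc.symm hab hac hbc hA t3 t2 t1
    have hr4 := rk_tetra hQ hsub hc4 hall
    rw [hQ.eq_of_simplex hsub (by simp) (by omega) (by omega) hall, hc4]
  · exfalso
    have nof : ∀ F ∈ faces V R 4, v ∈ F → a ∈ F → b ∈ F → c ∈ F → False := by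
      intro F hF h1 h2 h3 h4
      obtain ⟨k1, k2⟩ := mem_faces.1 hF
      have k3 := hP.fig_rk k1 h1
      have k4 := hP.fig_face k1 h1
      apply hA
      rw [show ({a, b, c} : Finset ι) = F ∩ nbr V R v from eq_of_subset_of_card_le
        (sub3 (mem_inter.2 ⟨h2, na⟩) (mem_inter.2 ⟨h3, nb⟩) (mem_inter.2 ⟨h4, nc⟩))
        (by rw [hc3 _ k4 (by omega), card_eq_three.2 ⟨a, b, c, hab, hac, hbc, rfl⟩])]
      exact k4
    have ebc : c ∈ nbr V R b := by
      by_contra h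
      obtain ⟨F, hF, k1, k2⟩ := hP.diag_local hr ht (a1.1 a4) (mem_cof.2 ⟨s1, a1, a2, a4, a5⟩)
        (mem_cof.2 ⟨s2, b1, b2, b4, b5⟩) hbc.symm h (mem_faces.2 ⟨c1, c2⟩) c4 c5
      exact nof F hF (k2 c3) k1 (k2 c4) (k2 c5)
    have eac : c ∈ nbr V R a := by
      by_contra h
      obtain ⟨F, hF, k1, k2⟩ := hP.diag_local hr ht (a1.1 a5) (mem_cof.2 ⟨s1, a1, a2, a5, a4⟩)
        (mem_cof.2 ⟨s3, c1, c2, c4, c5⟩) hac.symm h (mem_faces.2 ⟨b1, b2⟩) b4 b5
      exact nof F hF (k2 b3) (k2 b4) k1 (k2 b5)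
    have eab : b ∈ nbr V R a := by
      by_contra h
      obtain ⟨F, hF, k1, k2⟩ := hP.diag_local hr ht (b1.1 b5) (mem_cof.2 ⟨s2, b1, b2, b5, b4⟩)
        (mem_cof.2 ⟨s3, c1, c2, c5, c4⟩) hab.symm h (mem_faces.2 ⟨a1, a2⟩) a4 a5
      exact nof F hF (k2 a3) (k2 a4) (k2 a5) k1
    have va := (mem_nbr.1 na).2.1.symm
    have vb := (mem_nbr.1 nb).2.1.symm
    have vc := (mem_nbr.1 nc).2.1.symm
    have hc4 := card4 va vb vc hab hac hbc
    have hsub : ({v, a, b, c} : Finset ι) ⊆ V :=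
      insert_subset hv (sub3 (a1.1 a4) (a1.1 a5) (b1.1 b5))
    have hall := erase4 va vb vc hab hac hbc
      (triangle_face hP hr ht hcb (a1.1 a4) eab eac ebc)
      (triangle_face hP hr ht hcb hv nb nc ebc)
      (triangle_face hP hr ht hcb hv na nc eac)
      (triangle_face hP hr ht hcb hv na nb eab)
    exact nof _ (mem_faces.2 ⟨hne _ hsub hc4 hall, rk_tetra hP hsub hc4 hall⟩) (by simp)
      (by simp) (by simp) (by simp)

lemma Indep.faces_eq (h : Indep R Y) (k : ℕ) : faces Y R k = powersetCard k Y := by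
  ext X
  rw [mem_faces, mem_powersetCard]
  constructor
  · rintro ⟨h1, h2⟩
    exact ⟨h1.1, by rw [← (h.mono h1.1).rk_eq, h2]⟩
  · rintro ⟨h1, h2⟩
    exact ⟨h.isFace h1, by rw [(h.mono h1).rk_eq, h2]⟩

/-- One edge in three facets makes the whole polytope simple. -/
theorem simple_all (hP : IsPoly V R) (hr : rk R V = 5) (ht : Tight V R) (hcb : CB V R)
    (hne : NoEmpty V R) {v w : ι} (hv : v ∈ V) (hw : w ∈ nbr V R v) (h3 : val V R v w ≤ 3) :
    ∀ u ∈ V, (nbr V R u).card = 4 ∧ ((faces V R 4).filter (fun F => u ∈ F)).card = 4 := by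
  have := hP.conn (T := V.filter (fun u => (nbr V R u).card = 4)) (filter_subset _ _)
    ⟨v, mem_filter.2 ⟨hv, simple_of_val hP hr ht hcb hne hv hw h3⟩⟩ (fun u hu x hx => by
      obtain ⟨h1, h2⟩ := mem_filter.1 hu
      refine mem_filter.2 ⟨nbr_subset u hx,
        simple_of_val hP hr ht hcb hne (nbr_subset u hx) (nbr_symm h1 hx) ?_⟩
      rw [val_comm, val_eq hP hr h1 hx]
      have k1 : nbr (nbr V R u) (K R {u}) x ⊆ (nbr V R u).erase x := fun y hy =>
        mem_erase.2 ⟨(mem_nbr.1 hy).2.1, (mem_nbr.1 hy).1⟩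
      have k2 := card_le_card k1
      rw [card_erase_of_mem hx] at k2
      omega)
  intro u hu
  have h1 := (mem_filter.1 (this u hu)).2
  have h2 := hP.fig_rk_top hu
  refine ⟨h1, ?_⟩
  rw [← hP.fig_card hu 3, (indep_of_rk_eq (by omega)).faces_eq, card_powersetCard, h1]
  rfl

end Pool.Agent.P.MP_af6acb_co
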