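import Pool.Agent.P.MP_af6acb_co.Faces

/-!
Vertices, edges, neighbours, vertex figures and simplices of polytopal configurations.
-/

namespace Pool.Agent.P.MP_af6acb_co

open Finset Module

set_option linter.unusedSectionVars false
set_option linter.unusedVariables false

variable {ι : Type} [DecidableEq ι] {R : Submodule ℝ (ι → ℝ)} {V X Y Z : Finset ι}

lemma IsPoly.exists_ell (hP : IsPoly V R) : ∃ l ∈ R, ∀ v ∈ V, 0 < l v := by
  obtain ⟨φ, hφ, _, a2⟩ := hP.empty.exists_fun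
  exact ⟨φ, hφ, fun v hv => a2 v hv (notMem_empty v)⟩

lemma IsPoly.exists_vfun (hP : IsPoly V R) {v : ι} (hv : v ∈ V) :
    ∃ a ∈ R, a v = 0 ∧ ∀ w ∈ V, w ≠ v → 0 < a w := by
  obtain ⟨φ, hφ, a1, a2⟩ := (hP.single v hv).exists_fun
  exact ⟨φ, hφ, a1 v (mem_singleton_self v), fun w hw hne => a2 w hw (by simpa using hne)⟩

lemma nbr_subset (v : ι) : nbr V R v ⊆ V := fun _ hw => (mem_nbr.1 hw).1

lemma nbr_symm {v w : ι} (hv : v ∈ V) (h : w ∈ nbr V R v) : v ∈ nbr V R w := by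
  obtain ⟨_, h2, h3⟩ := mem_nbr.1 h
  exact mem_nbr.2 ⟨hv, h2.symm, by rwa [pair_comm]⟩

lemma nbr_face (hY : IsFace V R Y) {v : ι} (hv : v ∈ Y) : nbr Y R v = nbr V R v ∩ Y := by
  ext w
  simp only [mem_nbr, mem_inter]
  constructor
  · rintro ⟨h1, h2, h3⟩
    exact ⟨⟨hY.1 h1, h2, h3.trans hY⟩, h1⟩
  · rintro ⟨⟨_, h2, h3⟩, h4⟩
    exact ⟨h4, h2, h3.sub hY.1 (insert_subset hv (singleton_subset_iff.2 h4))⟩

variable [FiniteDimensional ℝ R]

lemma IsPoly.rk_single (hP : IsPoly V R) {v : ι} (hv : v ∈ V) : rk R {v} = 1 := by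
  have := hP.empty.rk_insert hv (notMem_empty v)
  rw [rk_empty] at this
  simpa using this

lemma IsPoly.rk_pair (hP : IsPoly V R) {v w : ι} (hv : v ∈ V) (hw : w ∈ V) (hne : w ≠ v) :
    rk R {v, w} = 2 := by
  have := (hP.single v hv).rk_insert hw (by simpa using hne)
  rw [hP.rk_single hv] at this
  rw [pair_comm]; exact this

lemma IsPoly.rk_triple (hP : IsPoly V R) {u v w : ι} (hu : u ∈ V) (hv : v ∈ V) (hw : w ∈ V)
    (huv : u ≠ v) (huw : u ≠ w) (hvw : v ≠ w) : rk R {u, v, w} = 3 := by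
  have h1 := rk_le_card (R := R) {u, v, w}
  have h2 : ({u, v, w} : Finset ι).card ≤ 3 := card_le_three
  by_contra hne
  obtain ⟨a1, ha1, b1, c1⟩ := hP.exists_vfun hu
  obtain ⟨a2, ha2, b2, c2⟩ := hP.exists_vfun hv
  obtain ⟨a3, ha3, b3, c3⟩ := hP.exists_vfun hw
  obtain ⟨α, hα, hrel⟩ := exists_rel (R := R) (d := 2) (X := ∅) (Y := {u, v, w}) (empty_subset _)
    (by rw [rk_empty]; omega) ![a1, a2, a3] (by
      intro i; rw [K_empty]; fin_cases i
      · exact ha1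
      · exact ha2
      · exact ha3)
  replace hrel : ∀ y ∈ ({u, v, w} : Finset ι), α 0 * a1 y + α 1 * a2 y + α 2 * a3 y = 0 :=
    fun y hy => by
      have := hrel y hy
      simp only [Fin.sum_univ_succ] at this
      simp at this
      linarith
  have e1 := hrel u (by simp)
  have e2 := hrel v (by simp)
  have e3 := hrel w (by simp)
  rw [b1] at e1
  rw [b2] at e2
  rw [b3] at e3
  obtain ⟨d0, d1, d2⟩ := no_rel3 (a := α 0) (b := α 1) (c := α 2)
    (c1 v hv huv.symm) (c1 w hw huw.symm) (c2 u hu huv) (c2 w hw hvw.symm) (c3 u hu huw)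
    (c3 v hv hvw) (by linarith) (by linarith) (by linarith)
  apply hα
  funext i; fin_cases i
  · exact d0
  · exact d1
  · exact d2

lemma IsPoly.indep_triple (hP : IsPoly V R) {u v w : ι} (hu : u ∈ V) (hv : v ∈ V) (hw : w ∈ V)
    (huv : u ≠ v) (huw : u ≠ w) (hvw : v ≠ w) : Indep R {u, v, w} := by
  apply indep_of_rk_eq
  rw [hP.rk_triple hu hv hw huv huw hvw, card_eq_three.2 ⟨u, v, w, huv, huw, hvw, rfl⟩]

lemma IsPoly.card_le_of_rk_le_two (hP : IsPoly V R) (hX : X ⊆ V) (hr : rk R X ≤ 2) :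
    X.card ≤ 2 := by
  by_contra h
  push Not at h
  obtain ⟨u, v, w, hu, hv, hw, huv, huw, hvw⟩ := two_lt_card_iff.1 h
  have h1 := hP.rk_triple (hX hu) (hX hv) (hX hw) huv huw hvw
  have h2 : rk R {u, v, w} ≤ rk R X := rk_mono (by
    intro x hx; simp only [mem_insert, mem_singleton] at hx
    rcases hx with rfl | rfl | rfl <;> assumption)
  omega

lemma IsPoly.card_of_rk_two (hP : IsPoly V R) (hX : X ⊆ V) (hr : rk R X = 2) : X.card = 2 := by
  have h1 := hP.card_le_of_rk_le_two hX hr.le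
  have h2 := rk_le_card (R := R) X
  omega

lemma IsPoly.card_of_rk_one (hP : IsPoly V R) (hX : X ⊆ V) (hr : rk R X = 1) : X.card = 1 := by
  have h2 := rk_le_card (R := R) X
  by_contra h
  obtain ⟨u, v, hu, hv, huv⟩ := one_lt_card_iff.1 (by omega : 1 < X.card)
  have h1 := hP.rk_pair (hX hu) (hX hv) huv.symm
  have h3 : rk R {u, v} ≤ rk R X := rk_mono (insert_subset hu (singleton_subset_iff.2 hv))
  omega

lemma IsPoly.faces_one (hP : IsPoly V R) : faces V R 1 = V.image (fun v => {v}) := by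
  ext X
  rw [mem_faces, mem_image]
  constructor
  · rintro ⟨h1, h2⟩
    obtain ⟨v, rfl⟩ := card_eq_one.1 (hP.card_of_rk_one h1.1 h2)
    exact ⟨v, h1.1 (mem_singleton_self v), rfl⟩
  · rintro ⟨v, hv, rfl⟩
    exact ⟨hP.single v hv, hP.rk_single hv⟩

lemma IsPoly.card_faces_one (hP : IsPoly V R) : (faces V R 1).card = V.card := by
  rw [hP.faces_one, card_image_of_injective _ singleton_injective]

lemma IsPoly.edge_eq (hP : IsPoly V R) (hX : IsFace V R X) (hr : rk R X = 2) {v : ι}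
    (hv : v ∈ X) : ∃ w ∈ nbr V R v, X = {v, w} := by
  obtain ⟨a, b, hab, rfl⟩ := card_eq_two.1 (hP.card_of_rk_two hX.1 hr)
  rcases mem_insert.1 hv with rfl | hv
  · exact ⟨b, mem_nbr.2 ⟨hX.1 (by simp), hab.symm, hX⟩, rfl⟩
  · rw [mem_singleton.1 hv]
    exact ⟨a, mem_nbr.2 ⟨hX.1 (by simp), hab, by rwa [pair_comm]⟩, pair_comm _ _⟩

lemma IsPoly.edge_mem (hP : IsPoly V R) {v w : ι} (hv : v ∈ V) (hw : w ∈ nbr V R v) :
    ({v, w} : Finset ι) ∈ faces V R 2 := by
  obtain ⟨h1, h2, h3⟩ := mem_nbr.1 hw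
  exact mem_faces.2 ⟨h3, hP.rk_pair hv h1 h2⟩

/-- A face of rank at most two containing two distinct vertices is the edge on them. -/
lemma IsPoly.eq_pair (hP : IsPoly V R) (hX : X ⊆ V) (hr : rk R X ≤ 2) {v w : ι} (hv : v ∈ X)
    (hw : w ∈ X) (hne : w ≠ v) : X = {v, w} := by
  symm
  apply eq_of_subset_of_card_le (insert_subset hv (singleton_subset_iff.2 hw))
  rw [card_pair hne.symm]
  exact hP.card_le_of_rk_le_two hX hr

lemma IsPoly.pos_of_nbr (hP : IsPoly V R) {v : ι} (hv : v ∈ V) {φ : ι → ℝ} (hφ : φ ∈ R)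
    (h0 : φ v = 0) (h : ∀ w ∈ nbr V R v, 0 < φ w) : ∀ w ∈ V, w ≠ v → 0 < φ w := by
  intro w hw hne
  refine (hP.single v hv).pos_of_atoms hφ (by simpa using h0) (fun Z hZ h1 h2 => ?_) w hw
    (by simpa using hne)
  rw [hP.rk_single hv] at h2
  obtain ⟨z, hz, rfl⟩ := hP.edge_eq hZ h2 (h1 (mem_singleton_self v))
  exact ⟨z, by simp, h z hz⟩

lemma IsPoly.nonneg_of_nbr (hP : IsPoly V R) {v : ι} (hv : v ∈ V) {φ : ι → ℝ} (hφ : φ ∈ R)
    (h0 : φ v = 0) (h : ∀ w ∈ nbr V R v, 0 ≤ φ w) : ∀ w ∈ V, 0 ≤ φ w := by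
  intro w hw
  by_cases hne : w = v
  · rw [hne, h0]
  obtain ⟨a, ha, a0, a1⟩ := hP.exists_vfun hv
  by_contra hneg
  push Not at hneg
  have haw := a1 w hw hne
  have := hP.pos_of_nbr hv (R.add_mem hφ (R.smul_mem (-φ w / a w) ha)) (by simp [h0, a0])
    (fun z hz => by
      have h1 := h z hz
      have h2 := a1 z (mem_nbr.1 hz).1 (mem_nbr.1 hz).2.1
      have h3 : 0 < -φ w / a w := div_pos (by linarith) haw
      simp only [Pi.add_apply, Pi.smul_apply, smul_eq_mul]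
      positivity) w hw hne
  simp only [Pi.add_apply, Pi.smul_apply, smul_eq_mul] at this
  rw [div_mul_cancel₀ _ haw.ne'] at this
  linarith

lemma IsPoly.spans_nbr (hP : IsPoly V R) {v : ι} (hv : v ∈ V) :
    Spans R (insert v (nbr V R v)) V := by
  intro φ hφ hz w hw
  have h0 := hz v (mem_insert_self _ _)
  have h1 := hP.nonneg_of_nbr hv hφ h0 (fun z hz' => (hz z (mem_insert_of_mem hz')).ge) w hw
  have h2 := hP.nonneg_of_nbr hv (R.neg_mem hφ) (by simp [h0])
    (fun z hz' => by simp [hz z (mem_insert_of_mem hz')]) w hw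
  simp only [Pi.neg_apply] at h2
  linarith

/-- An increasing edge leaves every vertex that is not a maximiser of `h / l`. -/
lemma IsPoly.exists_up (hP : IsPoly V R) {h l : ι → ℝ} (hh : h ∈ R) (hl : l ∈ R) {u y : ι}
    (hu : u ∈ V) (hy : y ∈ V) (hlt : h u * l y < h y * l u) :
    ∃ w ∈ nbr V R u, h u * l w < h w * l u := by
  by_contra hcon
  push Not at hcon
  have := hP.nonneg_of_nbr hu (R.sub_mem (R.smul_mem (h u) hl) (R.smul_mem (l u) hh))
    (by simp [mul_comm]) (fun w hw => by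
      have := hcon w hw
      simp only [Pi.sub_apply, Pi.smul_apply, smul_eq_mul]; linarith) y hy
  simp only [Pi.sub_apply, Pi.smul_apply, smul_eq_mul] at this
  linarith

/-- A set closed under increasing edges contains a global maximiser. -/
lemma IsPoly.exists_top (hP : IsPoly V R) {h l : ι → ℝ} (hh : h ∈ R) (hl : l ∈ R)
    (hpos : ∀ v ∈ V, 0 < l v) {T : Finset ι} (hT : T ⊆ V) (hne : T.Nonempty)
    (hcl : ∀ u ∈ T, ∀ w ∈ nbr V R u, h u * l w < h w * l u → w ∈ T) :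
    ∃ t ∈ T, ∀ y ∈ V, h y * l t ≤ h t * l y := by
  obtain ⟨t, ht, hmax⟩ := exists_max_image T (fun v => h v / l v) hne
  refine ⟨t, ht, fun y hy => ?_⟩
  by_contra hcon
  push Not at hcon
  obtain ⟨w, hw, hlt⟩ := hP.exists_up hh hl (hT ht) hy hcon
  have h1 := hmax w (hcl t ht w hw hlt)
  rw [div_le_div_iff₀ (hpos w (nbr_subset t hw)) (hpos t (hT ht))] at h1
  linarith

/-- The edge graph is connected. -/
lemma IsPoly.conn (hP : IsPoly V R) {T : Finset ι} (hT : T ⊆ V) (hne : T.Nonempty)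
    (hcl : ∀ u ∈ T, ∀ w ∈ nbr V R u, w ∈ T) : ∀ t ∈ V, t ∈ T := by
  intro t ht
  obtain ⟨l, hl, hpos⟩ := hP.exists_ell
  obtain ⟨a, ha, a0, a1⟩ := hP.exists_vfun ht
  obtain ⟨s, hs, hmax⟩ := hP.exists_top (R.neg_mem ha) hl hpos hT hne
    (fun u hu w hw _ => hcl u hu w hw)
  by_contra hcon
  have h1 := hmax t ht
  have h2 := a1 s (hT hs) (by rintro rfl; exact hcon hs)
  have h3 := hpos t ht
  simp only [Pi.neg_apply, a0] at h1
  nlinarith

/-- The edge graph minus a vertex is connected. -/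
lemma IsPoly.conn_erase (hP : IsPoly V R) {c : ι} (hc : c ∈ V) {T : Finset ι} (hT : T ⊆ V)
    (hne : T.Nonempty) (hcl : ∀ u ∈ T, ∀ w ∈ nbr V R u, w ≠ c → w ∈ T) :
    ∀ t ∈ V, t ≠ c → t ∈ T := by
  intro t ht htc
  obtain ⟨a, ha, a0, a1⟩ := hP.exists_vfun ht
  obtain ⟨b, hb, b0, b1⟩ := hP.exists_vfun hc
  have hann : ∀ v ∈ V, 0 ≤ a v := fun v hv => by
    by_cases h : v = t
    · rw [h, a0]
    · exact (a1 v hv h).le
  have hbnn : ∀ v ∈ V, 0 ≤ b v := fun v hv => by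
    by_cases h : v = c
    · rw [h, b0]
    · exact (b1 v hv h).le
  have hpos : ∀ v ∈ V, 0 < (a + b) v := fun v hv => by
    simp only [Pi.add_apply]
    by_cases h : v = t
    · have := b1 v hv (h ▸ htc); have := hann v hv; linarith
    · have := a1 v hv h; have := hbnn v hv; linarith
  obtain ⟨s, hs, hmax⟩ := hP.exists_top hb (R.add_mem ha hb) hpos hT hne
    (fun u hu w hw hlt => hcl u hu w hw (by
      rintro rfl
      have h1 := hbnn u (hT hu)
      have h2 := hpos w hc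
      rw [b0] at hlt
      nlinarith))
  by_contra hcon
  have h1 := hmax t ht
  have h2 := a1 s (hT hs) (by rintro rfl; exact hcon hs)
  have h3 := b1 t ht htc
  simp only [Pi.add_apply, a0] at h1
  nlinarith

/-! ### Vertex figures -/

lemma IsPoly.fig_face (hP : IsPoly V R) {v : ι} (hX : IsFace V R X) (hv : v ∈ X) :
    IsFace (nbr V R v) (K R {v}) (X ∩ nbr V R v) := by
  obtain ⟨φ, hφ, a1, a2⟩ := hX.exists_fun
  exact isFace_of_fun inter_subset_right ⟨hφ, by simpa using a1 v hv⟩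
    (fun w hw => a1 w (mem_inter.1 hw).1)
    (fun w hw hw' => a2 w (nbr_subset v hw) (fun h => hw' (mem_inter.2 ⟨h, hw⟩)))

lemma IsPoly.fig_rk (hP : IsPoly V R) {v : ι} (hX : IsFace V R X) (hv : v ∈ X) :
    rk (K R {v}) (X ∩ nbr V R v) + 1 = rk R X := by
  have h1 := rk_K (R := R) {v} (X ∩ nbr V R v)
  rw [hP.rk_single (hX.1 hv)] at h1
  rw [h1]
  apply le_antisymm
  · exact rk_mono (union_subset (singleton_subset_iff.2 hv) inter_subset_left)
  · apply rk_le_of_spans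
    have := (hP.sub hX.1).spans_nbr hv
    rwa [nbr_face hX hv, inter_comm, insert_eq] at this

lemma IsPoly.fig_surj (hP : IsPoly V R) {v : ι} (hv : v ∈ V)
    (hZ : IsFace (nbr V R v) (K R {v}) Z) : ∃ X, IsFace V R X ∧ v ∈ X ∧ X ∩ nbr V R v = Z := by
  classical
  obtain ⟨hZ1, φ, hφ, a1, a2⟩ := hZ
  have h0 : φ v = 0 := hφ.2 v (mem_singleton_self v)
  refine ⟨_, isFace_zero hφ.1 (hP.nonneg_of_nbr hv hφ.1 h0 a1), mem_filter.2 ⟨hv, h0⟩, ?_⟩
  ext w
  simp only [mem_inter, mem_filter]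
  constructor
  · rintro ⟨⟨_, h2⟩, h3⟩
    exact (a2 w h3).1 h2
  · intro hw
    exact ⟨⟨nbr_subset v (hZ1 hw), (a2 w (hZ1 hw)).2 hw⟩, hZ1 hw⟩

lemma IsPoly.fig_sub (hP : IsPoly V R) {v : ι} (hX : IsFace V R X) (hv : v ∈ X)
    (hY : IsFace V R Y) (hvY : v ∈ Y) (h : X ∩ nbr V R v ⊆ Y) : X ⊆ Y := by
  obtain ⟨φ, hφ, a1, a2⟩ := hY.exists_fun
  intro x hx
  by_contra hxY
  have := (hP.sub hX.1).spans_nbr hv φ hφ (fun w hw => by
    rcases mem_insert.1 hw with rfl | hw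
    · exact a1 _ hvY
    · rw [nbr_face hX hv, inter_comm] at hw
      exact a1 w (h hw)) x hx
  exact (a2 x (hX.1 hx) hxY).ne' this

lemma IsPoly.fig (hP : IsPoly V R) {v : ι} (hv : v ∈ V) : IsPoly (nbr V R v) (K R {v}) := by
  constructor
  · have := hP.fig_face (hP.single v hv) (mem_singleton_self v)
    rwa [singleton_inter_of_notMem (fun h => (mem_nbr.1 h).2.1 rfl)] at this
  · intro w hw
    have := hP.fig_face (mem_nbr.1 hw).2.2 (mem_insert_self v {w})
    rwa [insert_inter_of_notMem (fun h => (mem_nbr.1 h).2.1 rfl),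
      singleton_inter_of_mem hw] at this

lemma IsPoly.fig_rk_top (hP : IsPoly V R) {v : ι} (hv : v ∈ V) :
    rk (K R {v}) (nbr V R v) + 1 = rk R V := by
  have := hP.fig_rk (isFace_self V R) hv
  rwa [inter_eq_right.2 (nbr_subset v)] at this

/-- Sums over the faces of a vertex figure are sums over faces through the vertex. -/
lemma IsPoly.fig_sum (hP : IsPoly V R) {v : ι} (hv : v ∈ V) (k : ℕ) {M : Type}
    [AddCommMonoid M] (g : Finset ι → M) :
    ∑ Z ∈ faces (nbr V R v) (K R {v}) k, g Z =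
      ∑ X ∈ (faces V R (k + 1)).filter (fun X => v ∈ X), g (X ∩ nbr V R v) := by
  symm
  refine sum_bij (fun X _ => X ∩ nbr V R v) (fun X hX => ?_) (fun X hX Y hY he => ?_)
    (fun Z hZ => ?_) (fun _ _ => rfl)
  · obtain ⟨h1, h2⟩ := mem_filter.1 hX
    obtain ⟨h3, h4⟩ := mem_faces.1 h1
    have := hP.fig_rk h3 h2
    exact mem_faces.2 ⟨hP.fig_face h3 h2, by omega⟩
  · obtain ⟨h1, h2⟩ := mem_filter.1 hX
    obtain ⟨h3, h4⟩ := mem_filter.1 hY
    exact Subset.antisymm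
      (hP.fig_sub (mem_faces.1 h1).1 h2 (mem_faces.1 h3).1 h4 (he ▸ inter_subset_left))
      (hP.fig_sub (mem_faces.1 h3).1 h4 (mem_faces.1 h1).1 h2 (he ▸ inter_subset_left))
  · obtain ⟨h1, h2⟩ := mem_faces.1 hZ
    obtain ⟨X, hX, hvX, he⟩ := hP.fig_surj hv h1
    have := hP.fig_rk hX hvX
    rw [he] at this
    exact ⟨X, mem_filter.2 ⟨mem_faces.2 ⟨hX, by omega⟩, hvX⟩, he⟩

lemma IsPoly.fig_card (hP : IsPoly V R) {v : ι} (hv : v ∈ V) (k : ℕ) :
    (faces (nbr V R v) (K R {v}) k).card = ((faces V R (k + 1)).filter (fun X => v ∈ X)).card := by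
  rw [card_eq_sum_ones, card_eq_sum_ones, hP.fig_sum hv k (fun _ => 1)]

lemma faces_sub (hY : IsFace V R Y) (k : ℕ) :
    faces Y R k = (faces V R k).filter (fun X => X ⊆ Y) := by
  ext X
  simp only [mem_filter, mem_faces]
  exact ⟨fun h => ⟨⟨h.1.trans hY, h.2⟩, h.1.1⟩, fun h => ⟨h.1.1.sub hY.1 h.2, h.1.2⟩⟩

/-! ### Simplices -/

lemma Indep.isFace (h : Indep R Y) (hX : X ⊆ Y) : IsFace Y R X := by
  obtain ⟨e, he, hd⟩ := h.exists_dual
  have key : ∀ v ∈ Y, (∑ b ∈ Y \ X, e b) v = if v ∈ X then 0 else 1 := by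
    intro v hv
    rw [Finset.sum_apply, sum_congr rfl (fun b hb => hd b (mem_sdiff.1 hb).1 v hv)]
    by_cases h : v ∈ X <;> simp [h, hv]
  refine isFace_of_fun (φ := ∑ b ∈ Y \ X, e b) hX (R.sum_mem fun b _ => he b) (fun v hv => ?_) (fun v hv hv' => ?_)
  · rw [key v (hX hv), if_pos hv]
  · rw [key v hv, if_neg hv']; exact one_pos

lemma IsFace.of_indep (hY : IsFace V R Y) (h : rk R Y = Y.card) (hX : X ⊆ Y) : IsFace V R X :=
  ((indep_of_rk_eq h).isFace hX).trans hY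

/-- The coordinates of a point with respect to a simplex whose boundary facets are faces are
positive: version for a positive combination of two points. -/
lemma coord_pos {B : Finset ι} {e : ι → ι → ℝ} (he : ∀ b, e b ∈ R)
    (hd : ∀ b ∈ B, ∀ b' ∈ B, e b b' = if b' = b then 1 else 0) (hBV : B ⊆ V) {b : ι} (hb : b ∈ B)
    (hf : IsFace V R (B.erase b)) {x y : ι} (hx : x ∈ V) (hxB : x ∉ B) (hy : y ∈ V) (hyB : y ∉ B)
    {p q : ℝ} (hp : 0 < p) (hq : 0 ≤ q)
    (hexp : ∀ φ ∈ R, p * φ x + q * φ y = ∑ c ∈ B, φ c * (p * e c x + q * e c y)) :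
    0 < p * e b x + q * e b y := by
  obtain ⟨a, ha, a1, a2⟩ := hf.exists_fun
  have h1 := hexp a ha
  rw [sum_eq_single b (fun c hc hne => by rw [a1 c (mem_erase.2 ⟨hne, hc⟩), zero_mul])
    (fun h => absurd hb h)] at h1
  have h2 := a2 x hx (fun h => hxB (mem_of_mem_erase h))
  have h3 := a2 y hy (fun h => hyB (mem_of_mem_erase h))
  have h4 := a2 b (hBV hb) (notMem_erase b B)
  have h5 : 0 < p * a x + q * a y := by positivity
  by_contra hcon
  push Not at hcon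
  nlinarith

/-- If all facets of a spanning simplex on vertices are faces then there are no more vertices. -/
lemma IsPoly.eq_of_simplex (hP : IsPoly V R) {B : Finset ι} (hBV : B ⊆ V) (hne : B.Nonempty)
    (hB : rk R B = B.card) (hr : rk R V ≤ rk R B) (hf : ∀ b ∈ B, IsFace V R (B.erase b)) :
    V = B := by
  refine Subset.antisymm (fun u hu => ?_) hBV
  by_contra huB
  obtain ⟨e, he, hd⟩ := (indep_of_rk_eq hB).exists_dual
  have hs := spans_of_rk_le hBV hr
  have hc : ∀ b ∈ B, 0 < e b u := by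
    intro b hb
    have := coord_pos he hd hBV hb (hf b hb) hu huB hu huB one_pos le_rfl (fun φ hφ => by
      simpa using expand he hd hs hφ hu)
    simpa using this
  obtain ⟨a, ha, a0, a1⟩ := hP.exists_vfun hu
  have h1 := expand he hd hs ha hu
  have h2 : 0 < ∑ b ∈ B, a b * e b u := sum_pos (fun b hb =>
    mul_pos (a1 b (hBV hb) (by rintro rfl; exact huB hb)) (hc b hb)) hne
  linarith

/-! ### Perturbation -/

lemma exists_pert {J : Type} (S : Finset J) (α β : J → ℝ) :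
    ∃ ε : ℝ, 0 < ε ∧ ∀ j ∈ S, (0 < α j → 0 < α j + ε * β j) ∧ (α j < 0 → α j + ε * β j < 0) ∧
      (β j ≠ 0 → α j + ε * β j ≠ 0) := by
  have hc : ∀ j, Filter.Tendsto (fun ε : ℝ => α j + ε * β j) (nhdsWithin 0 (Set.Ioi 0))
      (nhds (α j)) := by
    intro j
    have : Continuous (fun ε : ℝ => α j + ε * β j) := by fun_prop
    have h2 := (this.tendsto 0).mono_left (nhdsWithin_le_nhds (s := Set.Ioi 0))
    simpa using h2
  have h1 : ∀ j, ∀ᶠ ε in nhdsWithin (0 : ℝ) (Set.Ioi 0),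
      (0 < α j → 0 < α j + ε * β j) ∧ (α j < 0 → α j + ε * β j < 0) ∧
      (β j ≠ 0 → α j + ε * β j ≠ 0) := by
    intro j
    rcases lt_trichotomy (α j) 0 with h | h | h
    · filter_upwards [(hc j).eventually (gt_mem_nhds h)] with ε hε
      exact ⟨fun h' => absurd h' h.not_gt, fun _ => hε, fun _ => hε.ne⟩
    · filter_upwards [self_mem_nhdsWithin] with ε hε
      refine ⟨fun h' => absurd h' (by simp [h]), fun h' => absurd h' (by simp [h]), fun hb => ?_⟩
      rw [h, zero_add]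
      exact mul_ne_zero (ne_of_gt hε) hb
    · filter_upwards [(hc j).eventually (lt_mem_nhds h)] with ε hε
      exact ⟨fun _ => hε, fun h' => absurd h' h.not_gt, fun _ => hε.ne'⟩
  obtain ⟨ε, h2, h3⟩ := (((Filter.eventually_all_finset S).2 (fun j _ => h1 j)).and
    self_mem_nhdsWithin).exists
  exact ⟨ε, h3, h2⟩

lemma IsPoly.exists_generic (hP : IsPoly V R) {l : ι → ℝ} (hpos : ∀ v ∈ V, 0 < l v) :
    ∃ h ∈ R, ∀ u ∈ V, ∀ w ∈ V, u ≠ w → h u * l w ≠ h w * l u := by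
  let J := {p : ι × ι // p ∈ V.offDiag}
  let f : J → Module.Dual ℝ (ι → ℝ) := fun p =>
    l p.1.2 • LinearMap.proj p.1.1 - l p.1.1 • LinearMap.proj p.1.2
  obtain ⟨h, hh, hne⟩ := Module.Dual.exists_forall_mem_ne_zero_of_forall_exists R f (by
    rintro ⟨⟨u, w⟩, hp⟩
    obtain ⟨hu, hw, huw⟩ := mem_offDiag.1 hp
    obtain ⟨a, ha, a0, a1⟩ := hP.exists_vfun hu
    refine ⟨a, ha, ?_⟩
    have h1 := a1 w hw (Ne.symm huw)
    have h2 := hpos u hu
    simp only [f, LinearMap.sub_apply, LinearMap.smul_apply, LinearMap.proj_apply, smul_eq_mul]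
    rw [a0]
    nlinarith [mul_pos h2 h1])
  refine ⟨h, hh, fun u hu w hw huw he => hne ⟨(u, w), mem_offDiag.2 ⟨hu, hw, huw⟩⟩ ?_⟩
  simp only [f, LinearMap.sub_apply, LinearMap.smul_apply, LinearMap.proj_apply, smul_eq_mul]
  linarith

end Pool.Agent.P.MP_af6acb_co
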