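import Pool.Agent.P.MP_af6acb_co.Stack
import Pool.Agent.P.MP_af6acb_co.Defs

/-!
Dictionary between convex polytopes in Euclidean 4-space and configurations.
-/

namespace Pool.Agent.P.MP_af6acb_co

open Finset Module

set_option linter.unusedSectionVars false
set_option linter.unusedVariables false

/-- Euclidean 4-space. -/
abbrev E4 := EuclideanSpace ℝ (Fin 4)

noncomputable instance decE4 : DecidableEq E4 := Classical.decEq _

/-- Affine functions from a constant and a linear form. -/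
def affMap : (ℝ × Module.Dual ℝ E4) →ₗ[ℝ] (E4 → ℝ) where
  toFun p x := p.1 + p.2 x
  map_add' p q := by funext x; simp; ring
  map_smul' c p := by funext x; simp; ring

/-- The space of affine functions. -/
noncomputable def Aff : Submodule ℝ (E4 → ℝ) := LinearMap.range affMap

instance finAff : FiniteDimensional ℝ Aff := by unfold Aff; infer_instance

lemma mem_Aff {φ : E4 → ℝ} : φ ∈ Aff ↔ ∃ (c : ℝ) (f : Module.Dual ℝ E4), ∀ x, φ x = c + f x := by
  constructor
  · rintro ⟨p, rfl⟩; exact ⟨p.1, p.2, fun _ => rfl⟩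
  · rintro ⟨c, f, h⟩; exact ⟨(c, f), funext fun x => (h x).symm⟩

lemma finrank_Aff : finrank ℝ Aff = 5 := by
  unfold Aff
  rw [LinearMap.finrank_range_of_inj]
  · simp
  · rw [injective_iff_map_eq_zero]
    intro p hp
    have h0 : p.1 = 0 := by simpa [affMap] using congrFun hp 0
    refine Prod.ext h0 (LinearMap.ext fun x => ?_)
    simpa [affMap, h0] using congrFun hp x

lemma rk_Aff {X : Finset E4} (hX : X.Nonempty) :
    rk Aff X = finrank ℝ (vectorSpan ℝ (X : Set E4)) + 1 := by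
  obtain ⟨x0, hx0⟩ := hX
  let Ψ : Module.Dual ℝ E4 →ₗ[ℝ] (E4 → ℝ) :=
    { toFun := fun f x => f (x - x0)
      map_add' := fun f g => by funext x; simp
      map_smul' := fun c f => by funext x; simp }
  have hinj : Function.Injective Ψ := by
    rw [injective_iff_map_eq_zero]
    intro f hf
    ext1 x
    simpa [Ψ] using congrFun hf (x + x0)
  have hK : K Aff X = (vectorSpan ℝ (X : Set E4)).dualAnnihilator.map Ψ := by
    ext φ
    rw [mem_K, Submodule.mem_map, mem_Aff]
    constructor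
    · rintro ⟨⟨c, f, h⟩, hz⟩
      have h0 := hz x0 hx0
      refine ⟨f, ?_, funext fun x => ?_⟩
      · rw [Submodule.mem_dualAnnihilator, vectorSpan_eq_span_vsub_set_right ℝ (mem_coe.2 hx0)]
        intro w hw
        refine Submodule.span_induction (fun v hv => ?_) (by simp) (fun a b _ _ ha hb => ?_)
          (fun a b _ hb => ?_) hw
        · obtain ⟨y, hy, rfl⟩ := hv
          have := hz y hy
          rw [h] at this h0
          simp only [vsub_eq_sub, map_sub]; linarith
        · simp [ha, hb]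
        · simp [hb]
      · rw [h] at h0 ⊢
        simp only [Ψ, LinearMap.coe_mk, AddHom.coe_mk, map_sub]; linarith
    · rintro ⟨f, hf, rfl⟩
      refine ⟨⟨-f x0, f, fun x => by simp [Ψ]; ring⟩, fun v hv => ?_⟩
      exact (Submodule.mem_dualAnnihilator _).1 hf _
        (vsub_mem_vectorSpan ℝ (mem_coe.2 hv) (mem_coe.2 hx0))
  have h1 := rk_add (R := Aff) X
  have h2 := Subspace.finrank_add_finrank_dualAnnihilator_eq (vectorSpan ℝ (X : Set E4))
  rw [hK, finrank_Aff, ← (Submodule.equivMapOfInjective Ψ hinj _).finrank_eq] at h1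
  rw [finrank_euclideanSpace_fin] at h2
  omega

lemma aff_hull {φ : E4 → ℝ} (hφ : φ ∈ Aff) {s : Finset E4} {w : E4 → ℝ} (hw : ∑ y ∈ s, w y = 1) :
    φ (∑ y ∈ s, w y • y) = ∑ y ∈ s, w y * φ y := by
  obtain ⟨c, f, h⟩ := mem_Aff.1 hφ
  simp only [h, map_sum, map_smul, smul_eq_mul, mul_add, sum_add_distrib, ← sum_mul, hw, one_mul]

lemma hull_nonneg {φ : E4 → ℝ} (hφ : φ ∈ Aff) {s : Finset E4} (h : ∀ v ∈ s, 0 ≤ φ v) {x : E4}
    (hx : x ∈ convexHull ℝ (s : Set E4)) : 0 ≤ φ x := by
  obtain ⟨w, w0, w1, rfl⟩ := Finset.mem_convexHull'.1 hx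
  rw [aff_hull hφ w1]
  exact sum_nonneg fun y hy => mul_nonneg (w0 y hy) (h y hy)

lemma hull_zero {φ : E4 → ℝ} (hφ : φ ∈ Aff) {s X : Finset E4} (hX : X ⊆ s)
    (h1 : ∀ v ∈ X, φ v = 0) (h2 : ∀ v ∈ s, v ∉ X → 0 < φ v) :
    convexHull ℝ (X : Set E4) = {x ∈ convexHull ℝ (s : Set E4) | φ x = 0} := by
  have hnn : ∀ v ∈ s, 0 ≤ φ v := fun v hv => by
    by_cases h : v ∈ X
    · exact (h1 v h).ge
    · exact (h2 v hv h).le
  ext x
  constructor
  · intro hx
    refine ⟨convexHull_mono (coe_subset.2 hX) hx, ?_⟩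
    obtain ⟨w, w0, w1, rfl⟩ := Finset.mem_convexHull'.1 hx
    rw [aff_hull hφ w1]
    exact sum_eq_zero fun y hy => by rw [h1 y hy, mul_zero]
  · rintro ⟨hx, hx0⟩
    obtain ⟨w, w0, w1, rfl⟩ := Finset.mem_convexHull'.1 hx
    rw [aff_hull hφ w1, sum_eq_zero_iff_of_nonneg
      (fun y hy => mul_nonneg (w0 y hy) (hnn y hy))] at hx0
    have hw : ∀ y ∈ s, y ∉ X → w y = 0 := fun y hy hyX => by
      rcases mul_eq_zero.1 (hx0 y hy) with h | h
      · exact h
      · exact absurd h (h2 y hy hyX).ne'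
    refine Finset.mem_convexHull'.2 ⟨w, fun y hy => w0 y (hX hy), ?_, ?_⟩
    · rw [← w1]; exact sum_subset hX hw
    · exact sum_subset hX (fun y hy hyX => by rw [hw y hy hyX, zero_smul])

lemma vectorSpan_hull (X : Set E4) : vectorSpan ℝ (convexHull ℝ X) = vectorSpan ℝ X := by
  rw [← direction_affineSpan, affineSpan_convexHull, direction_affineSpan]

theorem numFaces_hull (s : Finset E4) (k : ℕ) :
    numFaces (convexHull ℝ (s : Set E4)) k = (faces s Aff (k + 1)).card := by
  have hset : {F : Set E4 | F.Nonempty ∧ IsExposed ℝ (convexHull ℝ (s : Set E4)) F ∧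
      finrank ℝ (vectorSpan ℝ F) = k} =
      (fun X : Finset E4 => convexHull ℝ (X : Set E4)) '' (faces s Aff (k + 1) : Set _) := by
    ext F
    simp only [Set.mem_ofPred_eq, Set.mem_image, mem_coe, mem_faces]
    constructor
    · rintro ⟨hne, hex, hk⟩
      obtain ⟨l, hl⟩ := hex hne
      obtain ⟨x0, hx0⟩ := hne
      have hx0' := hx0
      rw [hl] at hx0'
      have hφ : (fun x => l x0 - l x) ∈ Aff :=
        mem_Aff.2 ⟨l x0, -(l : E4 →ₗ[ℝ] ℝ), fun x => by simp; ring⟩
      have hnn : ∀ v ∈ s, 0 ≤ l x0 - l v := fun v hv =>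
        sub_nonneg.2 (hx0'.2 v (subset_convexHull ℝ _ (mem_coe.2 hv)))
      have hf := isFace_zero hφ hnn
      have hF : convexHull ℝ ((s.filter (fun v => l x0 - l v = 0) : Finset E4) : Set E4) = F := by
        rw [hull_zero hφ (filter_subset _ s) (fun v hv => (mem_filter.1 hv).2)
          (fun v hv hv' => lt_of_le_of_ne (hnn v hv)
            (fun h => hv' (mem_filter.2 ⟨hv, h.symm⟩))), hl]
        ext x
        simp only [Set.mem_ofPred_eq]
        constructor
        · rintro ⟨h1, h2⟩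
          exact ⟨h1, fun y hy => by linarith [hx0'.2 y hy]⟩
        · rintro ⟨h1, h2⟩
          exact ⟨h1, by linarith [h2 x0 hx0'.1, hx0'.2 x h1]⟩
      refine ⟨_, ⟨hf, ?_⟩, hF⟩
      have hne : (s.filter (fun v => l x0 - l v = 0)).Nonempty := by
        rw [← coe_nonempty, ← convexHull_nonempty_iff (𝕜 := ℝ), hF]; exact ⟨x0, hx0⟩
      rw [rk_Aff hne, ← vectorSpan_hull, hF, hk]
    · rintro ⟨X, ⟨h1, h2⟩, rfl⟩
      have hne : X.Nonempty := by
        rw [← card_pos]; have := rk_le_card (R := Aff) X; omega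
      obtain ⟨φ, hφ, a1, a2⟩ := h1.exists_fun
      have hnn : ∀ v ∈ s, 0 ≤ φ v := fun v hv => by
        by_cases h : v ∈ X
        · exact (a1 v h).ge
        · exact (a2 v hv h).le
      refine ⟨convexHull_nonempty_iff.2 (coe_nonempty.2 hne), fun _ => ?_, ?_⟩
      · obtain ⟨c, f, hc⟩ := mem_Aff.1 hφ
        refine ⟨LinearMap.toContinuousLinearMap (-f), ?_⟩
        rw [hull_zero hφ h1.1 a1 a2]
        ext x
        simp only [Set.mem_ofPred_eq, LinearMap.coe_toContinuousLinearMap', LinearMap.neg_apply]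
        constructor
        · rintro ⟨k1, k2⟩
          refine ⟨k1, fun y hy => ?_⟩
          have := hull_nonneg hφ hnn hy
          rw [hc] at this k2
          linarith
        · rintro ⟨k1, k2⟩
          obtain ⟨x0, hx0⟩ := hne
          have k3 := k2 x0 (subset_convexHull ℝ _ (mem_coe.2 (h1.1 hx0)))
          have k4 := hull_nonneg hφ hnn k1
          have k5 := a1 x0 hx0
          rw [hc] at k4 k5 ⊢
          exact ⟨k1, by linarith⟩
      · rw [rk_Aff hne] at h2
        rw [vectorSpan_hull]; omega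
  rw [numFaces, hset, Set.InjOn.ncard_image, Set.ncard_coe_finset]
  have key : ∀ X Y : Finset E4, IsFace s Aff X → IsFace s Aff Y →
      convexHull ℝ (X : Set E4) = convexHull ℝ (Y : Set E4) → X ⊆ Y := by
    intro X Y hX hY he x hx
    obtain ⟨φ, hφ, a1, a2⟩ := hY.exists_fun
    have h1 : x ∈ convexHull ℝ (Y : Set E4) := he ▸ subset_convexHull ℝ _ (mem_coe.2 hx)
    rw [hull_zero hφ hY.1 a1 a2] at h1
    by_contra h
    exact (a2 x (hX.1 hx) h).ne' h1.2
  intro X hX Y hY he
  exact Subset.antisymm (key X Y (mem_faces.1 hX).1 (mem_faces.1 hY).1 he)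
    (key Y X (mem_faces.1 hY).1 (mem_faces.1 hX).1 he.symm)

lemma interior_iff {s : Finset E4} (hs : s.Nonempty) :
    (interior (convexHull ℝ (s : Set E4))).Nonempty ↔ rk Aff s = 5 := by
  rw [interior_convexHull_nonempty_iff_affineSpan_eq_top,
    AffineSubspace.affineSpan_eq_top_iff_vectorSpan_eq_top_of_nonempty ℝ E4 E4 (coe_nonempty.2 hs),
    rk_Aff hs]
  constructor
  · intro h; rw [h]; simp
  · intro h
    apply Submodule.eq_top_of_finrank_eq
    rw [finrank_euclideanSpace_fin]; omega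

theorem exists_conf {P : Set E4} (hP : IsPolytope4 P) :
    ∃ s : Finset E4, P = convexHull ℝ (s : Set E4) ∧ IsPoly s Aff ∧ rk Aff s = 5 := by
  obtain ⟨s0, h1, h2⟩ := hP
  have hex : ∃ n, ∃ s : Finset E4, s.card = n ∧ P = convexHull ℝ (s : Set E4) := ⟨_, s0, rfl, h1⟩
  classical
  obtain ⟨s, hs, hPs⟩ := Nat.find_spec hex
  have hne : s.Nonempty := by
    rw [← coe_nonempty, ← convexHull_nonempty_iff (𝕜 := ℝ), ← hPs]
    exact h2.mono interior_subset
  refine ⟨s, hPs, ⟨?_, fun v hv => ?_⟩, (interior_iff hne).1 (hPs ▸ h2)⟩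
  · exact isFace_of_fun (empty_subset _) (φ := fun _ => 1) (mem_Aff.2 ⟨1, 0, by simp⟩) (by simp)
      (by simp)
  · have hv' : v ∉ convexHull ℝ ((s.erase v : Finset E4) : Set E4) := by
      intro h
      have h3 : P = convexHull ℝ ((s.erase v : Finset E4) : Set E4) := by
        rw [hPs]
        refine Set.Subset.antisymm (convexHull_min (fun x hx => ?_) (convex_convexHull ℝ _))
          (convexHull_mono (coe_subset.2 (erase_subset v s)))
        by_cases hxv : x = v
        · exact hxv ▸ h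
        · exact subset_convexHull ℝ _ (mem_coe.2 (mem_erase.2 ⟨hxv, hx⟩))
      have h4 := Nat.find_min' hex ⟨s.erase v, rfl, h3⟩
      rw [card_erase_of_mem hv, ← hs] at h4
      have := card_pos.2 hne
      omega
    obtain ⟨f, u, h3, h4⟩ := geometric_hahn_banach_point_closed (convex_convexHull ℝ _)
      ((s.erase v).finite_toSet.isClosed_convexHull ℝ) hv'
    refine isFace_of_fun (singleton_subset_iff.2 hv) (φ := fun x => -f v + f x)
      (mem_Aff.2 ⟨-f v, (f : E4 →ₗ[ℝ] ℝ), fun x => rfl⟩) (by simp) (fun w hw hw' => ?_)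
    have := h4 w (subset_convexHull ℝ _ (mem_coe.2 (mem_erase.2 ⟨by simpa using hw', hw⟩)))
    linarith

theorem exists_polytope {ι : Type} [DecidableEq ι] {V : Finset ι} {R : Submodule ℝ (ι → ℝ)}
    [FiniteDimensional ℝ R] (hP : IsPoly V R) (hr : rk R V = 5) :
    ∃ P, IsPolytope4 P ∧ ∀ k, numFaces P k = (faces V R (k + 1)).card := by
  obtain ⟨β, e, hβ, he, hd, hx⟩ := exists_frame subset_rfl hr hr
  obtain ⟨l, hl, hpos⟩ := hP.exists_ell
  let x : ι → E4 := fun v => WithLp.toLp 2 (fun i : Fin 4 => e i.succ v / l v)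
  have hfwd : ∀ φ ∈ R, ∃ ψ ∈ Aff, ∀ v ∈ V, φ v = l v * ψ (x v) := by
    intro φ hφ
    let c := φ (β 0) / l (β 0)
    refine ⟨fun y => c + ∑ i : Fin 4, (φ (β i.succ) - c * l (β i.succ)) * y i,
      mem_Aff.2 ⟨c, ∑ i : Fin 4, (φ (β i.succ) - c * l (β i.succ)) •
        (EuclideanSpace.projₗ i : E4 →ₗ[ℝ] ℝ), fun y => by simp⟩, fun v hv => ?_⟩
    have h1 := hx φ hφ v hv
    have h2 := hx l hl v hv
    have h3 := (hpos v hv).ne'
    have h4 : c * l (β 0) = φ (β 0) := div_mul_cancel₀ _ (hpos _ (hβ 0)).ne'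
    rw [Fin.sum_univ_succ] at h1 h2
    have h5 : l v * ∑ i : Fin 4, (φ (β i.succ) - c * l (β i.succ)) * x v i =
        ∑ i : Fin 4, φ (β i.succ) * e i.succ v - c * ∑ i : Fin 4, l (β i.succ) * e i.succ v := by
      rw [mul_sum, mul_sum, ← sum_sub_distrib]
      refine sum_congr rfl (fun i _ => ?_)
      simp only [x]
      field_simp
    rw [mul_add, h5]
    linear_combination h1 - c * h2 - e 0 v * h4
  have hT : Transp V R Aff x l := by
    refine ⟨fun u hu w hw he => ?_, hpos, hfwd, fun ψ hψ => ?_⟩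
    · by_contra hne
      obtain ⟨a, ha, a0, a1⟩ := hP.exists_vfun hu
      obtain ⟨ψ, _, h⟩ := hfwd a ha
      have h1 := h u hu
      have h2 := h w hw
      have h3 := a1 w hw (Ne.symm hne)
      rw [a0, he] at h1
      rcases mul_eq_zero.1 h1.symm with h0 | h0
      · exact (hpos u hu).ne' h0
      · rw [h0] at h2; linarith
    · obtain ⟨c, f, hc⟩ := mem_Aff.1 hψ
      refine ⟨c • l + ∑ i : Fin 4, f (EuclideanSpace.single i 1) • e i.succ,
        R.add_mem (R.smul_mem _ hl) (R.sum_mem fun i _ => R.smul_mem _ (he _)), fun v hv => ?_⟩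
      have h3 := (hpos v hv).ne'
      have h1 : x v = ∑ i : Fin 4, (e i.succ v / l v) • EuclideanSpace.single i (1 : ℝ) := by
        ext j; simp [x, Pi.single_apply]
      rw [hc, h1, map_sum]
      simp only [Pi.add_apply, Pi.smul_apply, Finset.sum_apply, smul_eq_mul, map_smul, mul_add,
        mul_sum]
      rw [mul_comm c]
      congr 1
      refine sum_congr rfl (fun i _ => ?_)
      field_simp
  have hne : (V.image x).Nonempty := ⟨_, mem_image_of_mem x (hβ 0)⟩
  refine ⟨convexHull ℝ ((V.image x : Finset E4) : Set E4), ⟨V.image x, rfl, ?_⟩, fun k => ?_⟩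
  · rw [interior_iff hne, hT.rk_eq subset_rfl, hr]
  · rw [numFaces_hull, hT.card_faces]

theorem min_fatness (f : Fin 4 → ℤ) (hf : 2 * (f 1 + f 2) + 10 = 5 * (f 0 + f 3)) :
    f ∈ fVectors ↔ ∃ i j : ℕ,
      f = ![5, 10, 10, 5] + (i : ℤ) • ![1, 4, 6, 3] + (j : ℤ) • ![3, 6, 4, 1] := by
  constructor
  · rintro ⟨P, hP, h⟩
    obtain ⟨s, rfl, h1, h2⟩ := exists_conf hP
    have e0 := h 0
    have e1 := h 1
    have e2 := h 2
    have e3 := h 3
    rw [numFaces_hull] at e0 e1 e2 e3
    change f 0 = ((faces s Aff 1).card : ℤ) at e0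
    change f 1 = ((faces s Aff 2).card : ℤ) at e1
    change f 2 = ((faces s Aff 3).card : ℤ) at e2
    change f 3 = ((faces s Aff 4).card : ℤ) at e3
    rw [h1.card_faces_one] at e0
    obtain ⟨i, j, a0, a1, a2, a3⟩ := classify h1 h2 (by unfold OnPlane; omega)
    refine ⟨i, j, ?_⟩
    funext k
    fin_cases k
    · simp; omega
    · simp; omega
    · simp; omega
    · simp; omega
  · rintro ⟨i, j, rfl⟩
    obtain ⟨ι, _, V, R, _, hP, hr, h1, h2, h3, h4, _⟩ := good_all i j
    obtain ⟨P, hP4, hn⟩ := exists_polytope hP hr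
    refine ⟨P, hP4, fun k => ?_⟩
    rw [hn]
    fin_cases k
    · simp [hP.card_faces_one, h1]; ring
    · simp [h2]; ring
    · simp [h3]; ring
    · simp [h4]; ring

end Pool.Agent.P.MP_af6acb_co
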