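import Pool.Agent.P.MP_af6acb_co.Euler

/-!
Infinitesimal rigidity of polytopal frameworks with rigid 2-faces, in projective form.
A field is a family `b u` of functions of `R`; it is trivial on a set if it is antisymmetric there.
-/

namespace Pool.Agent.P.MP_af6acb_co

open Finset Module

set_option linter.unusedSectionVars false
set_option linter.unusedVariables false

variable {ι : Type} [DecidableEq ι] {R : Submodule ℝ (ι → ℝ)} {V X Y Z : Finset ι}

/-- The field `b` is antisymmetric on `N`. -/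
def Anti (b : ι → ι → ℝ) (N : Finset ι) : Prop := ∀ u ∈ N, ∀ w ∈ N, b u w + b w u = 0

lemma Anti.mono {b : ι → ι → ℝ} (h : Anti b Y) (hX : X ⊆ Y) : Anti b X :=
  fun u hu w hw => h u (hX hu) w (hX hw)

/-- Extension of a compatible family on an independent set to a trivial field. -/
lemma exists_ext {B : Finset ι} (hB : Indep R B) {ψ : ι → ι → ℝ} (hψ : ∀ c ∈ B, ψ c ∈ R)
    (ha : Anti ψ B) :
    ∃ S : ι → ι → ℝ, (∀ u, S u ∈ R) ∧ (∀ u w, S u w + S w u = 0) ∧ ∀ c ∈ B, S c = ψ c := by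
  obtain ⟨e, he, hd⟩ := hB.exists_dual
  refine ⟨fun u w => ∑ c ∈ B, e c u * ψ c w - ∑ c ∈ B, e c w * ψ c u +
    ∑ c ∈ B, ∑ c' ∈ B, e c w * e c' u * ψ c c', fun u => ?_, fun u w => ?_, fun c0 hc0 => ?_⟩
  · have : (fun w => ∑ c ∈ B, e c u * ψ c w - ∑ c ∈ B, e c w * ψ c u +
        ∑ c ∈ B, ∑ c' ∈ B, e c w * e c' u * ψ c c') =
        ∑ c ∈ B, e c u • ψ c - ∑ c ∈ B, ψ c u • e c +
          ∑ c ∈ B, ∑ c' ∈ B, (e c' u * ψ c c') • e c := by
      funext w
      simp only [Pi.add_apply, Pi.sub_apply, Finset.sum_apply, Pi.smul_apply, smul_eq_mul]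
      congr 1
      · congr 1
        exact sum_congr rfl (fun _ _ => mul_comm _ _)
      · exact sum_congr rfl (fun _ _ => sum_congr rfl (fun _ _ => by ring))
    beta_reduce
    rw [this]
    exact R.add_mem (R.sub_mem (R.sum_mem fun c hc => R.smul_mem _ (hψ c hc))
      (R.sum_mem fun c _ => R.smul_mem _ (he c)))
      (R.sum_mem fun c _ => R.sum_mem fun c' _ => R.smul_mem _ (he c))
  · have : ∑ c ∈ B, ∑ c' ∈ B, e c w * e c' u * ψ c c' +
        ∑ c ∈ B, ∑ c' ∈ B, e c u * e c' w * ψ c c' = 0 := by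
      rw [sum_comm (s := B) (t := B) (f := fun c c' => e c u * e c' w * ψ c c'), ← sum_add_distrib]
      refine sum_eq_zero (fun c hc => ?_)
      rw [← sum_add_distrib]
      refine sum_eq_zero (fun c' hc' => ?_)
      linear_combination (e c w * e c' u) * ha c hc c' hc'
    linarith
  · funext w
    have h1 : ∑ c ∈ B, e c c0 * ψ c w = ψ c0 w := by
      rw [sum_congr rfl (fun c hc => by rw [hd c hc c0 hc0])]
      simp [hc0]
    have h2 : ∑ c ∈ B, ∑ c' ∈ B, e c w * e c' c0 * ψ c c' = ∑ c ∈ B, e c w * ψ c c0 := by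
      refine sum_congr rfl (fun c hc => ?_)
      rw [sum_congr rfl (fun c' hc' => by rw [hd c' hc' c0 hc0])]
      simp [hc0]
    simp only [h1, h2]
    ring

variable [FiniteDimensional ℝ R]

/-- A field that is trivial on a spanning set agrees there with a global trivial field. -/
lemma exists_triv {b : ι → ι → ℝ} {N : Finset ι} (hb : ∀ u ∈ N, b u ∈ R) (ha : Anti b N)
    (hs : Spans R N V) :
    ∃ S : ι → ι → ℝ, (∀ u, S u ∈ R) ∧ (∀ u w, S u w + S w u = 0) ∧
      ∀ u ∈ N, ∀ w ∈ V, b u w = S u w := by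
  obtain ⟨B, hBN, hB, hBs, _⟩ := exists_basis (R := R) N
  obtain ⟨S, hS, hSa, hSB⟩ := exists_ext hB (fun c hc => hb c (hBN hc)) (ha.mono hBN)
  refine ⟨S, hS, hSa, fun u hu w hw => ?_⟩
  have hm := R.sub_mem (hb u hu) (hS u)
  have := hs _ hm (hBs _ hm (fun c hc => by
    have h1 := ha u hu c (hBN hc)
    have h2 := hSa u c
    rw [hSB c hc] at h2
    simp only [Pi.sub_apply]; linarith)) w hw
  simp only [Pi.sub_apply] at this; linarith

/-- A trivial field on a spanning set vanishing on a subset of corank one vanishes. -/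
lemma vanish_of_corank {b : ι → ι → ℝ} {N : Finset ι} (hb : ∀ u ∈ N, b u ∈ R) (ha : Anti b N)
    (hs : Spans R N V) (hNV : N ⊆ V) (hY : Y ⊆ N) (hr : rk R V ≤ rk R Y + 1)
    (hz : ∀ y ∈ Y, ∀ w ∈ V, b y w = 0) : ∀ u ∈ N, ∀ w ∈ V, b u w = 0 := by
  have hK : ∀ u ∈ N, b u ∈ K R Y := fun u hu => ⟨hb u hu, fun y hy => by
    have := ha u hu y (hY hy)
    rw [hz y hy u (hNV hu)] at this; linarith⟩
  intro u0 hu0
  apply hs _ (hb u0 hu0)
  intro v0 hv0
  by_contra hne
  obtain ⟨c, hc⟩ := exists_mul (hY.trans hNV) hr (hK u0 hu0) (hK v0 hv0) (hNV hv0) hne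
  have h1 := ha v0 hv0 v0 hv0
  have h2 := hc v0 (hNV hv0)
  have h3 : c = 0 := by
    rcases mul_eq_zero.1 (by linarith : c * b u0 v0 = 0) with h | h
    · exact h
    · exact absurd h hne
  have h4 := hc u0 (hNV hu0)
  have h5 := ha u0 hu0 v0 hv0
  rw [h3] at h4
  apply hne; linarith

/-- Gluing of local triviality along edges. -/
lemma IsPoly.anti_of_local (hP : IsPoly V R) {b : ι → ι → ℝ} (hb : ∀ u ∈ V, b u ∈ R)
    (N : ι → Finset ι) (hN : ∀ z ∈ V, z ∈ N z ∧ N z ⊆ V ∧ Spans R (N z) V ∧ Anti b (N z))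
    (hE : ∀ z ∈ V, ∀ z' ∈ nbr V R z, ∃ Y ⊆ N z ∩ N z', rk R V ≤ rk R Y + 1) : Anti b V := by
  classical
  rcases V.eq_empty_or_nonempty with rfl | ⟨z0, hz0⟩
  · intro u hu; simp at hu
  obtain ⟨_, h2, h3, h4⟩ := hN z0 hz0
  obtain ⟨S, hS, hSa, hSb⟩ := exists_triv (fun u hu => hb u (h2 hu)) h4 h3
  have := hP.conn (T := V.filter (fun z => ∀ u ∈ N z, ∀ w ∈ V, b u w - S u w = 0))
    (filter_subset _ _) ⟨z0, mem_filter.2 ⟨hz0, fun u hu w hw => by rw [hSb u hu w hw, sub_self]⟩⟩
    (fun z hz z' hz' => by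
      obtain ⟨hz1, hz2⟩ := mem_filter.1 hz
      obtain ⟨Y, hY, hr⟩ := hE z hz1 z' hz'
      obtain ⟨_, k2, k3, k4⟩ := hN z' (nbr_subset z hz')
      refine mem_filter.2 ⟨nbr_subset z hz', ?_⟩
      exact vanish_of_corank (b := fun u => b u - S u)
        (fun u hu => R.sub_mem (hb u (k2 hu)) (hS u))
        (fun u hu w hw => by
          have := k4 u hu w hw; have := hSa u w
          simp only [Pi.sub_apply]; linarith) k3 k2 (hY.trans inter_subset_right) hr
        (fun y hy w hw => hz2 y (mem_inter.1 (hY hy)).1 w hw))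
  intro u hu w hw
  have h5 := (mem_filter.1 (this u hu)).2 u (hN u hu).1 w hw
  have h6 := (mem_filter.1 (this w hw)).2 w (hN w hw).1 u hu
  have := hSa u w
  linarith

open Classical in
/-- The vertices lying in a common 2-face with `z`. -/
noncomputable def cof (V : Finset ι) (R : Submodule ℝ (ι → ℝ)) (z : ι) : Finset ι :=
  V.filter (fun w => ∃ σ ∈ faces V R 3, z ∈ σ ∧ w ∈ σ)

omit [FiniteDimensional ℝ R] in
lemma mem_cof {z w : ι} : w ∈ cof V R z ↔ ∃ σ, IsFace V R σ ∧ rk R σ = 3 ∧ z ∈ σ ∧ w ∈ σ := by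
  simp only [cof, mem_filter, mem_faces]
  constructor
  · rintro ⟨_, σ, ⟨h1, h2⟩, h3, h4⟩; exact ⟨σ, h1, h2, h3, h4⟩
  · rintro ⟨σ, h1, h2, h3, h4⟩; exact ⟨h1.1 h4, σ, ⟨h1, h2⟩, h3, h4⟩

lemma cof_subset (z : ι) : cof V R z ⊆ V := by
  intro w hw
  obtain ⟨σ, h1, _, _, h4⟩ := mem_cof.1 hw
  exact h1.1 h4

lemma IsPoly.insert_nbr_subset_cof (hP : IsPoly V R) (hr : 3 ≤ rk R V) {z : ι} (hz : z ∈ V) :
    insert z (nbr V R z) ⊆ cof V R z := by
  intro w hw
  rcases mem_insert.1 hw with rfl | hw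
  · obtain ⟨σ, h1, h2, _, h4⟩ := (hP.single w hz).exists_between (isFace_self V R)
      (singleton_subset_iff.2 hz) (r := 3) (by rw [hP.rk_single hz]; omega) hr
    exact mem_cof.2 ⟨σ, h1, h4, h2 (mem_singleton_self _), h2 (mem_singleton_self _)⟩
  · obtain ⟨e1, e2⟩ := mem_faces.1 (hP.edge_mem hz hw)
    obtain ⟨σ, h1, h2, _, h4⟩ := e1.exists_between (isFace_self V R) e1.1 (r := 3) (by omega) hr
    exact mem_cof.2 ⟨σ, h1, h4, h2 (by simp), h2 (by simp)⟩

lemma IsPoly.spans_cof (hP : IsPoly V R) (hr : 3 ≤ rk R V) {z : ι} (hz : z ∈ V) :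
    Spans R (cof V R z) V := fun φ hφ h =>
  hP.spans_nbr hz φ hφ (fun x hx => h x (hP.insert_nbr_subset_cof hr hz hx))

/-- Vertices at distance two have no strain (positive case excluded). -/
lemma IsPoly.strain_nonpos (hP : IsPoly V R) (hr : rk R V = 4) {b : ι → ι → ℝ}
    (hb : ∀ u ∈ V, b u ∈ R) (ha : ∀ σ ∈ faces V R 3, Anti b σ) {z x y : ι} (hz : z ∈ V)
    (hx : x ∈ cof V R z) (hy : y ∈ cof V R z) : b x y + b y x ≤ 0 := by
  by_contra hpos
  push Not at hpos
  obtain ⟨s1, f1, r1, z1, x1⟩ := mem_cof.1 hx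
  obtain ⟨s2, f2, r2, z2, y2⟩ := mem_cof.1 hy
  have A1 := ha s1 (mem_faces.2 ⟨f1, r1⟩)
  have A2 := ha s2 (mem_faces.2 ⟨f2, r2⟩)
  have hy1 : y ∉ s1 := fun h => hpos.ne' (A1 x x1 y h)
  have hx2 : x ∉ s2 := fun h => hpos.ne' (A2 x h y y2)
  have hxV := f1.1 x1
  have hyV := f2.1 y2
  have hxy : x ≠ y := by rintro rfl; exact hy1 x1
  have hxz : x ≠ z := by rintro rfl; exact hx2 z2
  have hyz : y ≠ z := by rintro rfl; exact hy1 z1
  have h0 : ∀ u ∈ V, b u u = 0 := fun u hu => by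
    obtain ⟨σ, h1, h2, h3, _⟩ := mem_cof.1
      (hP.insert_nbr_subset_cof (by omega) hu (mem_insert_self _ _))
    have := ha σ (mem_faces.2 ⟨h1, h2⟩) u h3 u h3
    linarith
  obtain ⟨ax, hax, ax0, ax1⟩ := hP.exists_vfun hxV
  obtain ⟨ay, hay, ay0, ay1⟩ := hP.exists_vfun hyV
  obtain ⟨az, haz, az0, az1⟩ := hP.exists_vfun hz
  obtain ⟨g1, hg1, g10, g11⟩ := f1.exists_fun
  obtain ⟨g2, hg2, g20, g21⟩ := f2.exists_fun
  have g1n : ∀ v ∈ V, 0 ≤ g1 v := fun v hv => by
    by_cases h : v ∈ s1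
    · exact (g10 v h).ge
    · exact (g11 v hv h).le
  have g2n : ∀ v ∈ V, 0 ≤ g2 v := fun v hv => by
    by_cases h : v ∈ s2
    · exact (g20 v h).ge
    · exact (g21 v hv h).le
  have p1 := ax1 y hyV hxy.symm
  have p2 := ay1 x hxV hxy
  have p3 := ax1 z hz hxz.symm
  have p4 := ay1 z hz hyz.symm
  have p5 := az1 x hxV hxz
  have p6 := az1 y hyV hyz
  have p7 := g11 y hyV hy1
  have p8 := g21 x hxV hx2
  set t := (b x y + b y x) / (ax y + ay x) with ht
  have htpos : 0 < t := by positivity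
  have hts : t * (ax y + ay x) = b x y + b y x := by rw [ht]; field_simp
  set δ := min (t * ax z / az x) (t * ay z / az y) with hδ
  have hδpos : 0 < δ := lt_min (by positivity) (by positivity)
  have hδ1 : δ * az x ≤ t * ax z := by
    rw [← le_div_iff₀ p5]; exact min_le_left _ _
  have hδ2 : δ * az y ≤ t * ay z := by
    rw [← le_div_iff₀ p6]; exact min_le_right _ _
  set l2 := (t * ax z - δ * az x) / g2 x with hl2
  set l1 := (t * ay z - δ * az y) / g1 y with hl1
  have hl2n : 0 ≤ l2 := div_nonneg (by linarith) p8.le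
  have hl1n : 0 ≤ l1 := div_nonneg (by linarith) p7.le
  have hl2e : l2 * g2 x = t * ax z - δ * az x := by rw [hl2]; field_simp
  have hl1e : l1 * g1 y = t * ay z - δ * az y := by rw [hl1]; field_simp
  let φz : ι → ℝ := δ • az + l1 • g1 + l2 • g2
  have hφz : φz ∈ R := R.add_mem (R.add_mem (R.smul_mem _ haz) (R.smul_mem _ hg1))
    (R.smul_mem _ hg2)
  have φzx : φz x = t * ax z := by simp [φz, g10 x x1, hl2e]
  have φzy : φz y = t * ay z := by simp [φz, g20 y y2, hl1e]
  have φzz : φz z = 0 := by simp [φz, g20 z z2, g10 z z1, az0]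
  have φzp : ∀ w ∈ V, w ≠ z → 0 < φz w := fun w hw hne => by
    have := az1 w hw hne; have := g1n w hw; have := g2n w hw
    simp only [φz, Pi.add_apply, Pi.smul_apply, smul_eq_mul]; positivity
  let ψ : ι → ι → ℝ := fun u =>
    if u = x then t • ax - b x else if u = y then t • ay - b y else -φz - b z
  have ψx : ψ x = t • ax - b x := by simp [ψ]
  have ψy : ψ y = t • ay - b y := by simp [ψ, hxy.symm]
  have ψz : ψ z = -φz - b z := by simp [ψ, hxz.symm, hyz.symm]
  have e1 := A1 x x1 z z1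
  have e2 := A2 y y2 z z2
  have e3 := h0 x hxV
  have e4 := h0 y hyV
  have e5 := h0 z hz
  obtain ⟨S, hS, hSa, hSB⟩ := exists_ext (hP.indep_triple hxV hyV hz hxy hxz hyz) (ψ := ψ)
    (fun c hc => by
      simp only [mem_insert, mem_singleton] at hc
      rcases hc with rfl | rfl | rfl
      · rw [ψx]; exact R.sub_mem (R.smul_mem _ hax) (hb _ hxV)
      · rw [ψy]; exact R.sub_mem (R.smul_mem _ hay) (hb _ hyV)
      · rw [ψz]; exact R.sub_mem (R.neg_mem hφz) (hb _ hz))
    (fun c hc c' hc' => by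
      simp only [mem_insert, mem_singleton] at hc hc'
      rcases hc with rfl | rfl | rfl <;> rcases hc' with rfl | rfl | rfl <;>
        simp only [ψx, ψy, ψz, Pi.sub_apply, Pi.neg_apply, Pi.smul_apply, smul_eq_mul, φzx, φzy,
          φzz, ax0, ay0] <;> linarith)
  have Sx := hSB x (by simp)
  have Sy := hSB y (by simp)
  have Sz := hSB z (by simp)
  obtain ⟨l, hl, hlpos⟩ := hP.exists_ell
  obtain ⟨h, hh, hgen⟩ := hP.exists_generic hlpos
  obtain ⟨ε, hε, hpert⟩ := exists_pert (V ×ˢ V) (fun p => b p.1 p.2 + S p.1 p.2)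
    (fun p => h p.1 * l p.2 - h p.2 * l p.1)
  have := hP.no_three_definite hr
    (b := fun u w => b u w + S u w + ε * (h u * l w - h w * l u))
    (fun u hu => by
      have : (fun w => b u w + S u w + ε * (h u * l w - h w * l u)) =
          b u + S u + ε • (h u • l - l u • h) := by
        funext w; simp [mul_comm]
      rw [this]
      exact R.add_mem (R.add_mem (hb u hu) (hS u))
        (R.smul_mem _ (R.sub_mem (R.smul_mem _ hl) (R.smul_mem _ hh))))
    (fun u hu => by have := hSa u u; have := h0 u hu; simp only [sub_self]; linarith)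
    (fun σ hσ u hu w hw => by have := ha σ hσ u hu w hw; have := hSa u w; linarith)
    (fun u hu w hw hne => (hpert (u, w) (mem_product.2 ⟨hu, hw⟩)).2.2
      (sub_ne_zero.2 (hgen u hu w hw hne)))
    (D := {x, y, z}) (by
      intro c hc
      simp only [mem_insert, mem_singleton] at hc
      rcases hc with rfl | rfl | rfl <;> assumption)
    (fun c hc => by
      simp only [mem_insert, mem_singleton] at hc
      rcases hc with rfl | rfl | rfl
      · left
        intro w hw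
        by_cases hne : w = c
        · subst hne; have := hSa w w; simp only [sub_self]; linarith
        · refine ((hpert (c, w) (mem_product.2 ⟨hxV, hw⟩)).1 ?_).le
          have := ax1 w hw hne
          simp only [Sx, ψx, Pi.sub_apply, Pi.smul_apply, smul_eq_mul]
          nlinarith
      · left
        intro w hw
        by_cases hne : w = c
        · subst hne; have := hSa w w; simp only [sub_self]; linarith
        · refine ((hpert (c, w) (mem_product.2 ⟨hyV, hw⟩)).1 ?_).le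
          have := ay1 w hw hne
          simp only [Sy, ψy, Pi.sub_apply, Pi.smul_apply, smul_eq_mul]
          nlinarith
      · right
        intro w hw
        by_cases hne : w = c
        · subst hne; have := hSa w w; simp only [sub_self]; linarith
        · refine ((hpert (c, w) (mem_product.2 ⟨hz, hw⟩)).2.1 ?_).le
          have := φzp w hw hne
          simp only [Sz, ψz, Pi.sub_apply, Pi.neg_apply]
          linarith)
  rw [card_eq_three.2 ⟨x, y, z, hxy, hxz, hyz, rfl⟩] at this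
  omega

/-- Rigidity of 3-polytopes with rigid 2-faces. -/
theorem IsPoly.rigid3 (hP : IsPoly V R) (hr : rk R V = 4) {b : ι → ι → ℝ}
    (hb : ∀ u ∈ V, b u ∈ R) (ha : ∀ σ ∈ faces V R 3, Anti b σ) : Anti b V := by
  refine hP.anti_of_local hb (cof V R) (fun z hz => ⟨hP.insert_nbr_subset_cof (by omega) hz
    (mem_insert_self _ _), cof_subset z, hP.spans_cof (by omega) hz, fun x hx y hy => ?_⟩)
    (fun z hz z' hz' => ?_)
  · have h1 := hP.strain_nonpos hr hb ha hz hx hy
    have h2 := hP.strain_nonpos hr (b := fun u => -b u) (fun u hu => R.neg_mem (hb u hu))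
      (fun σ hσ u hu w hw => by
        have := ha σ hσ u hu w hw
        simp only [Pi.neg_apply]; linarith) hz hx hy
    simp only [Pi.neg_apply] at h2
    linarith
  · obtain ⟨e1, e2⟩ := mem_faces.1 (hP.edge_mem hz hz')
    obtain ⟨σ, h1, h2, _, h4⟩ := e1.exists_between (isFace_self V R) e1.1 (r := 3) (by omega)
      (by omega)
    exact ⟨σ, fun w hw => mem_inter.2 ⟨mem_cof.2 ⟨σ, h1, h4, h2 (by simp), hw⟩,
      mem_cof.2 ⟨σ, h1, h4, h2 (by simp), hw⟩⟩, by omega⟩

/-- Local rigidity at a vertex of a 4-polytope. -/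
theorem IsPoly.rigid_local (hP : IsPoly V R) (hr : rk R V = 5) {b : ι → ι → ℝ}
    (hb : ∀ u ∈ V, b u ∈ R) {v : ι} (hv : v ∈ V)
    (ha : ∀ F ∈ faces V R 4, v ∈ F → ∀ σ ∈ faces V R 3, σ ⊆ F → Anti b σ) :
    Anti b (cof V R v) := by
  have hF : ∀ F, IsFace V R F → rk R F = 4 → v ∈ F → Anti b F := fun F h1 h2 h3 =>
    (hP.sub h1.1).rigid3 h2 (fun u hu => hb u (h1.1 hu)) (fun σ hσ => by
      rw [faces_sub h1] at hσ
      exact ha F (mem_faces.2 ⟨h1, h2⟩) h3 σ (mem_filter.1 hσ).1 (mem_filter.1 hσ).2)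
  have hvu : ∀ u ∈ insert v (nbr V R v), b u v + b v u = 0 := by
    intro u hu
    obtain ⟨σ, h1, h2, h3, h4⟩ := mem_cof.1 (hP.insert_nbr_subset_cof (by omega) hv hu)
    obtain ⟨F, k1, k2, _, k4⟩ := h1.exists_between (isFace_self V R) h1.1 (r := 4) (by omega)
      (by omega)
    exact hF F k1 k4 (k2 h3) u (k2 h4) v (k2 h3)
  obtain ⟨S, hS, hSa, hSv⟩ := exists_ext (B := {v})
    (indep_of_rk_eq (by rw [hP.rk_single hv, card_singleton])) (ψ := b)
    (fun c hc => by rw [mem_singleton.1 hc]; exact hb v hv)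
    (fun c hc c' hc' => by
      rw [mem_singleton.1 hc, mem_singleton.1 hc']; exact hvu v (mem_insert_self _ _))
  replace hSv := hSv v (mem_singleton_self v)
  have hrk := hP.fig_rk_top hv
  have h1 : Anti (fun u => b u - S u) (nbr V R v) := by
    refine (hP.fig hv).rigid3 (by omega) (fun u hu => ⟨R.sub_mem (hb u (nbr_subset v hu)) (hS u),
      fun x hx => ?_⟩) (fun τ hτ => ?_)
    · rw [mem_singleton.1 hx]
      have := hvu u (mem_insert_of_mem hu)
      have := hSa u v
      rw [hSv] at this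
      simp only [Pi.sub_apply]; linarith
    · obtain ⟨F, k1, k2, k3⟩ := hP.fig_surj hv (mem_faces.1 hτ).1
      have k4 := hP.fig_rk k1 k2
      rw [k3, (mem_faces.1 hτ).2] at k4
      intro u hu w hw
      rw [← k3] at hu hw
      have := hF F k1 k4.symm k2 u (mem_inter.1 hu).1 w (mem_inter.1 hw).1
      have := hSa u w
      simp only [Pi.sub_apply]; linarith
  have h2 : Anti b (insert v (nbr V R v)) := by
    intro u hu w hw
    rcases mem_insert.1 hw with rfl | hw'
    · exact hvu u hu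
    rcases mem_insert.1 hu with rfl | hu'
    · have := hvu w hw; linarith
    have := h1 u hu' w hw'
    have := hSa u w
    simp only [Pi.sub_apply] at *; linarith
  obtain ⟨T, hT, hTa, hTb⟩ := exists_triv
    (fun u hu => hb u (insert_subset hv (nbr_subset v) hu)) h2 (hP.spans_nbr hv)
  have h3 : ∀ u ∈ cof V R v, ∀ w ∈ V, b u w = T u w := by
    intro u hu
    obtain ⟨σ, k1, k2, k3, k4⟩ := mem_cof.1 hu
    have k5 := card_facets_of_ridge k1 (by omega)
    obtain ⟨F1, F2, hne, hFF⟩ := card_eq_two.1 k5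
    have m1 : F1 ∈ (faces V R (rk R σ + 1)).filter (fun Z => σ ⊆ Z) := by rw [hFF]; simp
    have m2 : F2 ∈ (faces V R (rk R σ + 1)).filter (fun Z => σ ⊆ Z) := by rw [hFF]; simp
    simp only [mem_filter, mem_faces] at m1 m2
    have hm := R.sub_mem (hb u (k1.1 k4)) (hT u)
    have van : ∀ F, IsFace V R F → rk R F = 4 → σ ⊆ F → ∀ w ∈ F, (b u - T u) w = 0 := by
      intro F l1 l2 l3
      refine (hP.sub l1.1).spans_nbr (l3 k3) _ hm (fun w hw => ?_)
      have hw' : w ∈ insert v (nbr V R v) ∧ w ∈ F := by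
        rcases mem_insert.1 hw with rfl | hw
        · exact ⟨mem_insert_self _ _, l3 k3⟩
        · rw [nbr_face l1 (l3 k3)] at hw
          exact ⟨mem_insert_of_mem (mem_inter.1 hw).1, (mem_inter.1 hw).2⟩
      have := hF F l1 l2 (l3 k3) u (l3 k4) w hw'.2
      have := hTb w hw'.1 u (k1.1 k4)
      have := hTa u w
      simp only [Pi.sub_apply]; linarith
    have hlt : rk R F1 < rk R (F1 ∪ F2) := by
      refine m1.1.1.rk_lt subset_union_left (union_subset m1.1.1.1 m2.1.1.1) (fun he => hne ?_)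
      exact (m2.1.1.eq_of_rk_le (he ▸ subset_union_right) m1.1.1.1 (by omega)).symm
    intro w hw
    have := spans_of_rk_le (union_subset m1.1.1.1 m2.1.1.1) (by omega) _ hm (fun x hx => by
      rcases mem_union.1 hx with h | h
      · exact van F1 m1.1.1 (by omega) m1.2 x h
      · exact van F2 m2.1.1 (by omega) m2.2 x h) w hw
    simp only [Pi.sub_apply] at this; linarith
  intro u hu w hw
  rw [h3 u hu w (cof_subset v hw), h3 w hw u (cof_subset v hu)]
  exact hTa u w

/-- Rigidity of 4-polytopes with rigid 2-faces. -/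
theorem IsPoly.rigid4 (hP : IsPoly V R) (hr : rk R V = 5) {b : ι → ι → ℝ}
    (hb : ∀ u ∈ V, b u ∈ R) (ha : ∀ σ ∈ faces V R 3, Anti b σ) : Anti b V := by
  refine hP.anti_of_local hb (cof V R) (fun z hz => ⟨hP.insert_nbr_subset_cof (by omega) hz
    (mem_insert_self _ _), cof_subset z, hP.spans_cof (by omega) hz,
    hP.rigid_local hr hb hz (fun _ _ _ σ hσ _ => ha σ hσ)⟩) (fun z hz z' hz' => ?_)
  obtain ⟨e1, e2⟩ := mem_faces.1 (hP.edge_mem hz hz')
  obtain ⟨F, h1, h2, _, h4⟩ := e1.exists_between (isFace_self V R) e1.1 (r := 4) (by omega)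
    (by omega)
  obtain ⟨s1, s2, hne, hss⟩ := card_eq_two.1 (diamond e1 h1 h2 (by omega))
  have m1 : s1 ∈ (faces V R (rk R {z, z'} + 1)).filter (fun Z => {z, z'} ⊆ Z ∧ Z ⊆ F) := by
    rw [hss]; simp
  have m2 : s2 ∈ (faces V R (rk R {z, z'} + 1)).filter (fun Z => {z, z'} ⊆ Z ∧ Z ⊆ F) := by
    rw [hss]; simp
  simp only [mem_filter, mem_faces] at m1 m2
  have hlt : rk R s1 < rk R (s1 ∪ s2) := by
    refine m1.1.1.rk_lt subset_union_left (union_subset m1.1.1.1 m2.1.1.1) (fun he => hne ?_)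
    exact (m2.1.1.eq_of_rk_le (he ▸ subset_union_right) m1.1.1.1 (by omega)).symm
  refine ⟨s1 ∪ s2, fun w hw => ?_, by omega⟩
  rcases mem_union.1 hw with h | h
  · exact mem_inter.2 ⟨mem_cof.2 ⟨s1, m1.1.1, by omega, m1.2.1 (by simp), h⟩,
      mem_cof.2 ⟨s1, m1.1.1, by omega, m1.2.1 (by simp), h⟩⟩
  · exact mem_inter.2 ⟨mem_cof.2 ⟨s2, m2.1.1, by omega, m2.2.1 (by simp), h⟩,
      mem_cof.2 ⟨s2, m2.1.1, by omega, m2.2.1 (by simp), h⟩⟩

/-- A polygon with all edges and all diagonals from one vertex is rigid. -/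
theorem IsPoly.rigid_fan (hP : IsPoly V R) (hr : rk R V = 3) {b : ι → ι → ℝ}
    (hb : ∀ u ∈ V, b u ∈ R) {c : ι} (hc : c ∈ V) (h0 : ∀ u ∈ V, b u u = 0)
    (h1 : ∀ u ∈ V, b c u + b u c = 0) (h2 : ∀ u ∈ V, ∀ w ∈ nbr V R u, b u w + b w u = 0) :
    Anti b V := by
  classical
  obtain ⟨u1, hu1⟩ : (nbr V R c).Nonempty := by
    rw [← card_pos, hP.card_nbr_polygon hr hc]; omega
  obtain ⟨hu1V, hu1c, _⟩ := mem_nbr.1 hu1
  obtain ⟨S, hS, hSa, hSB⟩ := exists_ext (B := {c, u1})
    (indep_of_rk_eq (by rw [hP.rk_pair hc hu1V hu1c, card_pair hu1c.symm])) (ψ := b)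
    (fun x hx => hb x (insert_subset hc (singleton_subset_iff.2 hu1V) hx))
    (fun x hx y hy => by
      have := h0 c hc; have := h0 u1 hu1V; have := h1 u1 hu1V
      simp only [mem_insert, mem_singleton] at hx hy
      rcases hx with rfl | rfl <;> rcases hy with rfl | rfl <;> linarith)
  have Sc := hSB c (by simp)
  have Su := hSB u1 (by simp)
  have key := hP.conn_erase hc (T := (V.erase c).filter (fun x => ∀ w ∈ V, b x w - S x w = 0))
    ((filter_subset _ _).trans (erase_subset _ _))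
    ⟨u1, mem_filter.2 ⟨mem_erase.2 ⟨hu1c, hu1V⟩, fun w _ => by rw [Su, sub_self]⟩⟩
    (fun x hx y hy hyc => by
      obtain ⟨hx1, hx2⟩ := mem_filter.1 hx
      obtain ⟨hxc, hxV⟩ := mem_erase.1 hx1
      obtain ⟨hyV, hyx, _⟩ := mem_nbr.1 hy
      refine mem_filter.2 ⟨mem_erase.2 ⟨hyc, hyV⟩, ?_⟩
      have hs : Spans R {c, x, y} V := spans_of_rk_le
        (insert_subset hc (insert_subset hxV (singleton_subset_iff.2 hyV)))
        (by rw [hP.rk_triple hc hxV hyV hxc.symm hyc.symm hyx.symm]; omega)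
      refine hs (b y - S y) (R.sub_mem (hb y hyV) (hS y)) (fun p hp => ?_)
      simp only [mem_insert, mem_singleton] at hp
      rcases hp with rfl | rfl | rfl
      · have := h1 y hyV; have := hSa p y; rw [Sc] at this
        simp only [Pi.sub_apply]; linarith
      · have := h2 p hxV y hy; have := hSa p y; have := hx2 y hyV
        simp only [Pi.sub_apply]; linarith
      · have := h0 p hyV; have := hSa p p
        simp only [Pi.sub_apply]; linarith)
  have all : ∀ x ∈ V, ∀ w ∈ V, b x w = S x w := by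
    intro x hx w hw
    by_cases hxc : x = c
    · rw [hxc, Sc]
    · have := (mem_filter.1 (key x hx hxc)).2 w hw
      linarith
  intro u hu w hw
  rw [all u hu w hw, all w hw u hu]
  exact hSa u w

end Pool.Agent.P.MP_af6acb_co
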