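import Pool.Agent.P.MP_af6acb_co.Real

/-!
The set of f-vectors of 4-polytopes is not a semialgebraic set of lattice points.
-/

namespace Pool.Agent.P.MP_af6acb_co

open Finset Module Filter

set_option linter.unusedVariables false

lemma poly_eventually (q : Polynomial ℝ) :
    ∀ᶠ t : ℝ in atTop, (q.eval t = 0 ↔ q.eval (t + 1) = 0) ∧ (0 < q.eval t ↔ 0 < q.eval (t + 1)) := by
  have hs : Tendsto (fun t : ℝ => t + 1) atTop atTop := tendsto_atTop_add_const_right _ _ tendsto_id
  by_cases hd : 0 < q.degree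
  · rcases le_total 0 q.leadingCoeff with h | h
    · have h1 := (q.tendsto_atTop_of_leadingCoeff_nonneg hd h).eventually_gt_atTop 0
      filter_upwards [h1, hs.eventually h1] with t a b
      exact ⟨iff_of_false a.ne' b.ne', iff_of_true a b⟩
    · have h1 := (q.tendsto_atBot_of_leadingCoeff_nonpos hd h).eventually_lt_atBot 0
      filter_upwards [h1, hs.eventually h1] with t a b
      exact ⟨iff_of_false a.ne b.ne, iff_of_false a.not_gt b.not_gt⟩
  · rw [Polynomial.eq_C_of_degree_le_zero (not_lt.1 hd)]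
    exact Eventually.of_forall (fun t => by simp)

lemma line_eventually (a d : Fin 4 → ℝ) (p : MvPolynomial (Fin 4) ℝ) :
    ∀ᶠ t : ℝ in atTop,
      (MvPolynomial.eval (fun i => a i + t * d i) p = 0 ↔
        MvPolynomial.eval (fun i => a i + (t + 1) * d i) p = 0) ∧
      (0 < MvPolynomial.eval (fun i => a i + t * d i) p ↔
        0 < MvPolynomial.eval (fun i => a i + (t + 1) * d i) p) := by
  have key : ∀ t : ℝ, MvPolynomial.eval (fun i => a i + t * d i) p =
      (MvPolynomial.aeval (fun i => Polynomial.C (a i) + Polynomial.X * Polynomial.C (d i))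
        p).eval t := by
    intro t
    induction p using MvPolynomial.induction_on with
    | C c => simp
    | add p q hp hq => simp [hp, hq]
    | mul_X p i hp =>
      rw [map_mul, map_mul, Polynomial.eval_mul, hp, MvPolynomial.eval_X, MvPolynomial.aeval_X,
        Polynomial.eval_add, Polynomial.eval_mul, Polynomial.eval_C, Polynomial.eval_C,
        Polynomial.eval_X]
  simp only [key]
  exact poly_eventually _

lemma semi_eventually {S : Set (Fin 4 → ℝ)} (hS : IsSemialgebraic S) (a d : Fin 4 → ℝ) :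
    ∀ᶠ t : ℝ in atTop, ((fun i => a i + t * d i) ∈ S ↔ (fun i => a i + (t + 1) * d i) ∈ S) := by
  obtain ⟨T, rfl⟩ := hS
  have h1 := (eventually_all_finset T).2 (fun τ _ =>
    ((eventually_all_finset τ.1).2 (fun p _ => line_eventually a d p)).and
      ((eventually_all_finset τ.2).2 (fun p _ => line_eventually a d p)))
  filter_upwards [h1] with t ht
  refine exists_congr (fun τ => and_congr_right (fun hτ => and_congr ?_ ?_))
  · exact forall₂_congr (fun p hp => ((ht τ hτ).1 p hp).1)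
  · exact forall₂_congr (fun p hp => ((ht τ hτ).2 p hp).2)

/-- The affine functions on the vertices of the cyclic 4-polytope with six vertices. -/
def R6 : Submodule ℝ (Fin 6 → ℝ) where
  carrier := {φ | φ 0 + φ 1 + φ 2 = φ 3 + φ 4 + φ 5}
  add_mem' := by
    intro a b ha hb
    simp only [Set.mem_ofPred_eq, Pi.add_apply] at *
    linarith
  zero_mem' := by simp
  smul_mem' := by
    intro c a ha
    simp only [Set.mem_ofPred_eq, Pi.smul_apply, smul_eq_mul] at *
    linear_combination c * ha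

lemma mem_R6 {φ : Fin 6 → ℝ} : φ ∈ R6 ↔ φ 0 + φ 1 + φ 2 = φ 3 + φ 4 + φ 5 := Iff.rfl

lemma single_mem_R6 {a b : Fin 6} (ha : a ∈ ({0, 1, 2} : Finset (Fin 6)))
    (hb : b ∈ ({3, 4, 5} : Finset (Fin 6))) :
    (Pi.single a 1 + Pi.single b 1 : Fin 6 → ℝ) ∈ R6 := by
  simp only [mem_insert, mem_singleton] at ha hb
  rcases ha with rfl | rfl | rfl <;> rcases hb with rfl | rfl | rfl <;> simp [mem_R6]

lemma R6_good {X : Finset (Fin 6)} (h1 : ¬ ({0, 1, 2} : Finset (Fin 6)) ⊆ X)
    (h2 : ¬ ({3, 4, 5} : Finset (Fin 6)) ⊆ X) : IsFace univ R6 X ∧ rk R6 X = X.card := by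
  obtain ⟨a, ha, haX⟩ := not_subset.1 h1
  obtain ⟨b, hb, hbX⟩ := not_subset.1 h2
  have hex : ∀ v : Fin 6, ∃ w, w ∉ X ∧ (Pi.single v 1 + Pi.single w 1 : Fin 6 → ℝ) ∈ R6 := by
    intro v
    have : v ∈ ({0, 1, 2} : Finset (Fin 6)) ∨ v ∈ ({3, 4, 5} : Finset (Fin 6)) := by
      revert v; decide
    rcases this with h | h
    · exact ⟨b, hbX, single_mem_R6 h hb⟩
    · exact ⟨a, haX, add_comm (Pi.single a 1 : Fin 6 → ℝ) _ ▸ single_mem_R6 ha h⟩
  choose w hw hwR using hex
  constructor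
  · refine isFace_of_fun (subset_univ _)
      (φ := ∑ v ∈ Xᶜ, (Pi.single v 1 + Pi.single (w v) 1 : Fin 6 → ℝ))
      (R6.sum_mem fun v _ => hwR v) (fun x hx => ?_) (fun x _ hx => ?_)
    · rw [Finset.sum_apply]
      refine sum_eq_zero (fun v hv => ?_)
      have n1 : x ≠ v := by rintro rfl; exact (mem_compl.1 hv) hx
      have n2 : x ≠ w v := by rintro rfl; exact hw v hx
      simp [n1, n2]
    · rw [Finset.sum_apply]
      refine sum_pos' (fun v _ => ?_) ⟨x, mem_compl.2 hx, ?_⟩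
      · simp only [Pi.add_apply, Pi.single_apply]; split_ifs <;> norm_num
      · simp only [Pi.add_apply, Pi.single_apply]; split_ifs <;> norm_num
  · apply Indep.rk_eq
    intro v hv
    refine ⟨_, hwR v, ?_, fun x hx hne => ?_⟩
    · have n2 : v ≠ w v := by intro h; exact hw v (h ▸ hv)
      simp [n2]
    · have n2 : x ≠ w v := by rintro rfl; exact hw v hx
      simp [hne, n2]

lemma R6_rk : rk R6 univ = 5 := by
  have h1 := R6_good (X := {0, 1, 3, 4}) (by decide) (by decide)
  have h2 := h1.1.rk_lt (subset_univ _) subset_rfl (by decide)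
  have h3 : Spans R6 {0, 1, 2, 3, 4} univ := by
    intro φ hφ hz y _
    have a0 := hz 0 (by decide); have a1 := hz 1 (by decide); have a2 := hz 2 (by decide)
    have a3 := hz 3 (by decide); have a4 := hz 4 (by decide)
    rw [mem_R6] at hφ
    fin_cases y
    · exact a0
    · exact a1
    · exact a2
    · exact a3
    · exact a4
    · change φ 5 = 0
      linarith
  have h4 := rk_le_of_spans h3
  have h5 := rk_le_card (R := R6) {0, 1, 2, 3, 4}
  rw [h1.2] at h2
  have h6 : ({0, 1, 3, 4} : Finset (Fin 6)).card = 4 := by decide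
  have h7 : ({0, 1, 2, 3, 4} : Finset (Fin 6)).card = 5 := by decide
  omega

lemma R6_faces {k : ℕ} (hk : k ≤ 4) : faces univ R6 k = (powersetCard k univ).filter
    (fun X => ¬ ({0, 1, 2} : Finset (Fin 6)) ⊆ X ∧ ¬ ({3, 4, 5} : Finset (Fin 6)) ⊆ X) := by
  ext X
  rw [mem_faces, mem_filter, mem_powersetCard]
  constructor
  · rintro ⟨h1, h2⟩
    obtain ⟨_, φ, hφ, a1, a2⟩ := h1
    have hall : (∀ v, φ v = 0) → False := fun h => by
      rw [eq_univ_of_forall (fun v => (a2 v (mem_univ v)).1 (h v)), R6_rk] at h2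
      omega
    rw [mem_R6] at hφ
    have b0 := a1 0 (mem_univ _); have b1 := a1 1 (mem_univ _); have b2 := a1 2 (mem_univ _)
    have b3 := a1 3 (mem_univ _); have b4 := a1 4 (mem_univ _); have b5 := a1 5 (mem_univ _)
    have hz : φ 0 + φ 1 + φ 2 = 0 → False := fun h => hall (fun v => by
      fin_cases v
      · change φ 0 = 0; linarith
      · change φ 1 = 0; linarith
      · change φ 2 = 0; linarith
      · change φ 3 = 0; linarith
      · change φ 4 = 0; linarith
      · change φ 5 = 0; linarith)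
    have n1 : ¬ ({0, 1, 2} : Finset (Fin 6)) ⊆ X := fun h => hz (by
      rw [(a2 0 (mem_univ _)).2 (h (by decide)), (a2 1 (mem_univ _)).2 (h (by decide)),
        (a2 2 (mem_univ _)).2 (h (by decide))]; simp)
    have n2 : ¬ ({3, 4, 5} : Finset (Fin 6)) ⊆ X := fun h => hz (by
      rw [hφ, (a2 3 (mem_univ _)).2 (h (by decide)), (a2 4 (mem_univ _)).2 (h (by decide)),
        (a2 5 (mem_univ _)).2 (h (by decide))]; simp)
    exact ⟨⟨subset_univ _, by rw [← (R6_good n1 n2).2, h2]⟩, n1, n2⟩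
  · rintro ⟨⟨_, h1⟩, n1, n2⟩
    exact ⟨(R6_good n1 n2).1, by rw [(R6_good n1 n2).2, h1]⟩

lemma R6_poly : IsPoly univ R6 :=
  ⟨(R6_good (by decide) (by decide)).1,
    fun v _ => (R6_good (by revert v; decide) (by revert v; decide)).1⟩

lemma cyclic_mem : ![6, 15, 18, 9] ∈ fVectors ∧ ![9, 18, 15, 6] ∈ fVectors := by
  have c1 : (faces univ R6 1).card = 6 := by rw [R6_faces (by omega)]; decide
  have c2 : (faces univ R6 2).card = 15 := by rw [R6_faces (by omega)]; decide
  have c3 : (faces univ R6 3).card = 18 := by rw [R6_faces (by omega)]; decide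
  have c4 : (faces univ R6 4).card = 9 := by rw [R6_faces (by omega)]; decide
  constructor
  · obtain ⟨P, hP, hn⟩ := exists_polytope R6_poly R6_rk
    refine ⟨P, hP, fun k => ?_⟩
    rw [hn]
    fin_cases k
    · simp [c1]
    · simp [c2]
    · simp [c3]
    · simp [c4]
  · obtain ⟨R', _, hD⟩ := exists_dual (n := 4) R6_rk
    obtain ⟨P, hP, hn⟩ := exists_polytope hD.poly (hD.rk_top R6_poly)
    have d1 := hD.card_faces R6_rk (k := 1) (j := 4) rfl
    have d2 := hD.card_faces R6_rk (k := 2) (j := 3) rfl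
    have d3 := hD.card_faces R6_rk (k := 3) (j := 2) rfl
    have d4 := hD.card_faces R6_rk (k := 4) (j := 1) rfl
    refine ⟨P, hP, fun k => ?_⟩
    rw [hn]
    fin_cases k
    · simp [d1, c4]
    · simp [d2, c3]
    · simp [d3, c2]
    · simp [d4, c1]

theorem not_semialgebraic :
    ¬ ∃ (S : Set (Fin 4 → ℝ)) (L : AffineSubspace ℤ (Fin 4 → ℤ)), IsSemialgebraic S ∧
      fVectors = {f | f ∈ L ∧ (fun k => (f k : ℝ)) ∈ S} := by
  rintro ⟨S, L, hS, hf⟩
  have hmem : ∀ i j : ℕ, ![5, 10, 10, 5] + (i : ℤ) • ![1, 4, 6, 3] + (j : ℤ) • ![3, 6, 4, 1] ∈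
      fVectors := fun i j => (min_fatness _ (by simp; ring)).2 ⟨i, j, rfl⟩
  have hL : ∀ f ∈ fVectors, f ∈ L := fun f h => by rw [hf] at h; exact h.1
  obtain ⟨N, hN⟩ := eventually_atTop.1 (tendsto_natCast_atTop_atTop.eventually
    (semi_eventually hS ![5, 10, 10, 5] ![2, 5, 5, 2]))
  have h1 := hN (2 * N) (by omega)
  have h2 := hmem N N
  rw [hf] at h2
  have h3 : (fun k => ((![5, 10, 10, 5] + (N : ℤ) • ![1, 4, 6, 3] + (N : ℤ) • ![3, 6, 4, 1] :
      Fin 4 → ℤ) k : ℝ)) = fun i => (![5, 10, 10, 5] : Fin 4 → ℝ) i +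
        ((2 * N : ℕ) : ℝ) * (![2, 5, 5, 2] : Fin 4 → ℝ) i := by
    funext k; fin_cases k <;> simp <;> ring
  have h4 := h1.1 (h3 ▸ h2.2)
  let g : Fin 4 → ℤ := ![7 + 4 * N, 15 + 10 * N, 15 + 10 * N, 7 + 4 * N]
  have h5 : g ∈ L := by
    have k1 := L.smul_vsub_vadd_mem 1 (hL _ (hmem (N + 2) N)) (hL _ (hmem 0 1)) (hL _ (hmem 0 0))
    have k2 := L.smul_vsub_vadd_mem 1 (hL _ cyclic_mem.2) (hL _ cyclic_mem.1) k1
    refine (congrArg (· ∈ L) ?_).mp k2
    funext k; fin_cases k <;> simp [g] <;> ring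
  have h6 : g ∈ fVectors := by
    rw [hf]
    refine ⟨h5, (congrArg (· ∈ S) ?_).mp h4⟩
    funext k; fin_cases k <;> simp [g] <;> ring
  obtain ⟨i, j, h7⟩ := (min_fatness g (by simp [g]; ring)).1 h6
  have e0 := congrFun h7 0
  have e3 := congrFun h7 3
  simp [g] at e0 e3
  omega

end Pool.Agent.P.MP_af6acb_co
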