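import Pool.Agent.P.MP_af6acb_co.Class

/-!
Transport of configurations, stacking, and existence of all f-vectors of minimal fatness.
-/

namespace Pool.Agent.P.MP_af6acb_co

open Finset Module

set_option linter.unusedSectionVars false
set_option linter.unusedVariables false

variable {ι κ : Type} [DecidableEq ι] [DecidableEq κ] {R : Submodule ℝ (ι → ℝ)}
  {R' : Submodule ℝ (κ → ℝ)} {V X Y Z : Finset ι}

/-- The map `g` identifies `(V, R)` with its image in `R'`, up to positive weights `l`. -/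
structure Transp (V : Finset ι) (R : Submodule ℝ (ι → ℝ)) (R' : Submodule ℝ (κ → ℝ))
    (g : ι → κ) (l : ι → ℝ) : Prop where
  inj : Set.InjOn g V
  pos : ∀ v ∈ V, 0 < l v
  fwd : ∀ φ ∈ R, ∃ ψ ∈ R', ∀ v ∈ V, φ v = l v * ψ (g v)
  bwd : ∀ ψ ∈ R', ∃ φ ∈ R, ∀ v ∈ V, φ v = l v * ψ (g v)

variable {g : ι → κ} {l : ι → ℝ}

lemma Transp.mem_iff (h : Transp V R R' g l) (hX : X ⊆ V) {v : ι} (hv : v ∈ V) :
    g v ∈ X.image g ↔ v ∈ X := by
  rw [mem_image]
  exact ⟨fun ⟨x, hx, he⟩ => h.inj (hX hx) hv he ▸ hx, fun hx => ⟨v, hx, rfl⟩⟩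

lemma Transp.face_iff (h : Transp V R R' g l) (hX : X ⊆ V) :
    IsFace (V.image g) R' (X.image g) ↔ IsFace V R X := by
  constructor
  · intro hf
    obtain ⟨ψ, hψ, a1, a2⟩ := hf.exists_fun
    obtain ⟨φ, hφ, he⟩ := h.bwd ψ hψ
    refine isFace_of_fun hX hφ (fun v hv => ?_) (fun v hv hvX => ?_)
    · rw [he v (hX hv), a1 _ (mem_image_of_mem g hv), mul_zero]
    · rw [he v hv]
      exact mul_pos (h.pos v hv) (a2 _ (mem_image_of_mem g hv) (by rwa [h.mem_iff hX hv]))
  · intro hf
    obtain ⟨φ, hφ, a1, a2⟩ := hf.exists_fun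
    obtain ⟨ψ, hψ, he⟩ := h.fwd φ hφ
    refine isFace_of_fun (image_subset_image hX) hψ (fun w hw => ?_) (fun w hw hwX => ?_)
    · obtain ⟨v, hv, rfl⟩ := mem_image.1 hw
      have := he v (hX hv)
      rw [a1 v hv] at this
      rcases mul_eq_zero.1 this.symm with h0 | h0
      · exact absurd h0 (h.pos v (hX hv)).ne'
      · exact h0
    · obtain ⟨v, hv, rfl⟩ := mem_image.1 hw
      have := a2 v hv (by rwa [h.mem_iff hX hv] at hwX)
      rw [he v hv] at this
      exact (mul_pos_iff_of_pos_left (h.pos v hv)).1 this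

lemma Transp.poly (h : Transp V R R' g l) (hP : IsPoly V R) : IsPoly (V.image g) R' := by
  constructor
  · simpa using (h.face_iff (empty_subset V)).2 hP.empty
  · intro w hw
    obtain ⟨v, hv, rfl⟩ := mem_image.1 hw
    simpa using (h.face_iff (singleton_subset_iff.2 hv)).2 (hP.single v hv)

variable [FiniteDimensional ℝ R] [FiniteDimensional ℝ R']

lemma Transp.rk_eq (h : Transp V R R' g l) (hX : X ⊆ V) : rk R' (X.image g) = rk R X := by
  obtain ⟨B, hBX, hB, hs, hc⟩ := exists_basis (R := R) X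
  have hBV := hBX.trans hX
  have h1 : Indep R' (B.image g) := by
    intro w hw
    obtain ⟨b, hb, rfl⟩ := mem_image.1 hw
    obtain ⟨e, he, e1, e2⟩ := hB b hb
    obtain ⟨ψ, hψ, hh⟩ := h.fwd e he
    refine ⟨l b • ψ, R'.smul_mem _ hψ, by simpa [e1] using (hh b (hBV hb)).symm,
      fun w' hw' hne => ?_⟩
    obtain ⟨b', hb', rfl⟩ := mem_image.1 hw'
    have := hh b' (hBV hb')
    rw [e2 b' hb' (fun he => hne (he ▸ rfl))] at this
    rcases mul_eq_zero.1 this.symm with h0 | h0
    · exact absurd h0 (h.pos b' (hBV hb')).ne'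
    · simp [h0]
  have h2 : Spans R' (B.image g) (X.image g) := by
    intro ψ hψ hz w hw
    obtain ⟨x, hx, rfl⟩ := mem_image.1 hw
    obtain ⟨φ, hφ, hh⟩ := h.bwd ψ hψ
    have := hs φ hφ (fun b hb => by
      rw [hh b (hBV hb), hz _ (mem_image_of_mem g hb), mul_zero]) x hx
    rw [hh x (hX hx)] at this
    rcases mul_eq_zero.1 this with h0 | h0
    · exact absurd h0 (h.pos x (hX hx)).ne'
    · exact h0
  have h3 := rk_le_of_spans h2
  have h4 := rk_mono (R := R') (image_subset_image (f := g) hBX)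
  rw [h1.rk_eq, card_image_of_injOn (h.inj.mono hBV)] at h3 h4
  omega

lemma Transp.card_faces (h : Transp V R R' g l) (k : ℕ) :
    (faces (V.image g) R' k).card = (faces V R k).card := by
  symm
  refine card_bij (fun X _ => X.image g) (fun X hX => ?_) (fun X hX Y hY he => ?_)
    (fun Z hZ => ?_)
  · obtain ⟨h1, h2⟩ := mem_faces.1 hX
    exact mem_faces.2 ⟨(h.face_iff h1.1).2 h1, by rw [h.rk_eq h1.1, h2]⟩
  · have h1 := (mem_faces.1 hX).1.1
    have h2 := (mem_faces.1 hY).1.1
    ext v
    constructor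
    · intro hv; rw [← h.mem_iff h2 (h1 hv), ← he]; exact mem_image_of_mem g hv
    · intro hv; rw [← h.mem_iff h1 (h2 hv), he]; exact mem_image_of_mem g hv
  · obtain ⟨h1, h2⟩ := mem_faces.1 hZ
    obtain ⟨X, hX, rfl⟩ := subset_image_iff.1 h1.1
    exact ⟨X, mem_faces.2 ⟨(h.face_iff hX).1 h1, by rw [← h.rk_eq hX, h2]⟩, rfl⟩

/-- There is a polytopal configuration with the given f-vector, a simplex facet and a simple
vertex. -/
def Good (a b c d : ℕ) : Prop :=
  ∃ (ι : Type) (_ : DecidableEq ι) (V : Finset ι) (R : Submodule ℝ (ι → ℝ))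
    (_ : FiniteDimensional ℝ R), IsPoly V R ∧ rk R V = 5 ∧ V.card = a ∧ (faces V R 2).card = b ∧
      (faces V R 3).card = c ∧ (faces V R 4).card = d ∧ (∃ T ∈ faces V R 4, T.card = 4) ∧
      ∃ v ∈ V, ((faces V R 4).filter (fun F => v ∈ F)).card = 4

lemma good_simplex : Good 5 10 10 5 := by
  have hi : Indep (⊤ : Submodule ℝ (Fin 5 → ℝ)) univ := fun b _ =>
    ⟨Pi.single b 1, trivial, by simp, fun b' _ hne => by simp [hne]⟩
  refine ⟨Fin 5, inferInstance, univ, ⊤, inferInstance,
    ⟨hi.isFace (empty_subset _), fun v _ => hi.isFace (subset_univ _)⟩, by simp [hi.rk_eq],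
    by simp, ?_, ?_, ?_, ⟨{0, 1, 2, 3}, ?_, ?_⟩, ⟨0, mem_univ _, ?_⟩⟩
  all_goals first | (rw [hi.faces_eq]; decide) | decide

lemma Good.dual {a b c d : ℕ} (h : Good a b c d) : Good d c b a := by
  obtain ⟨ι, _, V, R, _, hP, hr, h1, h2, h3, h4, ⟨T, hT, hT'⟩, v, hv, hv'⟩ := h
  obtain ⟨R', _, hD⟩ := exists_dual (n := 4) hr
  refine ⟨_, inferInstance, faces V R 4, R', inferInstance, hD.poly, hD.rk_top hP, h4,
    by rw [hD.card_faces hr (j := 3) rfl, h3], by rw [hD.card_faces hr (j := 2) rfl, h2],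
    by rw [hD.card_faces hr (j := 1) rfl, hP.card_faces_one, h1], ⟨dl V R 4 {v}, ?_, ?_⟩,
    T, hT, ?_⟩
  · rw [hD.faces_eq (j := 1) rfl, hP.faces_one]
    exact mem_image_of_mem _ (mem_image_of_mem _ hv)
  · refine Eq.trans ?_ hv'
    rw [dl]
    congr 1
    exact filter_congr (fun F _ => singleton_subset_iff)
  · refine Eq.trans ?_ hT'
    rw [← hD.card_facets hP hr (mem_faces.1 hT).1, dl_facet hT]
    congr 1
    exact filter_congr (fun F _ => singleton_subset_iff.symm)

lemma Good.stack {a b c d : ℕ} (h : Good a b c d) : Good (a + 1) (b + 4) (c + 6) (d + 3) := by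
  obtain ⟨ι, _, V, R, _, hP, hr, h1, h2, h3, h4, ⟨T, hT, hT'⟩, -⟩ := h
  obtain ⟨hTf, hTr⟩ := mem_faces.1 hT
  have hTne : T.Nonempty := card_pos.1 (by omega)
  have hex : ∀ X : Finset ι, ∃ φ ∈ R, IsFace V R X →
      (∀ v ∈ X, φ v = 0) ∧ ∀ v ∈ V, v ∉ X → 0 < φ v := by
    intro X
    by_cases h : IsFace V R X
    · obtain ⟨φ, hφ, h1⟩ := h.exists_fun
      exact ⟨φ, hφ, fun _ => h1⟩
    · exact ⟨0, R.zero_mem, fun h' => absurd h' h⟩
  choose a ha hfun using hex
  obtain ⟨ε, hε, hpert⟩ := exists_pert V.powerset (fun X => ∑ t ∈ T, a X t)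
    (fun X => -∑ v ∈ V, a X v)
  let L : (ι → ℝ) →ₗ[ℝ] (Option ι → ℝ) :=
    { toFun := fun φ o => o.elim (∑ t ∈ T, φ t + ε * -∑ v ∈ V, φ v) φ
      map_add' := fun φ ψ => by
        funext o; cases o <;> simp [sum_add_distrib]; ring
      map_smul' := fun s φ => by
        funext o; cases o <;> simp [← mul_sum]; ring }
  have Ls : ∀ φ v, L φ (some v) = φ v := fun _ _ => rfl
  have Ln : ∀ φ, L φ none = ∑ t ∈ T, φ t + ε * -∑ v ∈ V, φ v := fun _ => rfl
  have hTr' : Transp V R (R.map L) some (fun _ => 1) :=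
    ⟨fun _ _ _ _ h => Option.some_injective _ h, fun _ _ => one_pos,
      fun φ hφ => ⟨L φ, Submodule.mem_map_of_mem hφ, fun v _ => by simp [Ls]⟩,
      by rintro _ ⟨φ, hφ, rfl⟩; exact ⟨φ, hφ, fun v _ => by simp [Ls]⟩⟩
  set W : Finset (Option ι) := insert none (V.image some) with hW
  have hkeep : ∀ X, IsFace V R X → ¬ T ⊆ X → IsFace W (R.map L) (X.image some) := by
    intro X hX hTX
    obtain ⟨a1, a2⟩ := hfun X hX
    refine isFace_of_fun ((image_subset_image hX.1).trans (subset_insert _ _))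
      (Submodule.mem_map_of_mem (ha X)) (fun w hw => ?_) (fun w hw hwX => ?_)
    · obtain ⟨v, hv, rfl⟩ := mem_image.1 hw
      exact a1 v hv
    · rcases mem_insert.1 hw with rfl | hw
      · rw [Ln]
        refine (hpert X (mem_powerset.2 hX.1)).1 ?_
        obtain ⟨t, ht, htX⟩ := not_subset.1 hTX
        refine sum_pos' (fun s hs => ?_) ⟨t, ht, a2 t (hTf.1 ht) htX⟩
        by_cases h : s ∈ X
        · exact (a1 s h).ge
        · exact (a2 s (hTf.1 hs) h).le
      · obtain ⟨v, hv, rfl⟩ := mem_image.1 hw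
        exact a2 v hv (fun h => hwX (mem_image_of_mem _ h))
  obtain ⟨η0, η1⟩ := hfun T hTf
  have ηnn : ∀ v ∈ V, 0 ≤ a T v := fun v hv => by
    by_cases h : v ∈ T
    · exact (η0 v h).ge
    · exact (η1 v hv h).le
  obtain ⟨y, hy, hyT⟩ := exists_of_ssubset (lt_of_le_of_ne hTf.1
    (by intro he; rw [he] at hTr; omega) : T ⊂ V)
  have ηn : L (a T) none < 0 := by
    rw [Ln, sum_eq_zero η0]
    have : 0 < ∑ v ∈ V, a T v := sum_pos' ηnn ⟨y, hy, η1 y hy hyT⟩
    nlinarith
  have hE := hkeep ∅ hP.empty (fun h => hTne.ne_empty (subset_empty.1 h))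
  rw [image_empty] at hE
  have hPW : IsPoly W (R.map L) := by
    refine ⟨hE, fun w hw => ?_⟩
    rcases mem_insert.1 hw with rfl | hw
    · obtain ⟨ψ, hψ, _, b2⟩ := hE.exists_fun
      have b3 := b2 none hw (notMem_empty _)
      refine isFace_of_fun (singleton_subset_iff.2 hw) (φ := ψ none • L (a T) - L (a T) none • ψ)
        (Submodule.sub_mem _ (Submodule.smul_mem _ _ (Submodule.mem_map_of_mem (ha T)))
          (Submodule.smul_mem _ _ hψ)) (by simp [mul_comm]) (fun w hw hw' => ?_)
      have b4 := b2 w hw (notMem_empty _)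
      rcases mem_insert.1 hw with rfl | hw
      · simp at hw'
      · obtain ⟨v, hv, rfl⟩ := mem_image.1 hw
        have := ηnn v hv
        simp only [Pi.sub_apply, Pi.smul_apply, smul_eq_mul, Ls]
        nlinarith [mul_nonneg b3.le this, mul_pos (neg_pos.2 ηn) b4]
    · obtain ⟨v, hv, rfl⟩ := mem_image.1 hw
      have := hkeep {v} (hP.single v hv) (fun h => by
        have := card_le_card h; rw [card_singleton] at this; omega)
      rwa [image_singleton] at this
  have hrV : rk (R.map L) (V.image some) = 5 := by rw [hTr'.rk_eq subset_rfl, hr]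
  have hrW : rk (R.map L) W = 5 := by
    apply le_antisymm
    · rw [← hrV]
      apply rk_le_of_spans
      rintro _ ⟨φ, hφ, rfl⟩ hz w hw
      have hz' : ∀ v ∈ V, φ v = 0 := fun v hv => hz (some v) (mem_image_of_mem _ hv)
      rcases mem_insert.1 hw with rfl | hw
      · rw [Ln, sum_eq_zero (fun t ht => hz' t (hTf.1 ht)), sum_eq_zero hz']; simp
      · exact hz w hw
    · rw [← hrV]; exact rk_mono (subset_insert _ _)
  have hcT : (T.image some).card = 4 := by
    rw [card_image_of_injective _ (Option.some_injective _), hT']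
  have hcut : Cut W (R.map L) (T.image some) (L (a T)) := by
    refine ⟨(image_subset_image hTf.1).trans (subset_insert _ _), hcT, fun w hw => ?_,
      Submodule.mem_map_of_mem (ha T), fun w hw => ?_,
      ⟨some y, mem_insert_of_mem (mem_image_of_mem _ hy), η1 y hy hyT⟩,
      ⟨none, mem_insert_self _ _, ηn⟩⟩
    · obtain ⟨t, ht, rfl⟩ := mem_image.1 hw
      rw [← image_erase (Option.some_injective _)]
      exact hkeep _ (hTf.of_indep (by omega) (erase_subset t T))
        (fun h => notMem_erase t T (h ht))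
    · obtain ⟨t, ht, rfl⟩ := mem_image.1 hw
      exact η0 t ht
  have hs1 : side W (L (a T)) = V.image some := by
    ext w
    rw [mem_side]
    constructor
    · rintro ⟨k1, k2⟩
      rcases mem_insert.1 k1 with rfl | k1
      · linarith
      · exact k1
    · intro hw
      obtain ⟨v, hv, rfl⟩ := mem_image.1 hw
      exact ⟨mem_insert_of_mem hw, ηnn v hv⟩
  have hs2 : side W (-L (a T)) = insert none (T.image some) := by
    ext w
    rw [mem_side]
    constructor
    · rintro ⟨k1, k2⟩
      rcases mem_insert.1 k1 with rfl | k1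
      · exact mem_insert_self _ _
      · obtain ⟨v, hv, rfl⟩ := mem_image.1 k1
        refine mem_insert_of_mem (mem_image_of_mem _ ?_)
        by_contra h
        have := η1 v hv h
        simp only [Pi.neg_apply, Ls] at k2
        linarith
    · intro hw
      rcases mem_insert.1 hw with rfl | hw
      · exact ⟨mem_insert_self _ _, by simp only [Pi.neg_apply]; linarith⟩
      · exact ⟨hcut.sub hw, by simp [hcut.zero w hw]⟩
  have hnT : none ∉ T.image some := by simp
  have hc5 : (insert none (T.image some)).card = 5 := by rw [card_insert_of_notMem hnT, hcT]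
  have hi : Indep (R.map L) (insert none (T.image some)) := by
    apply indep_of_rk_eq
    rw [hc5, ← hs2, hcut.symm.rk_side hPW hrW]
  have cnt : ∀ k ≤ 4, (faces V R k).card + Nat.choose 5 k =
      (faces W (R.map L) k).card + Nat.choose 4 k + (if k = 4 then 1 else 0) := by
    intro k hk
    have := hcut.card_faces hPW hrW hk
    rwa [hs1, hs2, hTr'.card_faces, hi.faces_eq, card_powersetCard, hc5] at this
  have c2 := cnt 2 (by omega)
  have c3 := cnt 3 (by omega)
  have c4 := cnt 4 (by omega)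
  norm_num [Nat.choose] at c2 c3 c4
  have hfil : (faces W (R.map L) 4).filter (fun F => none ∈ F) =
      (powersetCard 4 (insert none (T.image some))).erase (T.image some) := by
    ext F
    rw [mem_filter, mem_erase, ← hi.faces_eq, mem_faces, mem_faces, ← hs2]
    constructor
    · rintro ⟨⟨k1, k2⟩, k3⟩
      refine ⟨by rintro rfl; exact hnT k3, ?_, k2⟩
      rcases hcut.sub_or hPW hrW k1 (by intro he; rw [he] at k2; omega) with k4 | k4
      · rw [hs1] at k4
        simpa using k4 k3
      · exact k1.sub (side_subset _) k4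
    · rintro ⟨k1, k2, k3⟩
      refine ⟨⟨hcut.symm.face_of_side hPW hrW k2 k1 (by
        intro he; rw [he, hcut.symm.rk_side hPW hrW] at k3; omega), k3⟩, ?_⟩
      by_contra hn
      apply k1
      have k4 : F ⊆ T.image some := fun w hw => by
        have := k2.1 hw
        rw [hs2] at this
        rcases mem_insert.1 this with rfl | h
        · exact absurd hw hn
        · exact h
      have k5 := rk_le_card (R := R.map L) F
      exact eq_of_subset_of_card_le k4 (by omega)
  have hc4 : ((faces W (R.map L) 4).filter (fun F => none ∈ F)).card = 4 := by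
    rw [hfil, card_erase_of_mem (mem_powersetCard.2 ⟨subset_insert _ _, hcT⟩), card_powersetCard,
      hc5]
    rfl
  obtain ⟨F, hF⟩ : ((faces W (R.map L) 4).filter (fun F => none ∈ F)).Nonempty :=
    card_pos.1 (by omega)
  refine ⟨Option ι, inferInstance, W, R.map L, inferInstance, hPW, hrW, ?_, by omega, by omega,
    by omega, ⟨F, (mem_filter.1 hF).1, ?_⟩, none, mem_insert_self _ _, hc4⟩
  · rw [hW, card_insert_of_notMem (by simp), card_image_of_injective _ (Option.some_injective _),
      h1]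
  · rw [hfil] at hF
    exact (mem_powersetCard.1 (mem_erase.1 hF).2).2

theorem good_all (i j : ℕ) :
    Good (5 + i + 3 * j) (10 + 4 * i + 6 * j) (10 + 6 * i + 4 * j) (5 + 3 * i + j) := by
  induction i with
  | zero =>
    induction j with
    | zero => exact good_simplex
    | succ j ih =>
      have := ih.dual.stack.dual
      rwa [show 5 + 0 + 3 * j + 3 = 5 + 0 + 3 * (j + 1) by ring,
        show 10 + 4 * 0 + 6 * j + 6 = 10 + 4 * 0 + 6 * (j + 1) by ring,
        show 10 + 6 * 0 + 4 * j + 4 = 10 + 6 * 0 + 4 * (j + 1) by ring,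
        show 5 + 3 * 0 + j + 1 = 5 + 3 * 0 + (j + 1) by ring] at this
  | succ i ih =>
    have := ih.stack
    rwa [show 5 + i + 3 * j + 1 = 5 + (i + 1) + 3 * j by ring,
      show 10 + 4 * i + 6 * j + 4 = 10 + 4 * (i + 1) + 6 * j by ring,
      show 10 + 6 * i + 4 * j + 6 = 10 + 6 * (i + 1) + 4 * j by ring,
      show 5 + 3 * i + j + 3 = 5 + 3 * (i + 1) + j by ring] at this

end Pool.Agent.P.MP_af6acb_co
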